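import Mathlib

set_option autoImplicit false

open scoped BigOperators

namespace Pool.Agent.Helper153.Ditt

/-- permanent-type sum: rows listed in `L`, columns in the finset `T` -/
noncomputable def pl {α β : Type} [DecidableEq β] (a : α → β → ℝ) : List α → Finset β → ℝ
  | [], T => if T = ∅ then 1 else 0
  | i :: L, T => ∑ j ∈ T, a i j * pl a L (T.erase j)

/-- permanent of the submatrix with rows `S` and columns `T` (zero if the cardinalities differ) -/
noncomputable def pm {α β : Type} [DecidableEq β] (a : α → β → ℝ) (S : Finset α) (T : Finset β) : ℝ :=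
  pl a S.toList T

variable {n : ℕ}

/-- permanent -/
noncomputable def per (A : Fin n → Fin n → ℝ) : ℝ := pm A Finset.univ Finset.univ

/-- minor: row `i` and column `j` deleted -/
noncomputable def mn (A : Fin n → Fin n → ℝ) (i j : Fin n) : ℝ :=
  pm A (Finset.univ.erase i) (Finset.univ.erase j)

noncomputable def rs (A : Fin n → Fin n → ℝ) (i : Fin n) : ℝ := ∑ j, A i j
noncomputable def cs (A : Fin n → Fin n → ℝ) (j : Fin n) : ℝ := ∑ i, A i j
noncomputable def RR (A : Fin n → Fin n → ℝ) : ℝ := ∏ i, rs A i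
noncomputable def CC (A : Fin n → Fin n → ℝ) : ℝ := ∏ j, cs A j
noncomputable def xi (A : Fin n → Fin n → ℝ) (i : Fin n) : ℝ := RR A - RR A / rs A i
noncomputable def ze (A : Fin n → Fin n → ℝ) (j : Fin n) : ℝ := CC A / cs A j - CC A
noncomputable def mm (n : ℕ) : ℝ := (n.factorial : ℝ) / (n : ℝ) ^ n
noncomputable def phi (A : Fin n → Fin n → ℝ) : ℝ := RR A + CC A - per A

/-- the first `k` indices -/
def fst (n k : ℕ) : Finset (Fin n) := Finset.univ.filter (fun i : Fin n => (i : ℕ) < k)

/-- `X_k` -/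
noncomputable def XX (A : Fin n → Fin n → ℝ) (k : ℕ) : ℝ :=
  ∑ i ∈ fst n k, (rs A i - 1) - ∑ j ∈ fst n k, (cs A j - 1)

/-- total positive deviation -/
noncomputable def ZZ (A : Fin n → Fin n → ℝ) : ℝ :=
  ∑ i, max (rs A i - 1) 0 + ∑ j, max (cs A j - 1) 0

/-- first order conditions at a maximiser with large value -/
structure Crit (A : Fin n → Fin n → ℝ) : Prop where
  nn : ∀ i j, 0 ≤ A i j
  tot : ∑ i, ∑ j, A i j = n
  rpos : ∀ i, 0 < rs A i
  cpos : ∀ j, 0 < cs A j
  dev : (1 - RR A) + (1 - CC A) + per A ≤ mm n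
  kkt : ∀ i j, per A - xi A i + ze A j ≤ mn A i j
  kkt0 : ∀ i j, A i j * (mn A i j - (per A - xi A i + ze A j)) = 0

/-- sorted: heaviest rows first, lightest columns first -/
structure Sorted (A : Fin n → Fin n → ℝ) : Prop where
  ra : Antitone (rs A)
  cm : Monotone (cs A)

end Pool.Agent.Helper153.Ditt
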