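import Pool.Agent.Helper153.Ditt.Defs

set_option autoImplicit false

open scoped BigOperators

namespace Pool.Agent.Helper153.Ditt

variable {n : ℕ}

theorem pl_perm {α β : Type} [DecidableEq β] (a : α → β → ℝ) {L L' : List α} (h : L.Perm L')
    (T : Finset β) : pl a L T = pl a L' T := by
  induction h generalizing T with
  | nil => rfl
  | cons i _ ih =>
    simp only [pl]
    exact Finset.sum_congr rfl (fun j _ => by rw [ih])
  | swap i i' L =>
    simp only [pl, Finset.mul_sum]
    rw [Finset.sum_comm' (t' := T) (s' := fun y => T.erase y)]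
    · refine Finset.sum_congr rfl (fun j _ => Finset.sum_congr rfl (fun j' _ => ?_))
      rw [Finset.erase_right_comm]
      ring
    · intro x y
      simp only [Finset.mem_erase]
      constructor
      · rintro ⟨hx, hne, hy⟩
        exact ⟨⟨fun h => hne h.symm, hx⟩, hy⟩
      · rintro ⟨⟨hne, hx⟩, hy⟩
        exact ⟨hx, fun h => hne h.symm, hy⟩
  | trans _ _ ih1 ih2 => rw [ih1, ih2]

theorem pm_row {α β : Type} [DecidableEq α] [DecidableEq β] (a : α → β → ℝ) (S : Finset α)
    (T : Finset β) (i : α) (hi : i ∈ S) :
    pm a S T = ∑ j ∈ T, a i j * pm a (S.erase i) (T.erase j) := by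
  have hp : S.toList.Perm (i :: (S.erase i).toList) := by
    refine List.perm_of_nodup_nodup_toFinset_eq S.nodup_toList ?_ ?_
    · rw [List.nodup_cons]
      refine ⟨?_, (S.erase i).nodup_toList⟩
      simp
    · ext x
      simp only [Finset.toList_toFinset, List.toFinset_cons, Finset.mem_insert, Finset.mem_erase]
      constructor
      · intro hx
        by_cases h : x = i
        · exact Or.inl h
        · exact Or.inr ⟨h, hx⟩
      · rintro (h | h)
        · rw [h]; exact hi
        · exact h.2
  unfold pm
  rw [pl_perm a hp T]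
  rfl

theorem pm_col {α β : Type} [DecidableEq α] [DecidableEq β] (a : α → β → ℝ) (S : Finset α)
    (T : Finset β) (j : β) (hj : j ∈ T) :
    pm a S T = ∑ i ∈ S, a i j * pm a (S.erase i) (T.erase j) := by
  induction hc : S.card generalizing S T j with
  | zero =>
    have hS : S = ∅ := Finset.card_eq_zero.mp hc
    subst hS
    rw [Finset.sum_empty]
    simp only [pm, Finset.toList_empty, pl]
    rw [if_neg (Finset.ne_empty_of_mem hj)]
  | succ m ih =>
    have hne : S.Nonempty := by
      rw [← Finset.card_pos, hc]; omega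
    obtain ⟨i0, hi0⟩ := hne
    have hcard : (S.erase i0).card = m := by
      rw [Finset.card_erase_of_mem hi0, hc]; rfl
    rw [pm_row a S T i0 hi0, ← Finset.add_sum_erase T _ hj, ← Finset.add_sum_erase S _ hi0]
    congr 1
    have h1 : ∀ j' ∈ T.erase j, a i0 j' * pm a (S.erase i0) (T.erase j')
        = ∑ i ∈ S.erase i0, a i0 j' * (a i j * pm a ((S.erase i0).erase i) ((T.erase j').erase j)) := by
      intro j' hj'
      have hjm : j ∈ T.erase j' := by
        rw [Finset.mem_erase] at hj' ⊢
        exact ⟨fun h => hj'.1 h.symm, hj⟩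
      rw [ih (S.erase i0) (T.erase j') j hjm hcard, Finset.mul_sum]
    rw [Finset.sum_congr rfl h1, Finset.sum_comm]
    refine Finset.sum_congr rfl (fun i hi => ?_)
    have hi0' : i0 ∈ S.erase i := by
      rw [Finset.mem_erase] at hi ⊢
      exact ⟨fun h => hi.1 h.symm, hi0⟩
    rw [pm_row a (S.erase i) (T.erase j) i0 hi0', Finset.mul_sum]
    refine Finset.sum_congr rfl (fun j' _ => ?_)
    rw [Finset.erase_right_comm (a := i0) (b := i), Finset.erase_right_comm (a := j') (b := j)]
    ring

theorem pm_nonneg {α β : Type} [DecidableEq α] [DecidableEq β] (a : α → β → ℝ)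
    (h : ∀ i j, 0 ≤ a i j) (S : Finset α) (T : Finset β) : 0 ≤ pm a S T := by
  have key : ∀ (L : List α) (T : Finset β), 0 ≤ pl a L T := by
    intro L
    induction L with
    | nil =>
      intro T
      simp only [pl]
      split_ifs <;> norm_num
    | cons i L ih =>
      intro T
      simp only [pl]
      exact Finset.sum_nonneg (fun j _ => mul_nonneg (h i j) (ih _))
  exact key _ _

theorem pm_empty_empty {α β : Type} [DecidableEq β] (a : α → β → ℝ) :
    pm a (∅ : Finset α) (∅ : Finset β) = 1 := by
  simp [pm, pl]

theorem pm_empty {α β : Type} [DecidableEq β] (a : α → β → ℝ) (T : Finset β) (hT : T.Nonempty) :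
    pm a (∅ : Finset α) T = 0 := by
  simp [pm, pl, hT.ne_empty]

end Pool.Agent.Helper153.Ditt
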