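import Pool.Agent.Helper153.Ditt.Defs
import Pool.Agent.Helper153.Ditt.J18826

set_option autoImplicit false

open scoped BigOperators

namespace Pool.Agent.Helper153.Ditt

variable {n : ℕ}





theorem pm_transpose {α β : Type} [DecidableEq α] [DecidableEq β] (a : α → β → ℝ) (S : Finset α)
    (T : Finset β) : pm a S T = pm (fun j i => a i j) T S := by
  induction S using Finset.strongInduction generalizing T with
  | H S ih =>
    rcases S.eq_empty_or_nonempty with hS | ⟨i, hi⟩
    · subst hS
      rcases T.eq_empty_or_nonempty with hT | hT
      · subst hT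
        rw [pm_empty_empty, pm_empty_empty]
      · rw [pm_empty a T hT]
        obtain ⟨j, hj⟩ := hT
        rw [pm_row (fun j i => a i j) T ∅ j hj, Finset.sum_empty]
    · rw [pm_row a S T i hi, pm_col (fun j i => a i j) T S i hi]
      refine Finset.sum_congr rfl fun j _ => ?_
      rw [ih (S.erase i) (Finset.erase_ssubset hi) (T.erase j)]

end Pool.Agent.Helper153.Ditt
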