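import Pool.Agent.Helper153.Ditt.Defs
import Pool.Agent.Helper153.Ditt.J18826
import Pool.Agent.Helper153.Ditt.J18865

set_option autoImplicit false

open scoped BigOperators

namespace Pool.Agent.Helper153.Ditt

variable {n : ℕ}







theorem pm_perm_sum {n : ℕ} (a : Fin n → Fin n → ℝ) (S : Finset (Fin n)) :
    ∀ σ0 : Equiv.Perm (Fin n),
      ∑ σ ∈ Finset.univ.filter (fun σ : Equiv.Perm (Fin n) => ∀ i, i ∉ S → σ i = σ0 i),
        ∏ i ∈ S, a i (σ i) = pm a S (S.image σ0) := by
  classical
  induction S using Finset.induction_on with
  | empty =>
    intro σ0
    rw [Finset.image_empty, pm_empty_empty]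
    have h : (Finset.univ.filter (fun σ : Equiv.Perm (Fin n) =>
        ∀ i, i ∉ (∅ : Finset (Fin n)) → σ i = σ0 i)) = {σ0} := by
      ext σ
      simp only [Finset.mem_filter, Finset.mem_univ, true_and, Finset.notMem_empty,
        not_false_eq_true, true_implies, Finset.mem_singleton]
      exact ⟨fun h => Equiv.ext h, fun h i => by rw [h]⟩
    rw [h, Finset.sum_singleton, Finset.prod_empty]
  | insert i S hi ih =>
    intro σ0
    rw [pm_row a (insert i S) _ i (Finset.mem_insert_self i S), Finset.erase_insert hi]
    rw [← Finset.sum_fiberwise_of_maps_to (g := fun σ : Equiv.Perm (Fin n) => σ i)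
      (t := (insert i S).image σ0)]
    · apply Finset.sum_congr rfl
      intro j hj
      set τ : Equiv.Perm (Fin n) := Equiv.swap (σ0 i) j * σ0 with hτ
      have hτi : τ i = j := by
        rw [hτ, Equiv.Perm.mul_apply, Equiv.swap_apply_left]
      have hτk : ∀ k, k ∉ insert i S → τ k = σ0 k := by
        intro k hk
        have h1 : σ0 k ≠ σ0 i := by
          intro h
          apply hk
          rw [σ0.injective h]
          exact Finset.mem_insert_self i S
        have h2 : σ0 k ≠ j := by
          intro h
          rw [← h, Finset.mem_image] at hj
          obtain ⟨l, hl, hl2⟩ := hj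
          apply hk
          rw [← σ0.injective hl2]
          exact hl
        rw [hτ, Equiv.Perm.mul_apply, Equiv.swap_apply_of_ne_of_ne h1 h2]
      have himg : S.image τ = ((insert i S).image σ0).erase j := by
        ext x
        rw [Finset.mem_erase]
        simp only [Finset.mem_image]
        constructor
        · rintro ⟨k, hk, rfl⟩
          refine ⟨?_, ?_⟩
          · intro h
            rw [← hτi] at h
            apply hi
            rw [← τ.injective h]
            exact hk
          · by_contra hcon
            push Not at hcon
            -- σ0.symm (τ k) is not in insert i S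
            have h3 : σ0.symm (τ k) ∉ insert i S := by
              intro h4
              exact hcon _ h4 (σ0.apply_symm_apply _)
            have h5 := hτk _ h3
            rw [σ0.apply_symm_apply] at h5
            have h6 := τ.injective h5
            rw [h6] at h3
            exact h3 (Finset.mem_insert_of_mem hk)
        · rintro ⟨hxj, k, hk, hkx⟩
          refine ⟨τ.symm x, ?_, τ.apply_symm_apply x⟩
          by_contra hcon
          by_cases h7 : τ.symm x = i
          · apply hxj
            rw [← hτi, ← h7, τ.apply_symm_apply]
          · have h8 : τ.symm x ∉ insert i S := by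
              rw [Finset.mem_insert]
              push Not
              exact ⟨h7, hcon⟩
            have h9 := hτk _ h8
            rw [τ.apply_symm_apply, ← hkx] at h9
            rw [← hkx] at h8
            have h10 := σ0.injective h9
            rw [← h10] at h8
            exact h8 hk
      rw [← himg, ← ih τ, Finset.mul_sum]
      have hset : (Finset.univ.filter (fun σ : Equiv.Perm (Fin n) =>
            ∀ k, k ∉ insert i S → σ k = σ0 k)).filter (fun σ => σ i = j)
          = Finset.univ.filter (fun σ : Equiv.Perm (Fin n) => ∀ k, k ∉ S → σ k = τ k) := by
        ext σ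
        simp only [Finset.mem_filter, Finset.mem_univ, true_and]
        constructor
        · rintro ⟨h1, h2⟩ k hk
          by_cases hki : k = i
          · rw [hki, h2, hτi]
          · have h3 : k ∉ insert i S := by
              rw [Finset.mem_insert]
              push Not
              exact ⟨hki, hk⟩
            rw [h1 k h3, hτk k h3]
        · intro h
          refine ⟨?_, ?_⟩
          · intro k hk
            rw [h k (fun h' => hk (Finset.mem_insert_of_mem h')), hτk k hk]
          · rw [h i hi, hτi]
      rw [hset]
      apply Finset.sum_congr rfl
      intro σ hσ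
      rw [Finset.mem_filter] at hσ
      rw [Finset.prod_insert hi, hσ.2 i hi, hτi]
    · intro σ hσ
      rw [Finset.mem_filter] at hσ
      show σ i ∈ Finset.image σ0 (insert i S)
      by_contra hcon
      have h3 : σ0.symm (σ i) ∉ insert i S := by
        intro h4
        apply hcon
        rw [Finset.mem_image]
        exact ⟨_, h4, σ0.apply_symm_apply _⟩
      have h5 := hσ.2 _ h3
      rw [σ0.apply_symm_apply] at h5
      have h6 := σ.injective h5
      rw [h6] at h3
      exact h3 (Finset.mem_insert_self i S)

theorem per_eq_permanent {n : ℕ} (A : Fin n → Fin n → ℝ) :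
    Matrix.permanent (Matrix.of A) = per A := by
  classical
  unfold per
  rw [pm_transpose]
  have h := pm_perm_sum (fun j i => A i j) Finset.univ 1
  have h1 : (Finset.univ : Finset (Fin n)).image ((1 : Equiv.Perm (Fin n)) : Fin n → Fin n)
      = Finset.univ := by
    ext x
    simp
  rw [h1] at h
  rw [← h]
  simp [Matrix.permanent]

end Pool.Agent.Helper153.Ditt
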