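import Pool.Agent.Helper153.Ditt.Defs
import Pool.Agent.Helper153.Ditt.J18826

set_option autoImplicit false

open scoped BigOperators

namespace Pool.Agent.Helper153.Ditt

variable {n : ℕ}






theorem pml_sdiff {α : Type} [DecidableEq α] (S S₁ : Finset α) (i : α) (hi : i ∈ S₁) :
    (S.erase i) \ (S₁.erase i) = S \ S₁ := by
  ext x
  simp only [Finset.mem_sdiff, Finset.mem_erase, not_and]
  constructor
  · rintro ⟨⟨h1, h2⟩, h3⟩
    exact ⟨h2, h3 h1⟩
  · rintro ⟨h1, h2⟩
    exact ⟨⟨fun h => h2 (h ▸ hi), h1⟩, fun _ => h2⟩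

theorem pm_mul_le {α β : Type} [DecidableEq α] [DecidableEq β] (a : α → β → ℝ)
    (h : ∀ i j, 0 ≤ a i j) (S₁ S : Finset α) (T₁ T : Finset β) (hS : S₁ ⊆ S) (hT : T₁ ⊆ T) :
    pm a S₁ T₁ * pm a (S \ S₁) (T \ T₁) ≤ pm a S T := by
  induction hk : S₁.card generalizing S₁ S T₁ T with
  | zero =>
    rw [Finset.card_eq_zero] at hk
    subst hk
    rcases T₁.eq_empty_or_nonempty with h1 | h1
    · subst h1
      rw [pm_empty_empty, one_mul, Finset.sdiff_empty, Finset.sdiff_empty]
    · rw [pm_empty a T₁ h1, zero_mul]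
      exact pm_nonneg a h S T
  | succ k ih =>
    have hne : S₁.Nonempty := Finset.card_pos.1 (by omega)
    obtain ⟨i, hi⟩ := hne
    rw [pm_row a S₁ T₁ i hi, pm_row a S T i (hS hi), Finset.sum_mul]
    calc ∑ j ∈ T₁, a i j * pm a (S₁.erase i) (T₁.erase j) * pm a (S \ S₁) (T \ T₁)
        ≤ ∑ j ∈ T₁, a i j * pm a (S.erase i) (T.erase j) := by
          refine Finset.sum_le_sum fun j hj => ?_
          have h1 := ih (S₁.erase i) (S.erase i) (T₁.erase j) (T.erase j)
            (Finset.erase_subset_erase i hS) (Finset.erase_subset_erase j hT)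
            (by rw [Finset.card_erase_of_mem hi]; omega)
          rw [pml_sdiff S S₁ i hi, pml_sdiff T T₁ j hj] at h1
          rw [mul_assoc]
          exact mul_le_mul_of_nonneg_left h1 (h i j)
      _ ≤ ∑ j ∈ T, a i j * pm a (S.erase i) (T.erase j) := by
          refine Finset.sum_le_sum_of_subset_of_nonneg hT fun j _ _ => ?_
          exact mul_nonneg (h i j) (pm_nonneg a h _ _)

end Pool.Agent.Helper153.Ditt
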