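import Pool.Agent.Helper153.Ditt.Defs
import Pool.Agent.Helper153.Ditt.J18826

set_option autoImplicit false

open scoped BigOperators

namespace Pool.Agent.Helper153.Ditt

variable {n : ℕ}







theorem erase_sdiff_erase' {α : Type} [DecidableEq α] (S I : Finset α) (i : α) (hi : i ∈ I) :
    (S.erase i) \ (I.erase i) = S \ I := by
  ext x
  simp only [Finset.mem_sdiff, Finset.mem_erase]
  constructor
  · rintro ⟨⟨h1, h2⟩, h3⟩
    exact ⟨h2, fun h => h3 ⟨h1, h⟩⟩
  · rintro ⟨h1, h2⟩
    exact ⟨⟨fun h => h2 (h ▸ hi), h1⟩, fun h => h2 h.2⟩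

theorem pm_cross {α β : Type} [DecidableEq α] [DecidableEq β] (a : α → β → ℝ)
    (h : ∀ i j, 0 ≤ a i j) (I S : Finset α) (J T : Finset β) (hI : I ⊆ S) (hJ : J ⊆ T)
    (hc : I.card = J.card) :
    pm a S T ≤ pm a I J * pm a (S \ I) (T \ J)
      + ∑ i ∈ I, ∑ c ∈ T \ J, a i c * pm a (S.erase i) (T.erase c) := by
  obtain ⟨m, hm⟩ : ∃ m, I.card = m := ⟨_, rfl⟩
  induction m generalizing I S J T with
  | zero =>
    have hI0 : I = ∅ := Finset.card_eq_zero.1 hm
    have hJ0 : J = ∅ := Finset.card_eq_zero.1 (by rw [← hc, hm])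
    subst hI0 hJ0
    rw [pm_empty_empty, Finset.sdiff_empty, Finset.sdiff_empty, Finset.sum_empty, one_mul,
      add_zero]
  | succ m ih =>
    have hne : I.Nonempty := by
      rw [← Finset.card_pos, hm]; omega
    obtain ⟨i, hi⟩ := hne
    have e1 : pm a S T = ∑ c ∈ T \ J, a i c * pm a (S.erase i) (T.erase c) +
        ∑ j ∈ J, a i j * pm a (S.erase i) (T.erase j) := by
      rw [pm_row a S T i (hI hi), Finset.sum_sdiff hJ]
    have e2 : ∀ j ∈ J, a i j * pm a (S.erase i) (T.erase j) ≤
        a i j * (pm a (I.erase i) (J.erase j) * pm a (S \ I) (T \ J)) +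
        a i j * ∑ i' ∈ I.erase i, ∑ c ∈ T \ J,
          a i' c * pm a ((S.erase i).erase i') ((T.erase j).erase c) := by
      intro j hj
      have := ih (I.erase i) (S.erase i) (J.erase j) (T.erase j)
        (Finset.erase_subset_erase i hI) (Finset.erase_subset_erase j hJ)
        (by rw [Finset.card_erase_of_mem hi, Finset.card_erase_of_mem hj, hc])
        (by rw [Finset.card_erase_of_mem hi, hm]; rfl)
      rw [erase_sdiff_erase' S I i hi, erase_sdiff_erase' T J j hj] at this
      rw [← mul_add]
      exact mul_le_mul_of_nonneg_left this (h i j)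
    have e3 : ∑ j ∈ J, a i j * (pm a (I.erase i) (J.erase j) * pm a (S \ I) (T \ J)) =
        pm a I J * pm a (S \ I) (T \ J) := by
      rw [pm_row a I J i hi, Finset.sum_mul]
      apply Finset.sum_congr rfl
      intro j _
      ring
    have e4 : ∑ j ∈ J, a i j * ∑ i' ∈ I.erase i, ∑ c ∈ T \ J,
          a i' c * pm a ((S.erase i).erase i') ((T.erase j).erase c) ≤
        ∑ i' ∈ I.erase i, ∑ c ∈ T \ J, a i' c * pm a (S.erase i') (T.erase c) := by
      have e5 : ∑ j ∈ J, a i j * ∑ i' ∈ I.erase i, ∑ c ∈ T \ J,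
          a i' c * pm a ((S.erase i).erase i') ((T.erase j).erase c) =
          ∑ i' ∈ I.erase i, ∑ c ∈ T \ J, a i' c *
            ∑ j ∈ J, a i j * pm a ((S.erase i).erase i') ((T.erase j).erase c) := by
        simp only [Finset.mul_sum]
        rw [Finset.sum_comm]
        apply Finset.sum_congr rfl
        intro i' _
        rw [Finset.sum_comm]
        apply Finset.sum_congr rfl
        intro c _
        apply Finset.sum_congr rfl
        intro j _
        ring
      rw [e5]
      apply Finset.sum_le_sum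
      intro i' hi'
      apply Finset.sum_le_sum
      intro c hc'
      apply mul_le_mul_of_nonneg_left _ (h i' c)
      have hii : i ∈ S.erase i' := by
        rw [Finset.mem_erase]
        exact ⟨fun h => (Finset.mem_erase.1 hi').1 h.symm, hI hi⟩
      rw [pm_row a (S.erase i') (T.erase c) i hii]
      rw [Finset.erase_right_comm]
      have hsub : J ⊆ T.erase c := by
        intro j hj
        rw [Finset.mem_erase]
        refine ⟨?_, hJ hj⟩
        rintro rfl
        exact (Finset.mem_sdiff.1 hc').2 hj
      calc ∑ j ∈ J, a i j * pm a ((S.erase i').erase i) ((T.erase j).erase c)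
          = ∑ j ∈ J, a i j * pm a ((S.erase i').erase i) ((T.erase c).erase j) := by
            apply Finset.sum_congr rfl
            intro j _
            rw [Finset.erase_right_comm (a := j) (b := c)]
        _ ≤ _ := by
            apply Finset.sum_le_sum_of_subset_of_nonneg hsub
            intro j _ _
            exact mul_nonneg (h i j) (pm_nonneg a h _ _)
    have e6 : ∑ j ∈ J, a i j * pm a (S.erase i) (T.erase j) ≤ pm a I J * pm a (S \ I) (T \ J) +
        ∑ i' ∈ I.erase i, ∑ c ∈ T \ J, a i' c * pm a (S.erase i') (T.erase c) := by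
      calc ∑ j ∈ J, a i j * pm a (S.erase i) (T.erase j)
          ≤ ∑ j ∈ J, (a i j * (pm a (I.erase i) (J.erase j) * pm a (S \ I) (T \ J)) +
        a i j * ∑ i' ∈ I.erase i, ∑ c ∈ T \ J,
          a i' c * pm a ((S.erase i).erase i') ((T.erase j).erase c)) := Finset.sum_le_sum e2
        _ ≤ _ := by
          rw [Finset.sum_add_distrib, e3]
          exact add_le_add_right e4 _
    have e7 := Finset.add_sum_erase I
      (fun i' => ∑ c ∈ T \ J, a i' c * pm a (S.erase i') (T.erase c)) hi
    rw [e1, ← e7]
    linarith [e6]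

end Pool.Agent.Helper153.Ditt
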