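import Pool.Agent.Helper153.Ditt.Defs
import Pool.Agent.Helper153.Ditt.J18826

set_option autoImplicit false

open scoped BigOperators

namespace Pool.Agent.Helper153.Ditt

variable {n : ℕ}






theorem pm_switch_aux {α β : Type} [DecidableEq α] [DecidableEq β] (a : α → β → ℝ)
    (h : ∀ i j, 0 ≤ a i j) : ∀ (m : ℕ) (I S : Finset α) (J T : Finset β), I.card = m → I ⊆ S → J ⊆ T →
    ∀ j ∈ J,
    pm a I J * pm a S (T.erase j) ≤
      ∑ i ∈ I, pm a (I.erase i) (J.erase j) * ∑ c ∈ T \ J, a i c * pm a S (T.erase c) := by
  intro m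
  induction m with
  | zero =>
    intro I S J T hm hI hJ j hj
    have hI0 : I = ∅ := Finset.card_eq_zero.mp hm
    subst hI0
    rw [pm_empty a J ⟨j, hj⟩]
    simp
  | succ m ih =>
    intro I S J T hm hI hJ j hj
    have hjT : j ∈ T := hJ hj
    -- expand
    have e1 : pm a I J * pm a S (T.erase j)
        = ∑ i ∈ I, ∑ c ∈ T.erase j,
            a i j * a i c * (pm a (I.erase i) (J.erase j) * pm a (S.erase i) ((T.erase j).erase c)) := by
      rw [pm_col a I J j hj, Finset.sum_mul]
      refine Finset.sum_congr rfl fun i hi => ?_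
      rw [pm_row a S (T.erase j) i (hI hi), Finset.mul_sum]
      refine Finset.sum_congr rfl fun c hc => ?_
      ring
    have hsplit : ∀ g : β → ℝ, ∑ c ∈ T.erase j, g c = ∑ c ∈ T \ J, g c + ∑ c ∈ J.erase j, g c := by
      intro g
      rw [← Finset.sum_union]
      · congr 1
        ext c
        simp only [Finset.mem_erase, Finset.mem_union, Finset.mem_sdiff]
        constructor
        · rintro ⟨h1, h2⟩
          by_cases h3 : c ∈ J
          · exact Or.inr ⟨h1, h3⟩
          · exact Or.inl ⟨h2, h3⟩
        · rintro (⟨h1, h2⟩ | ⟨h1, h2⟩)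
          · refine ⟨?_, h1⟩
            rintro rfl; exact h2 hj
          · exact ⟨h1, hJ h2⟩
      · rw [Finset.disjoint_left]
        intro c h1 h2
        exact (Finset.mem_sdiff.mp h1).2 (Finset.mem_of_mem_erase h2)
    rw [e1]
    have hsd : T.erase j \ J.erase j = T \ J := by
      ext c
      simp only [Finset.mem_erase, Finset.mem_sdiff]
      constructor
      · rintro ⟨⟨h1, h2⟩, h3⟩
        exact ⟨h2, fun h4 => h3 ⟨h1, h4⟩⟩
      · rintro ⟨h1, h2⟩
        refine ⟨⟨?_, h1⟩, fun h4 => h2 h4.2⟩
        rintro rfl; exact h2 hj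
    -- bound for each i
    have e2 : ∀ i ∈ I, ∑ c ∈ T.erase j,
            a i j * a i c * (pm a (I.erase i) (J.erase j) * pm a (S.erase i) ((T.erase j).erase c))
        ≤ ∑ c ∈ T \ J, a i j * a i c * (pm a (I.erase i) (J.erase j) * pm a (S.erase i) ((T.erase j).erase c))
          + ∑ i' ∈ I.erase i, ∑ c' ∈ T \ J, a i j * pm a (I.erase i') (J.erase j) *
              (a i' c' * pm a (S.erase i) ((T.erase j).erase c')) := by
      intro i hi
      rw [hsplit]
      refine add_le_add le_rfl ?_
      calc ∑ c ∈ J.erase j, a i j * a i c * (pm a (I.erase i) (J.erase j) * pm a (S.erase i) ((T.erase j).erase c))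
          ≤ ∑ c ∈ J.erase j, a i j * a i c * (∑ i' ∈ I.erase i, pm a ((I.erase i).erase i') ((J.erase j).erase c) *
              ∑ c' ∈ T \ J, a i' c' * pm a (S.erase i) ((T.erase j).erase c')) := by
            refine Finset.sum_le_sum fun c hc => ?_
            refine mul_le_mul_of_nonneg_left ?_ (mul_nonneg (h _ _) (h _ _))
            have := ih (I.erase i) (S.erase i) (J.erase j) (T.erase j)
              (by rw [Finset.card_erase_of_mem hi, hm]; rfl)
              (Finset.erase_subset_erase i hI) (Finset.erase_subset_erase j hJ) c hc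
            rw [hsd] at this
            exact this
        _ = ∑ i' ∈ I.erase i, ∑ c' ∈ T \ J, a i j * pm a (I.erase i') (J.erase j) *
              (a i' c' * pm a (S.erase i) ((T.erase j).erase c')) := by
            have h1 : ∀ i' ∈ I.erase i, pm a (I.erase i') (J.erase j)
                = ∑ c ∈ J.erase j, a i c * pm a ((I.erase i).erase i') ((J.erase j).erase c) := by
              intro i' hi'
              have hii : i ∈ I.erase i' := by
                rw [Finset.mem_erase] at hi' ⊢
                exact ⟨fun h => hi'.1 h.symm, hi⟩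
              rw [pm_row a (I.erase i') (J.erase j) i hii]
              refine Finset.sum_congr rfl fun c hc => ?_
              rw [Finset.erase_right_comm]
            calc _ = ∑ c ∈ J.erase j, ∑ i' ∈ I.erase i, a i j * a i c * (pm a ((I.erase i).erase i') ((J.erase j).erase c) *
              ∑ c' ∈ T \ J, a i' c' * pm a (S.erase i) ((T.erase j).erase c')) := by
                  refine Finset.sum_congr rfl fun c hc => ?_
                  rw [Finset.mul_sum]
              _ = ∑ i' ∈ I.erase i, ∑ c ∈ J.erase j, a i j * a i c * (pm a ((I.erase i).erase i') ((J.erase j).erase c) *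
              ∑ c' ∈ T \ J, a i' c' * pm a (S.erase i) ((T.erase j).erase c')) := Finset.sum_comm
              _ = _ := by
                  refine Finset.sum_congr rfl fun i' hi' => ?_
                  rw [h1 i' hi', ← Finset.mul_sum, Finset.mul_sum (J.erase j), Finset.sum_mul]
                  refine Finset.sum_congr rfl fun c hc => ?_
                  ring
    refine (Finset.sum_le_sum e2).trans ?_
    rw [Finset.sum_add_distrib]
    -- swap
    have e3 : ∑ i ∈ I, ∑ i' ∈ I.erase i, ∑ c' ∈ T \ J, a i j * pm a (I.erase i') (J.erase j) *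
              (a i' c' * pm a (S.erase i) ((T.erase j).erase c'))
        = ∑ i' ∈ I, ∑ i ∈ I.erase i', ∑ c' ∈ T \ J, a i j * pm a (I.erase i') (J.erase j) *
              (a i' c' * pm a (S.erase i) ((T.erase j).erase c')) := by
      apply Finset.sum_comm'
      intro x y
      simp only [Finset.mem_erase]
      constructor
      · rintro ⟨h1, h2, h3⟩; exact ⟨⟨fun h => h2 h.symm, h1⟩, h3⟩
      · rintro ⟨⟨h1, h2⟩, h3⟩; exact ⟨h2, fun h => h1 h.symm, h3⟩
    rw [e3, ← Finset.sum_add_distrib]
    refine Finset.sum_le_sum fun i' hi' => ?_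
    have e4 : ∀ c' ∈ T \ J, ∑ i ∈ I, a i j * pm a (S.erase i) ((T.erase j).erase c') ≤ pm a S (T.erase c') := by
      intro c' hc'
      rw [Finset.mem_sdiff] at hc'
      have hjc : j ∈ T.erase c' := by
        rw [Finset.mem_erase]; refine ⟨?_, hjT⟩
        rintro rfl; exact hc'.2 hj
      rw [pm_col a S (T.erase c') j hjc]
      calc ∑ i ∈ I, a i j * pm a (S.erase i) ((T.erase j).erase c')
          ≤ ∑ i ∈ S, a i j * pm a (S.erase i) ((T.erase j).erase c') := by
            apply Finset.sum_le_sum_of_subset_of_nonneg hI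
            intro i _ _
            exact mul_nonneg (h _ _) (pm_nonneg a h _ _)
        _ = _ := by
            refine Finset.sum_congr rfl fun c hc => ?_
            rw [Finset.erase_right_comm]
    calc _ = ∑ c' ∈ T \ J, pm a (I.erase i') (J.erase j) * (a i' c' *
            ∑ i ∈ I, a i j * pm a (S.erase i) ((T.erase j).erase c')) := by
          rw [Finset.sum_comm, ← Finset.sum_add_distrib]
          refine Finset.sum_congr rfl fun c' hc' => ?_
          rw [← Finset.add_sum_erase I _ hi', mul_add, mul_add, Finset.mul_sum, Finset.mul_sum]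
          congr 1
          · ring
          · refine Finset.sum_congr rfl fun i hi => ?_
            ring
      _ ≤ _ := by
          rw [Finset.mul_sum]
          refine Finset.sum_le_sum fun c' hc' => ?_
          refine mul_le_mul_of_nonneg_left ?_ (pm_nonneg a h _ _)
          exact mul_le_mul_of_nonneg_left (e4 c' hc') (h _ _)

theorem pm_switch {α β : Type} [DecidableEq α] [DecidableEq β] (a : α → β → ℝ)
    (h : ∀ i j, 0 ≤ a i j) (I S : Finset α) (J T : Finset β) (hI : I ⊆ S) (hJ : J ⊆ T)
    (j : β) (hj : j ∈ J) :
    pm a I J * pm a S (T.erase j) ≤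
      ∑ i ∈ I, pm a (I.erase i) (J.erase j) * ∑ c ∈ T \ J, a i c * pm a S (T.erase c) :=
  pm_switch_aux a h I.card I S J T rfl hI hJ j hj

end Pool.Agent.Helper153.Ditt
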