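import Pool.Agent.Helper153.Ditt.Defs

set_option autoImplicit false

open scoped BigOperators

namespace Pool.Agent.Helper153.Ditt


open Polynomial in
lemma norm_multiset_prod (s : Multiset ℂ) : ‖s.prod‖ = (s.map fun z => ‖z‖).prod := by
  induction s using Multiset.induction with
  | empty => simp
  | cons a s ih => simp [ih]

/-- real-rooted polynomials: `‖h 0‖ ≤ ‖h I‖` -/
lemma lemB (h : Polynomial ℂ) (hroot : ∀ u, h.eval u = 0 → u.im = 0) :
    ‖h.eval 0‖ ≤ ‖h.eval Complex.I‖ := by
  by_cases h0 : h = 0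
  · simp [h0]
  have hs := IsAlgClosed.splits h
  rw [hs.eval_eq_prod_roots, hs.eval_eq_prod_roots, norm_mul, norm_mul]
  apply mul_le_mul_of_nonneg_left _ (norm_nonneg _)
  rw [norm_multiset_prod, norm_multiset_prod, Multiset.map_map, Multiset.map_map]
  apply Multiset.prod_map_le_prod_map₀
  · intro z _; exact norm_nonneg _
  · intro z hz
    have hz' : h.eval z = 0 := (Polynomial.mem_roots h0).mp hz
    have him := hroot z hz'
    simp only [Function.comp_apply, zero_sub, norm_neg]
    have h1 : ‖z‖ = |(Complex.I - z).re| := by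
      have : z = (z.re : ℂ) := by apply Complex.ext <;> simp [him]
      rw [this, Complex.norm_real]; simp
    rw [h1]
    exact Complex.abs_re_le_norm _

/-- growth lemma -/
lemma lemC (h : Polynomial ℂ) (hroot : ∀ u, h.eval u = 0 → ‖u‖ + u.re ≤ 0) (c : ℝ) (hc : 0 < c)
    (hg : ∀ t : ℝ, 0 < t → c * t ≤ ‖h.eval (t : ℂ)‖) : c * Real.exp (-1) ≤ ‖h.coeff 1‖ := by
  have hh0 : h ≠ 0 := by
    rintro rfl
    have := hg 1 one_pos
    simp at this
    linarith
  by_cases h0 : h.eval 0 = 0
  · -- h = X * g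
    have hco : h.coeff 0 = 0 := by rw [← Polynomial.coeff_zero_eq_eval_zero] at h0; exact h0
    have hX : h = Polynomial.X * h.divX := by
      have := Polynomial.divX_mul_X_add h
      rw [hco, map_zero, add_zero, mul_comm] at this
      exact this.symm
    have h1 : h.coeff 1 = h.divX.eval 0 := by
      rw [← Polynomial.coeff_zero_eq_eval_zero, Polynomial.coeff_divX]
    have h2 : ∀ t : ℝ, 0 < t → c ≤ ‖h.divX.eval (t : ℂ)‖ := by
      intro t ht
      have h3 := hg t ht
      rw [hX, Polynomial.eval_mul, Polynomial.eval_X, norm_mul, Complex.norm_real,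
        Real.norm_of_nonneg ht.le] at h3
      have h4 : t * c ≤ t * ‖h.divX.eval (t : ℂ)‖ := by linarith
      exact le_of_mul_le_mul_left h4 ht
    have h3 : c ≤ ‖h.divX.eval ((0 : ℝ) : ℂ)‖ := by
      have hcont : Continuous (fun t : ℝ => ‖h.divX.eval (t : ℂ)‖) := by
        exact (h.divX.continuous.comp Complex.continuous_ofReal).norm
      have ht : Filter.Tendsto (fun t : ℝ => ‖h.divX.eval (t : ℂ)‖) (nhdsWithin 0 (Set.Ioi 0))
          (nhds ‖h.divX.eval ((0 : ℝ) : ℂ)‖) := (hcont.tendsto 0).mono_left nhdsWithin_le_nhds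
      refine ge_of_tendsto ht ?_
      filter_upwards [self_mem_nhdsWithin] with t ht
      exact h2 t ht
    rw [h1]
    have h4 : Real.exp (-1) ≤ 1 := Real.exp_le_one_iff.mpr (by norm_num)
    calc c * Real.exp (-1) ≤ c * 1 := mul_le_mul_of_nonneg_left h4 hc.le
      _ = c := mul_one c
      _ ≤ _ := by simpa using h3
  · have hs := IsAlgClosed.splits h
    have hneg : ∀ z ∈ h.roots, z = -((‖z‖ : ℝ) : ℂ) ∧ 0 < ‖z‖ := by
      intro z hz
      have hz' : h.eval z = 0 := (Polynomial.mem_roots hh0).mp hz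
      have h1 := hroot z hz'
      have h2 : z ≠ 0 := by rintro rfl; exact h0 hz'
      have h3 : 0 < ‖z‖ := norm_pos_iff.mpr h2
      refine ⟨?_, h3⟩
      have h4 : z.re = -‖z‖ := by
        have := Complex.abs_re_le_norm z
        have := neg_abs_le z.re
        linarith
      have h5 : z.im = 0 := by
        have h6 : ‖z‖ ^ 2 = z.re ^ 2 + z.im ^ 2 := by
          rw [← Complex.normSq_eq_norm_sq, Complex.normSq_apply]; ring
        rw [h4] at h6
        have : z.im ^ 2 = 0 := by linarith [h6]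
        exact pow_eq_zero_iff (two_ne_zero) |>.mp this
      apply Complex.ext
      · rw [h4]; simp
      · rw [h5]; simp
    set S : ℝ := (h.roots.map fun z => 1 / ‖z‖).sum with hS
    have hd : h.coeff 1 = h.eval 0 * (S : ℂ) := by
      have h1 : h.coeff 1 = h.derivative.eval 0 := by
        rw [← Polynomial.coeff_zero_eq_eval_zero, Polynomial.coeff_derivative]; simp
      rw [h1, hs.eval_derivative_eq_eval_mul_sum h0, hS]
      congr 1
      rw [← Complex.ofRealHom_eq_coe, map_multiset_sum, Multiset.map_map]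
      congr 1
      apply Multiset.map_congr rfl
      intro z hz
      simp only [Function.comp_apply, Complex.ofRealHom_eq_coe]
      push_cast
      congr 1
      rw [zero_sub]
      have := (hneg z hz).1
      nth_rewrite 1 [this]
      simp
    have hS0 : 0 ≤ S := by
      apply Multiset.sum_nonneg
      intro x hx
      obtain ⟨z, _, rfl⟩ := Multiset.mem_map.mp hx
      positivity
    have hup : ∀ t : ℝ, 0 ≤ t → ‖h.eval (t : ℂ)‖ ≤ ‖h.eval 0‖ * Real.exp (t * S) := by
      intro t ht
      rw [hs.eval_eq_prod_roots, hs.eval_eq_prod_roots, norm_mul, norm_mul, mul_assoc]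
      apply mul_le_mul_of_nonneg_left _ (norm_nonneg _)
      rw [norm_multiset_prod, norm_multiset_prod, Multiset.map_map, Multiset.map_map]
      have hexp : Real.exp (t * S) = (h.roots.map fun z => Real.exp (t * (1 / ‖z‖))).prod := by
        rw [hS, ← Multiset.sum_map_mul_left, Real.exp_multiset_sum, Multiset.map_map]
        rfl
      rw [hexp, ← Multiset.prod_map_mul]
      apply Multiset.prod_map_le_prod_map₀
      · intro z _; exact norm_nonneg _
      · intro z hz
        simp only [Function.comp_apply, zero_sub, norm_neg]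
        obtain ⟨h1, h2⟩ := hneg z hz
        have h3 : ‖(t : ℂ) - z‖ = t + ‖z‖ := by
          nth_rewrite 1 [h1]
          rw [sub_neg_eq_add, ← Complex.ofReal_add, Complex.norm_real]
          exact Real.norm_of_nonneg (by linarith)
        rw [h3]
        have h4 := Real.add_one_le_exp (t * (1 / ‖z‖))
        calc t + ‖z‖ = ‖z‖ * (t * (1 / ‖z‖) + 1) := by field_simp
          _ ≤ ‖z‖ * Real.exp (t * (1 / ‖z‖)) := mul_le_mul_of_nonneg_left h4 h2.le
    have hSpos : 0 < S := by
      rcases hS0.lt_or_eq with h1 | h1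
      · exact h1
      · exfalso
        rw [← h1] at hup
        have hN : 0 < ‖h.eval 0‖ := norm_pos_iff.mpr h0
        have h2 := hup (2 * ‖h.eval 0‖ / c) (by positivity)
        have h3 := hg (2 * ‖h.eval 0‖ / c) (by positivity)
        rw [mul_zero, Real.exp_zero, mul_one] at h2
        have h4 : c * (2 * ‖h.eval 0‖ / c) = 2 * ‖h.eval 0‖ := by field_simp
        rw [h4] at h3
        linarith
    have h1 := hup (1 / S) (by positivity)
    have h2 := hg (1 / S) (by positivity)
    have h3 : 1 / S * S = 1 := by field_simp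
    rw [h3] at h1
    have h4 : c * (1 / S) ≤ ‖h.eval 0‖ * Real.exp 1 := h2.trans h1
    rw [hd, norm_mul, Complex.norm_real, Real.norm_of_nonneg hS0]
    have h5 : c ≤ ‖h.eval 0‖ * S * Real.exp 1 := by
      have := mul_le_mul_of_nonneg_right h4 hS0
      calc c = c * (1 / S) * S := by field_simp
        _ ≤ _ := this
        _ = _ := by ring
    calc c * Real.exp (-1) ≤ (‖h.eval 0‖ * S * Real.exp 1) * Real.exp (-1) :=
          mul_le_mul_of_nonneg_right h5 (Real.exp_pos _).le
      _ = ‖h.eval 0‖ * S * (Real.exp 1 * Real.exp (-1)) := by ring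
      _ = _ := by rw [← Real.exp_add]; simp

/-- half plane Gauss-Lucas -/
lemma lemD (h : Polynomial ℂ) (hh : ∀ u : ℂ, 0 < u.re → h.eval u ≠ 0) (hr : h.roots ≠ 0) (u : ℂ)
    (hu : 0 < u.re) : h.derivative.eval u ≠ 0 := by
  have hh0 : h ≠ 0 := by rintro rfl; simp at hr
  have hs := IsAlgClosed.splits h
  rw [hs.eval_derivative_eq_eval_mul_sum (hh u hu)]
  apply mul_ne_zero (hh u hu)
  intro hsum
  have hre : 0 < ((h.roots.map fun z ↦ 1 / (u - z)).sum).re := by
    have h1 : ((h.roots.map fun z ↦ 1 / (u - z)).sum).re =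
        (h.roots.map fun z ↦ (1 / (u - z)).re).sum := by
      have h2 := map_multiset_sum Complex.reAddGroupHom (h.roots.map fun z ↦ 1 / (u - z))
      rw [Multiset.map_map] at h2
      exact h2
    rw [h1]
    have hpos : ∀ z ∈ h.roots, 0 < (1 / (u - z)).re := by
      intro z hz
      have hz' : h.eval z = 0 := (Polynomial.mem_roots hh0).mp hz
      have hz2 : z.re ≤ 0 := by
        by_contra hc
        push Not at hc
        exact hh z hc hz'
      rw [one_div, Complex.inv_re]
      apply div_pos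
      · simp; linarith
      · rw [Complex.normSq_pos]
        intro e
        rw [sub_eq_zero] at e
        rw [e] at hu
        linarith
    obtain ⟨z, hz⟩ := Multiset.exists_mem_of_ne_zero hr
    obtain ⟨t, ht⟩ := Multiset.exists_cons_of_mem hz
    rw [ht, Multiset.map_cons, Multiset.sum_cons]
    have h2 : 0 < (1 / (u - z)).re := hpos z hz
    have h3 : 0 ≤ (t.map fun z ↦ (1 / (u - z)).re).sum := by
      apply Multiset.sum_nonneg
      intro x hx
      obtain ⟨w, hw, rfl⟩ := Multiset.mem_map.mp hx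
      exact (hpos w (by rw [ht]; exact Multiset.mem_cons_of_mem hw)).le
    linarith
  rw [hsum] at hre
  simp at hre

open MvPolynomial

lemma hom_eval {σ : Type} [Fintype σ] {f : MvPolynomial σ ℂ} {n : ℕ} (hf : f.IsHomogeneous n)
    (c : ℂ) (z : σ → ℂ) : eval (fun i => c * z i) f = c ^ n * eval z f := by
  rw [eval_eq', eval_eq', Finset.mul_sum]
  apply Finset.sum_congr rfl
  intro d hd
  have h1 : ∑ i, d i = n := by
    have := hf (mem_support_iff.mp hd)
    rw [Finsupp.weight_apply] at this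
    simp only [Pi.one_apply, smul_eq_mul, mul_one] at this
    rw [← this, Finsupp.sum_fintype]
    intro i; rfl
  simp only [mul_pow, Finset.prod_mul_distrib, Finset.prod_pow_eq_pow_sum, h1]
  ring

def Stab {σ : Type} (f : MvPolynomial σ ℂ) : Prop := ∀ z : σ → ℂ, (∀ i, 0 < (z i).re) → eval z f ≠ 0

/-- Lemma A -/
lemma lemA {σ : Type} [Fintype σ] {f : MvPolynomial σ ℂ} {n : ℕ} (hf : f.IsHomogeneous n)
    (hs : Stab f) (z : σ → ℂ) (hz : ∀ i, 0 < (z i).re) :
    ‖eval (fun i => ((z i).re : ℂ)) f‖ ≤ ‖eval z f‖ := by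
  set h : Polynomial ℂ := MvPolynomial.aeval
    (fun i => Polynomial.C ((z i).re : ℂ) + Polynomial.C ((z i).im : ℂ) * Polynomial.X) f with hh
  have hev : ∀ u : ℂ, h.eval u = eval (fun i => ((z i).re : ℂ) + ((z i).im : ℂ) * u) f := by
    intro u
    rw [hh, MvPolynomial.aeval_def, ← Polynomial.coe_evalRingHom, MvPolynomial.hom_eval₂]
    rw [MvPolynomial.eval, MvPolynomial.coe_eval₂Hom]
    congr 1
    · ext x; simp
    · funext i; simp
  have h0 : h.eval 0 = eval (fun i => ((z i).re : ℂ)) f := by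
    rw [hev]; simp
  have hI : h.eval Complex.I = eval z f := by
    rw [hev]
    congr 1
    congr 1
    funext i
    exact Complex.re_add_im (z i)
  rw [← h0, ← hI]
  apply lemB
  intro u hu
  by_contra him
  have hu0 : u ≠ 0 := by rintro rfl; simp at him
  rw [hev] at hu
  have key : ∀ c : ℂ, (∀ i, 0 < (c * (((z i).re : ℂ) + ((z i).im : ℂ) * u)).re) → False := by
    intro c hc
    have h1 := hom_eval hf c (fun i => ((z i).re : ℂ) + ((z i).im : ℂ) * u)
    rw [hu, mul_zero] at h1
    exact hs _ hc h1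
  have hn : 0 < Complex.normSq u := Complex.normSq_pos.mpr hu0
  rcases lt_or_gt_of_ne him with hlt | hgt
  · apply key (-Complex.I / u)
    intro i
    have h1 : -Complex.I / u * (((z i).re : ℂ) + ((z i).im : ℂ) * u) =
        ((z i).re : ℂ) * (-Complex.I / u) + -Complex.I * ((z i).im : ℂ) := by
      field_simp
      ring
    rw [h1, Complex.add_re, Complex.re_ofReal_mul]
    have h2 : (-Complex.I / u).re = -u.im / Complex.normSq u := by
      rw [Complex.div_re]; simp
    rw [h2]
    have h3 : (-Complex.I * ((z i).im : ℂ)).re = 0 := by simp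
    rw [h3, add_zero]
    apply mul_pos (hz i)
    apply div_pos (by linarith) hn
  · apply key (Complex.I / u)
    intro i
    have h1 : Complex.I / u * (((z i).re : ℂ) + ((z i).im : ℂ) * u) =
        ((z i).re : ℂ) * (Complex.I / u) + Complex.I * ((z i).im : ℂ) := by
      field_simp
    rw [h1, Complex.add_re, Complex.re_ofReal_mul]
    have h2 : (Complex.I / u).re = u.im / Complex.normSq u := by
      rw [Complex.div_re]; simp
    rw [h2]
    have h3 : (Complex.I * ((z i).im : ℂ)).re = 0 := by simp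
    rw [h3, add_zero]
    apply mul_pos (hz i)
    apply div_pos (by linarith) hn


/-- the univariate polynomial in the first variable -/
noncomputable def up {k : ℕ} (f : MvPolynomial (Fin (k + 1)) ℂ) (y : Fin k → ℂ) : Polynomial ℂ :=
  Polynomial.map (eval y) (finSuccEquiv ℂ k f)

lemma up_eval {k : ℕ} (f : MvPolynomial (Fin (k + 1)) ℂ) (y : Fin k → ℂ) (t : ℂ) :
    (up f y).eval t = eval (Fin.cons t y : Fin (k + 1) → ℂ) f := (eval_eq_eval_mv_eval' y t f).symm

/-- polynomial of the derivative in the first variable -/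
noncomputable def dd {k : ℕ} (f : MvPolynomial (Fin (k + 1)) ℂ) : MvPolynomial (Fin (k + 1)) ℂ :=
  (finSuccEquiv ℂ k).symm (Polynomial.derivative (finSuccEquiv ℂ k f))

lemma up_dd {k : ℕ} (f : MvPolynomial (Fin (k + 1)) ℂ) (y : Fin k → ℂ) :
    up (dd f) y = Polynomial.derivative (up f y) := by
  unfold up dd
  rw [AlgEquiv.apply_symm_apply, Polynomial.derivative_map]

lemma dd_hom {k n : ℕ} {f : MvPolynomial (Fin (k + 1)) ℂ} (hf : f.IsHomogeneous (n + 1)) :
    (dd f).IsHomogeneous n := by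
  intro d hd
  have hd' : d = (Finsupp.cons (d 0) d.tail) := (Finsupp.cons_tail d).symm
  have h1 : coeff d (dd f) = coeff d.tail
      ((Polynomial.derivative (finSuccEquiv ℂ k f)).coeff (d 0)) := by
    nth_rewrite 1 [hd']
    rw [← finSuccEquiv_coeff_coeff, dd, AlgEquiv.apply_symm_apply]
  rw [h1, Polynomial.coeff_derivative] at hd
  have h2 : coeff (Finsupp.cons (d 0 + 1) d.tail) f ≠ 0 := by
    rw [← finSuccEquiv_coeff_coeff]
    intro h
    apply hd
    have h3 : ((d 0 : MvPolynomial (Fin k) ℂ) + 1) = C ((d 0 : ℂ) + 1) := by simp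
    rw [h3, mul_comm, coeff_C_mul, h, mul_zero]
  have h4 := hf h2
  rw [Finsupp.weight_apply] at h4 ⊢
  simp only [Pi.one_apply, smul_eq_mul, mul_one] at h4 ⊢
  rw [Finsupp.sum_cons] at h4
  have h5 : (Finsupp.cons (d 0) d.tail).sum (fun _ x => x) = d 0 + d.tail.sum (fun _ x => x) :=
    Finsupp.sum_cons _ _ _
  rw [← hd'] at h5
  omega

/-- the main induction -/
theorem main (k : ℕ) : ∀ (f : MvPolynomial (Fin k) ℂ), f.IsHomogeneous k → Stab f →
    ∀ c : ℝ, 0 < c → (∀ x : Fin k → ℝ, (∀ i, 0 < x i) →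
      c * ∏ i, x i ≤ ‖eval (fun i => (x i : ℂ)) f‖) →
    c * Real.exp (-(k : ℝ)) ≤ ‖coeff (Finsupp.equivFunOnFinite.symm (fun _ => 1)) f‖ := by
  induction k with
  | zero =>
    intro f hf hs c hc hcap
    have h1 := hcap (fun i => i.elim0) (fun i => i.elim0)
    simp only [Finset.univ_eq_empty, Finset.prod_empty, mul_one] at h1
    have h2 : f = C (coeff 0 f) := MvPolynomial.eq_C_of_isEmpty f
    have h3 : (Finsupp.equivFunOnFinite.symm (fun _ => 1) : Fin 0 →₀ ℕ) = 0 := by
      ext i; exact i.elim0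
    rw [h3]
    rw [h2, eval_C] at h1
    simpa using h1
  | succ k ih =>
    intro f hf hs c hc hcap
    set q : MvPolynomial (Fin k) ℂ := (finSuccEquiv ℂ k f).coeff 1 with hq
    have hqhom : q.IsHomogeneous k := hf.finSuccEquiv_coeff_isHomogeneous 1 k (by omega)
    have hqev : ∀ y : Fin k → ℂ, eval y q = (up f y).coeff 1 := by
      intro y
      rw [up, Polynomial.coeff_map]
    have hqev2 : ∀ y : Fin k → ℂ, eval y q = eval (Fin.cons 0 y : Fin (k + 1) → ℂ) (dd f) := by
      intro y
      rw [hqev, ← up_eval, up_dd, ← Polynomial.coeff_zero_eq_eval_zero,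
        Polynomial.coeff_derivative]
      simp
    -- positivity growth in the first variable
    have hgrow : ∀ x : Fin k → ℝ, (∀ i, 0 < x i) → ∀ t : ℝ, 0 < t →
        (c * ∏ i, x i) * t ≤ ‖(up f (fun i => (x i : ℂ))).eval (t : ℂ)‖ := by
      intro x hx t ht
      rw [up_eval]
      have h1 := hcap (Fin.cons t x : Fin (k + 1) → ℝ) (by
        intro i
        refine Fin.cases ?_ (fun j => ?_) i
        · exact ht
        · exact hx j)
      rw [Fin.prod_univ_succ] at h1
      simp only [Fin.cons_zero, Fin.cons_succ] at h1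
      have h2 : (fun i => (((Fin.cons t x : Fin (k + 1) → ℝ) i : ℝ) : ℂ)) =
          (Fin.cons (t : ℂ) (fun i => (x i : ℂ)) : Fin (k + 1) → ℂ) := by
        funext i
        refine Fin.cases ?_ (fun j => ?_) i <;> simp
      rw [h2] at h1
      calc (c * ∏ i, x i) * t = c * (t * ∏ i, x i) := by ring
        _ ≤ _ := h1
    -- cap bound
    have hcapq : ∀ x : Fin k → ℝ, (∀ i, 0 < x i) →
        c * Real.exp (-1) * ∏ i, x i ≤ ‖eval (fun i => (x i : ℂ)) q‖ := by
      intro x hx
      rw [hqev]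
      have hP : 0 < ∏ i, x i := Finset.prod_pos fun i _ => hx i
      have h1 := lemC (up f (fun i => (x i : ℂ))) (by
        intro u hu
        by_contra hcon
        push Not at hcon
        rw [up_eval] at hu
        have h2 := hom_eval hf (((‖u‖ : ℝ) : ℂ) + (starRingEnd ℂ) u)
          (Fin.cons u (fun i => (x i : ℂ)) : Fin (k + 1) → ℂ)
        rw [hu, mul_zero] at h2
        refine hs _ ?_ h2
        intro i
        refine Fin.cases ?_ (fun j => ?_) i
        · simp only [Fin.cons_zero]
          have h3 : ((((‖u‖ : ℝ) : ℂ) + (starRingEnd ℂ) u) * u).re = ‖u‖ * (‖u‖ + u.re) := by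
            rw [add_mul, Complex.add_re, Complex.re_ofReal_mul, mul_comm ((starRingEnd ℂ) u),
              Complex.mul_conj, Complex.ofReal_re, Complex.normSq_eq_norm_sq]
            ring
          rw [h3]
          have h4 : u ≠ 0 := by
            rintro rfl
            simp at hcon
          exact mul_pos (norm_pos_iff.mpr h4) hcon
        · simp only [Fin.cons_succ]
          rw [mul_comm, Complex.re_ofReal_mul]
          apply mul_pos (hx j)
          simp
          exact hcon) (c * ∏ i, x i) (by positivity) (hgrow x hx)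
      calc c * Real.exp (-1) * ∏ i, x i = (c * ∏ i, x i) * Real.exp (-1) := by ring
        _ ≤ _ := h1
    -- stability of dd f
    have hdstab : Stab (dd f) := by
      intro z hz
      have hz' : z = (Fin.cons (z 0) (Fin.tail z) : Fin (k + 1) → ℂ) := (Fin.cons_self_tail z).symm
      rw [hz', ← up_eval, up_dd]
      have hst : ∀ u : ℂ, 0 < u.re → (up f (Fin.tail z)).eval u ≠ 0 := by
        intro u hu
        rw [up_eval]
        apply hs
        intro i
        refine Fin.cases ?_ (fun j => ?_) i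
        · exact hu
        · exact hz _
      apply lemD _ hst _ _ (hz 0)
      -- non constant
      intro hroots
      have hsp := IsAlgClosed.splits (up f (Fin.tail z))
      have hconst : ∀ u, (up f (Fin.tail z)).eval u = (up f (Fin.tail z)).leadingCoeff := by
        intro u
        rw [hsp.eval_eq_prod_roots, hroots]; simp
      set L := ‖(up f (Fin.tail z)).leadingCoeff‖ with hL
      set P := c * ∏ i, (Fin.tail z i).re with hP
      have hPpos : 0 < P := by
        apply mul_pos hc
        exact Finset.prod_pos fun i _ => hz _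
      have hb : ∀ t : ℝ, 0 < t → P * t ≤ L := by
        intro t ht
        have h1 := hgrow (fun i => (Fin.tail z i).re) (fun i => hz _) t ht
        have h2 := lemA hf hs (Fin.cons (t : ℂ) (Fin.tail z) : Fin (k + 1) → ℂ) (by
          intro i
          refine Fin.cases ?_ (fun j => ?_) i
          · simpa using ht
          · exact hz _)
        have h3 : (fun i => ((((Fin.cons (t : ℂ) (Fin.tail z) : Fin (k + 1) → ℂ) i).re : ℝ) : ℂ)) =
            (Fin.cons (t : ℂ) (fun i => (((Fin.tail z i).re : ℝ) : ℂ)) : Fin (k + 1) → ℂ) := by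
          funext i
          refine Fin.cases ?_ (fun j => ?_) i <;> simp
        rw [h3, ← up_eval, ← up_eval, hconst] at h2
        exact h1.trans h2
      have h4 := hb ((L + 1) / P) (by
        have : 0 ≤ L := norm_nonneg _
        positivity)
      rw [mul_div_cancel₀ _ hPpos.ne'] at h4
      linarith
    -- stability of q
    have hqstab : Stab q := by
      intro y hy
      have hhom := dd_hom hf
      have h1 : ∀ t : ℝ, 0 < t →
          ‖eval (Fin.cons (t : ℂ) (fun i => ((y i).re : ℂ)) : Fin (k + 1) → ℂ) (dd f)‖ ≤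
          ‖eval (Fin.cons (t : ℂ) y : Fin (k + 1) → ℂ) (dd f)‖ := by
        intro t ht
        have h2 := lemA hhom hdstab (Fin.cons (t : ℂ) y : Fin (k + 1) → ℂ) (by
          intro i
          refine Fin.cases ?_ (fun j => ?_) i
          · simpa using ht
          · exact hy _)
        have h3 : (fun i => ((((Fin.cons (t : ℂ) y : Fin (k + 1) → ℂ) i).re : ℝ) : ℂ)) =
            (Fin.cons (t : ℂ) (fun i => (((y i).re : ℝ) : ℂ)) : Fin (k + 1) → ℂ) := by
          funext i
          refine Fin.cases ?_ (fun j => ?_) i <;> simp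
        rw [h3] at h2
        exact h2
      have hcont : ∀ w : Fin k → ℂ, Continuous
          (fun t : ℝ => ‖eval (Fin.cons (t : ℂ) w : Fin (k + 1) → ℂ) (dd f)‖) := by
        intro w
        simp only [← up_eval]
        exact ((up (dd f) w).continuous.comp Complex.continuous_ofReal).norm
      have h2 : ‖eval (Fin.cons ((0 : ℝ) : ℂ) (fun i => ((y i).re : ℂ)) : Fin (k + 1) → ℂ) (dd f)‖ ≤
          ‖eval (Fin.cons ((0 : ℝ) : ℂ) y : Fin (k + 1) → ℂ) (dd f)‖ := by
        have ht1 := ((hcont (fun i => ((y i).re : ℂ))).tendsto 0).mono_left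
          (nhdsWithin_le_nhds (s := Set.Ioi 0))
        have ht2 := ((hcont y).tendsto 0).mono_left (nhdsWithin_le_nhds (s := Set.Ioi 0))
        refine le_of_tendsto_of_tendsto ht1 ht2 ?_
        filter_upwards [self_mem_nhdsWithin] with t ht
        exact h1 t ht
      rw [Complex.ofReal_zero, ← hqev2, ← hqev2] at h2
      have h3 := hcapq (fun i => (y i).re) hy
      have h4 : 0 < c * Real.exp (-1) * ∏ i, (y i).re := by
        have : 0 < ∏ i, (y i).re := Finset.prod_pos fun i _ => hy i
        positivity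
      intro h0
      rw [h0, norm_zero] at h2
      linarith
    have hfin := ih q hqhom hqstab (c * Real.exp (-1)) (by positivity) hcapq
    have hco : coeff (Finsupp.equivFunOnFinite.symm (fun _ => 1) : Fin k →₀ ℕ) q =
        coeff (Finsupp.equivFunOnFinite.symm (fun _ => 1) : Fin (k + 1) →₀ ℕ) f := by
      rw [hq, finSuccEquiv_coeff_coeff]
      congr 1
      ext i
      refine Fin.cases ?_ (fun j => ?_) i <;> simp
    rw [hco] at hfin
    calc c * Real.exp (-((k + 1 : ℕ) : ℝ)) = c * Real.exp (-1) * Real.exp (-(k : ℝ)) := by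
          rw [mul_assoc, ← Real.exp_add]
          congr 2
          push_cast; ring
      _ ≤ _ := hfin


/-- exponent: 1 on the first m variables, u on variable m, v on variable m+1 -/
noncomputable def ex (m u v : ℕ) : Fin (m + 2) →₀ ℕ :=
  Finsupp.equivFunOnFinite.symm (fun i => if (i : ℕ) < m then 1 else if (i : ℕ) = m then u else v)

theorem AFpoly_step (k : ℕ) (f : MvPolynomial (Fin (k + 1)) ℂ) (hf : f.IsHomogeneous (k + 1)) (hs : Stab f)
    (c : ℝ) (hc : 0 < c) (hcap : ∀ x : Fin (k + 1) → ℝ, (∀ i, 0 < x i) →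
      c * ∏ i, x i ≤ ‖eval (fun i => (x i : ℂ)) f‖) :
    ((finSuccEquiv ℂ k f).coeff 1).IsHomogeneous k ∧ Stab ((finSuccEquiv ℂ k f).coeff 1) ∧
      ∀ x : Fin k → ℝ, (∀ i, 0 < x i) →
        c * Real.exp (-1) * ∏ i, x i ≤ ‖eval (fun i => (x i : ℂ)) ((finSuccEquiv ℂ k f).coeff 1)‖ := by
  set q : MvPolynomial (Fin k) ℂ := (finSuccEquiv ℂ k f).coeff 1 with hq
  have hqhom : q.IsHomogeneous k := hf.finSuccEquiv_coeff_isHomogeneous 1 k (by omega)
  have hqev : ∀ y : Fin k → ℂ, eval y q = (up f y).coeff 1 := by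
    intro y
    rw [up, Polynomial.coeff_map]
  have hqev2 : ∀ y : Fin k → ℂ, eval y q = eval (Fin.cons 0 y : Fin (k + 1) → ℂ) (dd f) := by
    intro y
    rw [hqev, ← up_eval, up_dd, ← Polynomial.coeff_zero_eq_eval_zero,
      Polynomial.coeff_derivative]
    simp
  -- positivity growth in the first variable
  have hgrow : ∀ x : Fin k → ℝ, (∀ i, 0 < x i) → ∀ t : ℝ, 0 < t →
      (c * ∏ i, x i) * t ≤ ‖(up f (fun i => (x i : ℂ))).eval (t : ℂ)‖ := by
    intro x hx t ht
    rw [up_eval]
    have h1 := hcap (Fin.cons t x : Fin (k + 1) → ℝ) (by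
      intro i
      refine Fin.cases ?_ (fun j => ?_) i
      · exact ht
      · exact hx j)
    rw [Fin.prod_univ_succ] at h1
    simp only [Fin.cons_zero, Fin.cons_succ] at h1
    have h2 : (fun i => (((Fin.cons t x : Fin (k + 1) → ℝ) i : ℝ) : ℂ)) =
        (Fin.cons (t : ℂ) (fun i => (x i : ℂ)) : Fin (k + 1) → ℂ) := by
      funext i
      refine Fin.cases ?_ (fun j => ?_) i <;> simp
    rw [h2] at h1
    calc (c * ∏ i, x i) * t = c * (t * ∏ i, x i) := by ring
      _ ≤ _ := h1
  -- cap bound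
  have hcapq : ∀ x : Fin k → ℝ, (∀ i, 0 < x i) →
      c * Real.exp (-1) * ∏ i, x i ≤ ‖eval (fun i => (x i : ℂ)) q‖ := by
    intro x hx
    rw [hqev]
    have hP : 0 < ∏ i, x i := Finset.prod_pos fun i _ => hx i
    have h1 := lemC (up f (fun i => (x i : ℂ))) (by
      intro u hu
      by_contra hcon
      push Not at hcon
      rw [up_eval] at hu
      have h2 := hom_eval hf (((‖u‖ : ℝ) : ℂ) + (starRingEnd ℂ) u)
        (Fin.cons u (fun i => (x i : ℂ)) : Fin (k + 1) → ℂ)
      rw [hu, mul_zero] at h2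
      refine hs _ ?_ h2
      intro i
      refine Fin.cases ?_ (fun j => ?_) i
      · simp only [Fin.cons_zero]
        have h3 : ((((‖u‖ : ℝ) : ℂ) + (starRingEnd ℂ) u) * u).re = ‖u‖ * (‖u‖ + u.re) := by
          rw [add_mul, Complex.add_re, Complex.re_ofReal_mul, mul_comm ((starRingEnd ℂ) u),
            Complex.mul_conj, Complex.ofReal_re, Complex.normSq_eq_norm_sq]
          ring
        rw [h3]
        have h4 : u ≠ 0 := by
          rintro rfl
          simp at hcon
        exact mul_pos (norm_pos_iff.mpr h4) hcon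
      · simp only [Fin.cons_succ]
        rw [mul_comm, Complex.re_ofReal_mul]
        apply mul_pos (hx j)
        simp
        exact hcon) (c * ∏ i, x i) (by positivity) (hgrow x hx)
    calc c * Real.exp (-1) * ∏ i, x i = (c * ∏ i, x i) * Real.exp (-1) := by ring
      _ ≤ _ := h1
  -- stability of dd f
  have hdstab : Stab (dd f) := by
    intro z hz
    have hz' : z = (Fin.cons (z 0) (Fin.tail z) : Fin (k + 1) → ℂ) := (Fin.cons_self_tail z).symm
    rw [hz', ← up_eval, up_dd]
    have hst : ∀ u : ℂ, 0 < u.re → (up f (Fin.tail z)).eval u ≠ 0 := by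
      intro u hu
      rw [up_eval]
      apply hs
      intro i
      refine Fin.cases ?_ (fun j => ?_) i
      · exact hu
      · exact hz _
    apply lemD _ hst _ _ (hz 0)
    -- non constant
    intro hroots
    have hsp := IsAlgClosed.splits (up f (Fin.tail z))
    have hconst : ∀ u, (up f (Fin.tail z)).eval u = (up f (Fin.tail z)).leadingCoeff := by
      intro u
      rw [hsp.eval_eq_prod_roots, hroots]; simp
    set L := ‖(up f (Fin.tail z)).leadingCoeff‖ with hL
    set P := c * ∏ i, (Fin.tail z i).re with hP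
    have hPpos : 0 < P := by
      apply mul_pos hc
      exact Finset.prod_pos fun i _ => hz _
    have hb : ∀ t : ℝ, 0 < t → P * t ≤ L := by
      intro t ht
      have h1 := hgrow (fun i => (Fin.tail z i).re) (fun i => hz _) t ht
      have h2 := lemA hf hs (Fin.cons (t : ℂ) (Fin.tail z) : Fin (k + 1) → ℂ) (by
        intro i
        refine Fin.cases ?_ (fun j => ?_) i
        · simpa using ht
        · exact hz _)
      have h3 : (fun i => ((((Fin.cons (t : ℂ) (Fin.tail z) : Fin (k + 1) → ℂ) i).re : ℝ) : ℂ)) =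
          (Fin.cons (t : ℂ) (fun i => (((Fin.tail z i).re : ℝ) : ℂ)) : Fin (k + 1) → ℂ) := by
        funext i
        refine Fin.cases ?_ (fun j => ?_) i <;> simp
      rw [h3, ← up_eval, ← up_eval, hconst] at h2
      exact h1.trans h2
    have h4 := hb ((L + 1) / P) (by
      have : 0 ≤ L := norm_nonneg _
      positivity)
    rw [mul_div_cancel₀ _ hPpos.ne'] at h4
    linarith
  -- stability of q
  have hqstab : Stab q := by
    intro y hy
    have hhom := dd_hom hf
    have h1 : ∀ t : ℝ, 0 < t →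
        ‖eval (Fin.cons (t : ℂ) (fun i => ((y i).re : ℂ)) : Fin (k + 1) → ℂ) (dd f)‖ ≤
        ‖eval (Fin.cons (t : ℂ) y : Fin (k + 1) → ℂ) (dd f)‖ := by
      intro t ht
      have h2 := lemA hhom hdstab (Fin.cons (t : ℂ) y : Fin (k + 1) → ℂ) (by
        intro i
        refine Fin.cases ?_ (fun j => ?_) i
        · simpa using ht
        · exact hy _)
      have h3 : (fun i => ((((Fin.cons (t : ℂ) y : Fin (k + 1) → ℂ) i).re : ℝ) : ℂ)) =
          (Fin.cons (t : ℂ) (fun i => (((y i).re : ℝ) : ℂ)) : Fin (k + 1) → ℂ) := by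
        funext i
        refine Fin.cases ?_ (fun j => ?_) i <;> simp
      rw [h3] at h2
      exact h2
    have hcont : ∀ w : Fin k → ℂ, Continuous
        (fun t : ℝ => ‖eval (Fin.cons (t : ℂ) w : Fin (k + 1) → ℂ) (dd f)‖) := by
      intro w
      simp only [← up_eval]
      exact ((up (dd f) w).continuous.comp Complex.continuous_ofReal).norm
    have h2 : ‖eval (Fin.cons ((0 : ℝ) : ℂ) (fun i => ((y i).re : ℂ)) : Fin (k + 1) → ℂ) (dd f)‖ ≤
        ‖eval (Fin.cons ((0 : ℝ) : ℂ) y : Fin (k + 1) → ℂ) (dd f)‖ := by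
      have ht1 := ((hcont (fun i => ((y i).re : ℂ))).tendsto 0).mono_left
        (nhdsWithin_le_nhds (s := Set.Ioi 0))
      have ht2 := ((hcont y).tendsto 0).mono_left (nhdsWithin_le_nhds (s := Set.Ioi 0))
      refine le_of_tendsto_of_tendsto ht1 ht2 ?_
      filter_upwards [self_mem_nhdsWithin] with t ht
      exact h1 t ht
    rw [Complex.ofReal_zero, ← hqev2, ← hqev2] at h2
    have h3 := hcapq (fun i => (y i).re) hy
    have h4 : 0 < c * Real.exp (-1) * ∏ i, (y i).re := by
      have : 0 < ∏ i, (y i).re := Finset.prod_pos fun i _ => hy i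
      positivity
    intro h0
    rw [h0, norm_zero] at h2
    linarith
  exact ⟨hqhom, hqstab, hcapq⟩

theorem AFpoly_cons (m u v : ℕ) : (Finsupp.cons 1 (ex m u v) : Fin (m + 2 + 1) →₀ ℕ) = ex (m + 1) u v := by
  ext i
  refine Fin.cases ?_ (fun j => ?_) i
  · rw [Finsupp.cons_zero]
    show 1 = if ((0 : Fin (m + 2 + 1)) : ℕ) < m + 1 then 1 else
      if ((0 : Fin (m + 2 + 1)) : ℕ) = m + 1 then u else v
    rw [if_pos (by simp)]
  · rw [Finsupp.cons_succ]
    show (if (j : ℕ) < m then 1 else if (j : ℕ) = m then u else v) =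
      if ((j.succ : Fin (m + 2 + 1)) : ℕ) < m + 1 then 1 else if ((j.succ : Fin (m + 2 + 1)) : ℕ) = m + 1 then u else v
    rw [Fin.val_succ]
    by_cases h1 : (j : ℕ) < m
    · rw [if_pos h1, if_pos (show (j : ℕ) + 1 < m + 1 by omega)]
    · rw [if_neg h1, if_neg (show ¬ (j : ℕ) + 1 < m + 1 by omega)]
      by_cases h2 : (j : ℕ) = m
      · rw [if_pos h2, if_pos (show (j : ℕ) + 1 = m + 1 by omega)]
      · rw [if_neg h2, if_neg (show ¬ (j : ℕ) + 1 = m + 1 by omega)]

theorem AFpoly_eval (f : MvPolynomial (Fin 2) ℂ) (hf : f.IsHomogeneous 2) (z : Fin 2 → ℂ) :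
    eval z f = coeff (ex 0 2 0) f * z 0 ^ 2 + coeff (ex 0 1 1) f * (z 0 * z 1) + coeff (ex 0 0 2) f * z 1 ^ 2 := by
  have hex : ∀ u v : ℕ, (ex 0 u v : Fin 2 →₀ ℕ) 0 = u ∧ (ex 0 u v : Fin 2 →₀ ℕ) 1 = v := by
    intro u v
    constructor <;> simp [ex]
  have hne1 : (ex 0 2 0 : Fin 2 →₀ ℕ) ≠ ex 0 1 1 := by
    intro h
    have := DFunLike.congr_fun h 0
    rw [(hex 2 0).1, (hex 1 1).1] at this
    omega
  have hne2 : (ex 0 2 0 : Fin 2 →₀ ℕ) ≠ ex 0 0 2 := by
    intro h
    have := DFunLike.congr_fun h 0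
    rw [(hex 2 0).1, (hex 0 2).1] at this
    omega
  have hne3 : (ex 0 1 1 : Fin 2 →₀ ℕ) ≠ ex 0 0 2 := by
    intro h
    have := DFunLike.congr_fun h 0
    rw [(hex 1 1).1, (hex 0 2).1] at this
    omega
  have hsub : f.support ⊆ {ex 0 2 0, ex 0 1 1, ex 0 0 2} := by
    intro d hd
    have h1 : d 0 + d 1 = 2 := by
      have := hf (mem_support_iff.mp hd)
      rw [Finsupp.weight_apply] at this
      simp only [Pi.one_apply, smul_eq_mul, mul_one] at this
      rw [Finsupp.sum_fintype _ _ (fun i => rfl), Fin.sum_univ_two] at this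
      exact this
    have hd' : d = ex 0 (d 0) (d 1) := by
      ext i
      fin_cases i
      · exact (hex _ _).1.symm
      · exact (hex _ _).2.symm
    rw [hd']
    have h0 : d 0 = 0 ∨ d 0 = 1 ∨ d 0 = 2 := by omega
    rcases h0 with h | h | h
    · have h2 : d 1 = 2 := by omega
      rw [h, h2]; simp
    · have h2 : d 1 = 1 := by omega
      rw [h, h2]; simp
    · have h2 : d 1 = 0 := by omega
      rw [h, h2]; simp
  rw [eval_eq', Finset.sum_subset hsub (fun d _ hd => by
    rw [notMem_support_iff.mp hd, zero_mul])]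
  rw [Finset.sum_insert (by simp [hne1, hne2]), Finset.sum_insert (by simp [hne3]), Finset.sum_singleton]
  simp only [Fin.prod_univ_two]
  rw [(hex 2 0).1, (hex 2 0).2, (hex 1 1).1, (hex 1 1).2, (hex 0 2).1, (hex 0 2).2]
  ring

theorem AFpoly_base (f : MvPolynomial (Fin 2) ℂ) (hf : f.IsHomogeneous 2) (hs : Stab f)
    (α β γ : ℝ) (hα : 0 ≤ α) (hγ : 0 ≤ γ) (h1 : coeff (ex 0 2 0) f = (α : ℂ))
    (h2 : coeff (ex 0 1 1) f = (β : ℂ)) (h3 : coeff (ex 0 0 2) f = (γ : ℂ)) : 4 * α * γ ≤ β ^ 2 := by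
  by_contra hcon
  push Not at hcon
  have hαγ : 0 < α * γ := by nlinarith [sq_nonneg β]
  have hα' : 0 < α := by
    rcases hα.lt_or_eq with h | h
    · exact h
    · rw [← h] at hαγ; simp at hαγ
  obtain ⟨D, hD⟩ : ∃ D, D = Real.sqrt (4 * α * γ - β ^ 2) := ⟨_, rfl⟩
  have hDpos : 0 < D := by rw [hD]; exact Real.sqrt_pos.mpr (by linarith)
  have hD2 : D ^ 2 = 4 * α * γ - β ^ 2 := by rw [hD, Real.sq_sqrt (by linarith)]
  obtain ⟨w, hw⟩ : ∃ w : ℂ, w = (((-β / (2 * α) : ℝ)) : ℂ) + ((D / (2 * α) : ℝ) : ℂ) * Complex.I := ⟨_, rfl⟩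
  have hwim : w.im ≠ 0 := by
    have : w.im = D / (2 * α) := by
      rw [hw]
      simp only [Complex.add_im, Complex.ofReal_im, Complex.mul_im, Complex.ofReal_re, Complex.I_re,
        Complex.I_im]
      ring
    rw [this]
    positivity
  have hroot : (α : ℂ) * w ^ 2 + (β : ℂ) * w + (γ : ℂ) = 0 := by
    have hαc : (α : ℂ) ≠ 0 := by exact_mod_cast hα'.ne'
    have hD2c : (D : ℂ) ^ 2 = 4 * α * γ - β ^ 2 := by exact_mod_cast hD2
    have h5 : 2 * (α : ℂ) * w + β = D * Complex.I := by
      rw [hw]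
      push_cast
      field_simp
      ring
    have h6 : 4 * (α : ℂ) * ((α : ℂ) * w ^ 2 + (β : ℂ) * w + (γ : ℂ)) = 0 := by
      have : 4 * (α : ℂ) * ((α : ℂ) * w ^ 2 + (β : ℂ) * w + (γ : ℂ)) =
          (2 * (α : ℂ) * w + β) ^ 2 + (4 * α * γ - β ^ 2) := by ring
      rw [this, h5, mul_pow, Complex.I_sq, hD2c]
      ring
    have h7 : 4 * (α : ℂ) ≠ 0 := mul_ne_zero (by norm_num) hαc
    exact (mul_eq_zero.mp h6).resolve_left h7
  have hnw : 0 < ‖w‖ + w.re := by
    have := Complex.abs_re_lt_norm.mpr hwim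
    have := neg_abs_le w.re
    linarith
  have hnw0 : 0 < ‖w‖ := by
    rw [norm_pos_iff]
    rintro rfl
    simp at hwim
  obtain ⟨t, ht⟩ : ∃ t : ℂ, t = (‖w‖ : ℂ) + (starRingEnd ℂ) w := ⟨_, rfl⟩
  have htre : 0 < t.re := by
    rw [ht]; simp; exact hnw
  have hsre : 0 < (w * t).re := by
    have e : w * t = (‖w‖ : ℂ) * w + ((‖w‖ ^ 2 : ℝ) : ℂ) := by
      rw [ht, mul_add, Complex.mul_conj, Complex.normSq_eq_norm_sq]
      ring
    rw [e, Complex.add_re, Complex.re_ofReal_mul, Complex.ofReal_re]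
    nlinarith
  have := hs ![w * t, t] (by
    intro i
    fin_cases i
    · exact hsre
    · exact htre)
  apply this
  rw [AFpoly_eval f hf, h1, h2, h3]
  show (α : ℂ) * (w * t) ^ 2 + (β : ℂ) * ((w * t) * t) + (γ : ℂ) * t ^ 2 = 0
  have : (α : ℂ) * (w * t) ^ 2 + (β : ℂ) * ((w * t) * t) + (γ : ℂ) * t ^ 2 =
      t ^ 2 * ((α : ℂ) * w ^ 2 + (β : ℂ) * w + (γ : ℂ)) := by ring
  rw [this, hroot, mul_zero]

theorem AFpoly (m : ℕ) : ∀ (f : MvPolynomial (Fin (m + 2)) ℂ), f.IsHomogeneous (m + 2) → Stab f →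
    ∀ c : ℝ, 0 < c → (∀ x : Fin (m + 2) → ℝ, (∀ i, 0 < x i) →
      c * ∏ i, x i ≤ ‖eval (fun i => (x i : ℂ)) f‖) →
    ∀ α β γ : ℝ, 0 ≤ α → 0 ≤ β → 0 ≤ γ → coeff (ex m 2 0) f = (α : ℂ) → coeff (ex m 1 1) f = (β : ℂ) →
      coeff (ex m 0 2) f = (γ : ℂ) → 4 * α * γ ≤ β ^ 2 := by
  induction m with
  | zero =>
    intro f hf hs c _ _ α β γ hα _ hγ h1 h2 h3
    exact AFpoly_base f hf hs α β γ hα hγ h1 h2 h3
  | succ m ih =>
    intro f hf hs c hc hcap α β γ hα hβ hγ h1 h2 h3
    obtain ⟨g, hg⟩ : ∃ g : MvPolynomial (Fin (m + 2 + 1)) ℂ, g = f := ⟨f, rfl⟩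
    obtain ⟨q1, q2, q3⟩ := AFpoly_step (m + 2) f hf hs c hc hcap
    refine ih _ q1 q2 (c * Real.exp (-1)) (by positivity) q3 α β γ hα hβ hγ ?_ ?_ ?_
    · rw [finSuccEquiv_coeff_coeff, AFpoly_cons]
      exact h1
    · rw [finSuccEquiv_coeff_coeff, AFpoly_cons]
      exact h2
    · rw [finSuccEquiv_coeff_coeff, AFpoly_cons]
      exact h3

end Pool.Agent.Helper153.Ditt
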