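import Pool.Agent.Helper153.Ditt.Defs
import Pool.Agent.Helper153.Ditt.J18826

set_option autoImplicit false

open scoped BigOperators

namespace Pool.Agent.Helper153.Ditt

variable {n : ℕ}


open MvPolynomial

/-- linear form of column `j` -/
noncomputable def lf {n : ℕ} (A : Fin n → Fin n → ℝ) (j : Fin n) : MvPolynomial (Fin n) ℂ :=
  ∑ i, C ((A i j : ℝ) : ℂ) * X i

theorem ind_apply_aux {n : ℕ} (S : Finset (Fin n)) (l : Fin n) :
    (∑ i ∈ S, Finsupp.single i (1 : ℕ)) l = if l ∈ S then 1 else 0 := by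
  rw [Finsupp.finset_sum_apply]
  simp [Finsupp.single_apply]

theorem lf_mul_coeff_aux {n : ℕ} (A : Fin n → Fin n → ℝ) (j : Fin n)
    (P : MvPolynomial (Fin n) ℂ) (S : Finset (Fin n)) :
    coeff (∑ i ∈ S, Finsupp.single i 1) (lf A j * P) =
      ∑ i ∈ S, ((A i j : ℝ) : ℂ) * coeff (∑ l ∈ S.erase i, Finsupp.single l 1) P := by
  classical
  unfold lf
  rw [Finset.sum_mul, coeff_sum]
  have h1 : ∀ i : Fin n, coeff (∑ l ∈ S, Finsupp.single l 1) (C ((A i j : ℝ) : ℂ) * X i * P) =
      if i ∈ S then ((A i j : ℝ) : ℂ) * coeff (∑ l ∈ S.erase i, Finsupp.single l 1) P else 0 := by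
    intro i
    rw [mul_assoc, coeff_C_mul, coeff_X_mul']
    by_cases hi : i ∈ S
    · have h2 : i ∈ (∑ l ∈ S, Finsupp.single l (1 : ℕ)).support := by
        rw [Finsupp.mem_support_iff, ind_apply_aux, if_pos hi]
        exact one_ne_zero
      rw [if_pos h2, if_pos hi]
      congr 2
      rw [← Finset.add_sum_erase S _ hi, add_tsub_cancel_left]
    · have h2 : i ∉ (∑ l ∈ S, Finsupp.single l (1 : ℕ)).support := by
        rw [Finsupp.mem_support_iff, ind_apply_aux, if_neg hi]
        simp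
      rw [if_neg h2, if_neg hi, mul_zero]
  rw [Finset.sum_congr rfl (fun i _ => h1 i)]
  rw [Finset.sum_ite_mem, Finset.univ_inter]

theorem coeff_lf {n : ℕ} (A : Fin n → Fin n → ℝ) (T S : Finset (Fin n)) :
    coeff (∑ i ∈ S, Finsupp.single i 1) (∏ j ∈ T, lf A j) = ((pm A S T : ℝ) : ℂ) := by
  classical
  induction T using Finset.induction_on generalizing S with
  | empty =>
    rw [Finset.prod_empty, coeff_one]
    rcases S.eq_empty_or_nonempty with h | h
    · subst h
      simp [pm_empty_empty]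
    · obtain ⟨i, hi⟩ := h
      have hne : (0 : Fin n →₀ ℕ) ≠ ∑ i ∈ S, Finsupp.single i 1 := by
        intro h0
        have h3 := DFunLike.congr_fun h0 i
        rw [ind_apply_aux, if_pos hi] at h3
        simp at h3
      rw [if_neg hne, pm_row A S ∅ i hi]
      simp
  | insert j T hj ih =>
    rw [Finset.prod_insert hj, lf_mul_coeff_aux, pm_col A S (insert j T) j (Finset.mem_insert_self j T),
      Finset.erase_insert hj]
    push_cast
    apply Finset.sum_congr rfl
    intro i _
    rw [ih]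

theorem pderiv_lf_aux {n : ℕ} (A : Fin n → Fin n → ℝ) (i j : Fin n) :
    pderiv i (lf A j) = C ((A i j : ℝ) : ℂ) := by
  classical
  unfold lf
  rw [map_sum]
  have : ∀ l : Fin n, pderiv i (C ((A l j : ℝ) : ℂ) * X l) =
      if l = i then C ((A l j : ℝ) : ℂ) else 0 := by
    intro l
    rw [pderiv_C_mul, pderiv_X]
    by_cases h : l = i
    · subst h; simp
    · rw [if_neg h, Pi.single_eq_of_ne h]; simp
  rw [Finset.sum_congr rfl (fun l _ => this l)]
  simp

theorem pderiv_prod_aux {n : ℕ} (A : Fin n → Fin n → ℝ) (i : Fin n) (T : Finset (Fin n)) :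
    pderiv i (∏ j ∈ T, lf A j) = ∑ j ∈ T, C ((A i j : ℝ) : ℂ) * ∏ l ∈ T.erase j, lf A l := by
  classical
  induction T using Finset.induction_on with
  | empty => simp
  | insert j T hj ih =>
    rw [Finset.prod_insert hj, Derivation.leibniz, ih, pderiv_lf_aux, Finset.sum_insert hj,
      Finset.erase_insert hj, smul_eq_mul, smul_eq_mul, Finset.mul_sum, add_comm, mul_comm]
    congr 1
    apply Finset.sum_congr rfl
    intro l hl
    have hlj : l ≠ j := fun h => hj (h ▸ hl)
    rw [Finset.erase_insert_of_ne hlj.symm, Finset.prod_insert (fun h => hj (Finset.mem_of_mem_erase h))]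
    ring

theorem coeff_lf2 {n : ℕ} (A : Fin n → Fin n → ℝ) (i k : Fin n) (hik : i ≠ k) :
    2 * coeff ((∑ l ∈ Finset.univ.erase k, Finsupp.single l 1) + Finsupp.single i 1) (∏ j, lf A j)
      = ((∑ j, A i j * mn A k j : ℝ) : ℂ) := by
  classical
  have h1 := coeff_pderiv (i := i) (∏ j, lf A j) (∑ l ∈ Finset.univ.erase k, Finsupp.single l 1)
  rw [ind_apply_aux, if_pos (Finset.mem_erase.mpr ⟨hik, Finset.mem_univ _⟩), pderiv_prod_aux,
    coeff_sum] at h1
  have h2 : ∀ j : Fin n, coeff (∑ l ∈ Finset.univ.erase k, Finsupp.single l 1)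
      (C ((A i j : ℝ) : ℂ) * ∏ l ∈ Finset.univ.erase j, lf A l) =
      ((A i j : ℝ) : ℂ) * ((mn A k j : ℝ) : ℂ) := by
    intro j
    rw [coeff_C_mul, coeff_lf]
    rfl
  rw [Finset.sum_congr rfl (fun j _ => h2 j)] at h1
  push_cast
  rw [h1]
  push_cast
  ring

end Pool.Agent.Helper153.Ditt
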