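import Pool.Agent.Helper153.Ditt.Defs
import Pool.Agent.Helper153.Ditt.J18826
import Pool.Agent.Helper153.Ditt.J19029
import Pool.Agent.Helper153.Ditt.J19042

set_option autoImplicit false

open scoped BigOperators

namespace Pool.Agent.Helper153.Ditt

variable {n : ℕ}


open MvPolynomial






theorem afr_pl_cont {α β : Type} [DecidableEq β] (a : α → β → ℝ) (L : List α) :
    ∀ T : Finset β, Continuous fun δ : ℝ => pl (fun i j => a i j + δ) L T := by
  induction L with
  | nil =>
    intro T
    simp only [pl]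
    exact continuous_const
  | cons i L ih =>
    intro T
    simp only [pl]
    exact continuous_finsetSum _ fun j _ => (continuous_const.add continuous_id).mul (ih _)

theorem afr_pm_cont {α β : Type} [DecidableEq β] (a : α → β → ℝ) (S : Finset α)
    (T : Finset β) : Continuous fun δ : ℝ => pm (fun i j => a i j + δ) S T :=
  afr_pl_cont a S.toList T

theorem afr_pm_perm {α α' β : Type} [DecidableEq α] [DecidableEq α'] [DecidableEq β]
    (a : α → β → ℝ) (e : α' → α) (he : Function.Injective e) (S : Finset α') :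
    ∀ (T : Finset β), pm (fun i j => a (e i) j) S T = pm a (S.image e) T := by
  induction S using Finset.induction_on with
  | empty =>
    intro T
    rcases T.eq_empty_or_nonempty with rfl | hT
    · rw [pm_empty_empty, Finset.image_empty, pm_empty_empty]
    · rw [pm_empty _ _ hT, Finset.image_empty, pm_empty _ _ hT]
  | insert s S hs ih =>
    intro T
    have hs' : e s ∉ S.image e := by
      intro h
      obtain ⟨t, ht, hte⟩ := Finset.mem_image.1 h
      exact hs (he hte ▸ ht)
    rw [pm_row _ (insert s S) T s (Finset.mem_insert_self _ _), Finset.image_insert,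
      pm_row a _ T (e s) (Finset.mem_insert_self _ _), Finset.erase_insert hs,
      Finset.erase_insert hs']
    exact Finset.sum_congr rfl fun j _ => by rw [ih]

theorem afr_eval_lf {n : ℕ} (A : Fin n → Fin n → ℝ) (j : Fin n) (z : Fin n → ℂ) :
    eval z (lf A j) = ∑ i, (A i j : ℂ) * z i := by
  simp [lf]

theorem afr_sum_single {n : ℕ} (S : Finset (Fin n)) (t : Fin n) :
    (∑ l ∈ S, Finsupp.single l 1 : Fin n →₀ ℕ) t = if t ∈ S then 1 else 0 := by
  rw [Finsupp.finsetSum_apply]
  simp [Finsupp.single_apply]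

theorem afr_ex (m u v : ℕ) (t : Fin (m + 2)) :
    ex m u v t = if (t : ℕ) < m then 1 else if (t : ℕ) = m then u else v := rfl

/-- index `m` -/
def afi (m : ℕ) : Fin (m + 2) := ⟨m, by omega⟩
/-- index `m + 1` -/
def afk (m : ℕ) : Fin (m + 2) := ⟨m + 1, by omega⟩

theorem afr_ex20 (m : ℕ) :
    ex m 2 0 = (∑ l ∈ Finset.univ.erase (afk m), Finsupp.single l 1) + Finsupp.single (afi m) 1 := by
  ext t
  rw [afr_ex, Finsupp.add_apply, afr_sum_single, Finsupp.single_apply]
  have h1 : (t ∈ Finset.univ.erase (afk m)) ↔ (t : ℕ) ≠ m + 1 := by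
    simp [afk, Fin.ext_iff]
  have h2 : (afi m = t) ↔ (t : ℕ) = m := by
    simp only [afi, Fin.ext_iff]
    exact eq_comm
  simp only [h1, h2]
  have := t.2
  split_ifs <;> omega

theorem afr_ex02 (m : ℕ) :
    ex m 0 2 = (∑ l ∈ Finset.univ.erase (afi m), Finsupp.single l 1) + Finsupp.single (afk m) 1 := by
  ext t
  rw [afr_ex, Finsupp.add_apply, afr_sum_single, Finsupp.single_apply]
  have h1 : (t ∈ Finset.univ.erase (afi m)) ↔ (t : ℕ) ≠ m := by
    simp [afi, Fin.ext_iff]
  have h2 : (afk m = t) ↔ (t : ℕ) = m + 1 := by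
    simp only [afk, Fin.ext_iff]
    exact eq_comm
  simp only [h1, h2]
  have := t.2
  split_ifs <;> omega

theorem afr_ex11 (m : ℕ) :
    ex m 1 1 = (∑ l ∈ (Finset.univ : Finset (Fin (m + 2))), Finsupp.single l 1) := by
  ext t
  rw [afr_ex, afr_sum_single]
  simp

theorem afr_pos0 {m : ℕ} (B : Fin (m + 2) → Fin (m + 2) → ℝ) (h : ∀ i j, 0 < B i j) :
    (∑ j, B (afi m) j * mn B (afk m) j) * (∑ j, B (afk m) j * mn B (afi m) j) ≤ (per B) ^ 2 := by
  have hik : afi m ≠ afk m := by
    simp [afi, afk, Fin.ext_iff]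
  have hh : ∀ i j, 0 ≤ B i j := fun i j => (h i j).le
  have hmn : ∀ i j, 0 ≤ mn B i j := fun i j => pm_nonneg B hh _ _
  have hhom : (∏ j, lf B j).IsHomogeneous (m + 2) := by
    have := IsHomogeneous.prod (Finset.univ : Finset (Fin (m + 2))) (fun j => lf B j)
      (fun _ => 1) (fun j _ => by
        refine IsHomogeneous.sum _ _ _ fun i _ => ?_
        exact isHomogeneous_C_mul_X _ _)
    simpa using this
  have hstab : Stab (∏ j, lf B j) := by
    intro z hz
    rw [map_prod, Finset.prod_ne_zero_iff]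
    intro j _ h0
    rw [afr_eval_lf] at h0
    have h1 := congrArg Complex.re h0
    rw [Complex.re_sum] at h1
    have h2 : 0 < ∑ i, ((B i j : ℂ) * z i).re := by
      refine Finset.sum_pos (fun i _ => ?_) ⟨afi m, Finset.mem_univ _⟩
      rw [Complex.re_ofReal_mul]
      exact mul_pos (h i j) (hz i)
    rw [h1] at h2
    exact lt_irrefl _ h2
  have hcap : ∀ x : Fin (m + 2) → ℝ, (∀ i, 0 < x i) →
      (∏ j, B j j) * ∏ i, x i ≤ ‖eval (fun i => (x i : ℂ)) (∏ j, lf B j)‖ := by
    intro x hx
    have e1 : eval (fun i => (x i : ℂ)) (∏ j, lf B j) = ((∏ j, ∑ i, B i j * x i : ℝ) : ℂ) := by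
      rw [map_prod]
      push_cast
      exact Finset.prod_congr rfl fun j _ => afr_eval_lf B j _
    rw [e1, Complex.norm_real, Real.norm_eq_abs, ← Finset.prod_mul_distrib]
    refine le_trans ?_ (le_abs_self _)
    refine Finset.prod_le_prod (fun j _ => (mul_pos (h j j) (hx j)).le) fun j _ => ?_
    exact Finset.single_le_sum (f := fun i => B i j * x i)
      (fun i _ => (mul_pos (h i j) (hx i)).le) (Finset.mem_univ j)
  have key := AFpoly m (∏ j, lf B j) hhom hstab (∏ j, B j j)
    (Finset.prod_pos fun j _ => h j j) hcap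
    ((∑ j, B (afi m) j * mn B (afk m) j) / 2) (per B)
    ((∑ j, B (afk m) j * mn B (afi m) j) / 2)
    (div_nonneg (Finset.sum_nonneg fun j _ => mul_nonneg (hh _ _) (hmn _ _)) (by norm_num))
    (pm_nonneg B hh _ _)
    (div_nonneg (Finset.sum_nonneg fun j _ => mul_nonneg (hh _ _) (hmn _ _)) (by norm_num))
    (by
      have := coeff_lf2 B (afi m) (afk m) hik
      rw [afr_ex20]
      push_cast at this ⊢
      rw [← this]
      ring)
    (by
      rw [afr_ex11, coeff_lf]
      rfl)
    (by
      have := coeff_lf2 B (afk m) (afi m) hik.symm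
      rw [afr_ex02]
      push_cast at this ⊢
      rw [← this]
      ring)
  refine le_trans (le_of_eq ?_) key
  ring

theorem afr_exists_perm {m : ℕ} (i k : Fin (m + 2)) (hik : i ≠ k) :
    ∃ e : Equiv.Perm (Fin (m + 2)), e (afi m) = i ∧ e (afk m) = k := by
  have hik0 : afi m ≠ afk m := by
    simp [afi, afk, Fin.ext_iff]
  refine ⟨(Equiv.swap (afi m) i).trans (Equiv.swap (Equiv.swap (afi m) i (afk m)) k), ?_, ?_⟩
  · rw [Equiv.trans_apply, Equiv.swap_apply_left]
    refine Equiv.swap_apply_of_ne_of_ne ?_ hik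
    intro h
    have h2 : (Equiv.swap (afi m) i) (afi m) = (Equiv.swap (afi m) i) (afk m) := by
      rw [Equiv.swap_apply_left]; exact h
    exact hik0 ((Equiv.swap (afi m) i).injective h2)
  · rw [Equiv.trans_apply, Equiv.swap_apply_left]

theorem afr_pos {m : ℕ} (A : Fin (m + 2) → Fin (m + 2) → ℝ) (h : ∀ i j, 0 < A i j)
    (i k : Fin (m + 2)) (hik : i ≠ k) :
    (∑ j, A i j * mn A k j) * (∑ j, A k j * mn A i j) ≤ (per A) ^ 2 := by
  obtain ⟨e, he1, he2⟩ := afr_exists_perm i k hik
  have key := afr_pos0 (fun a b => A (e a) b) (fun a b => h _ _)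
  have h1 : per (fun a b => A (e a) b) = per A := by
    unfold per
    rw [afr_pm_perm A e e.injective, Finset.image_univ_equiv]
  have h2 : ∀ a j, mn (fun a b => A (e a) b) a j = mn A (e a) j := by
    intro a j
    unfold mn
    rw [afr_pm_perm A e e.injective, Finset.image_erase e.injective, Finset.image_univ_equiv]
  rw [h1] at key
  simp only [h2, he1, he2] at key
  exact key

theorem AF_rows {n : ℕ} (A : Fin n → Fin n → ℝ) (h : ∀ i j, 0 ≤ A i j) (i k : Fin n)
    (hik : i ≠ k) :
    (∑ j, A i j * mn A k j) * (∑ j, A k j * mn A i j) ≤ (per A) ^ 2 := by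
  obtain ⟨m, rfl⟩ : ∃ m, n = m + 2 := by
    refine ⟨n - 2, ?_⟩
    have := i.2
    have := k.2
    have : (i : ℕ) ≠ k := fun e => hik (Fin.ext e)
    omega
  have h1 : Filter.Tendsto (fun δ : ℝ => (∑ j, (A i j + δ) * mn (fun a b => A a b + δ) k j) *
      (∑ j, (A k j + δ) * mn (fun a b => A a b + δ) i j)) (nhdsWithin 0 (Set.Ioi 0))
      (nhds ((∑ j, (A i j + 0) * mn (fun a b => A a b + 0) k j) *
      (∑ j, (A k j + 0) * mn (fun a b => A a b + 0) i j))) := by
    refine (Continuous.tendsto ?_ 0).mono_left nhdsWithin_le_nhds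
    refine Continuous.mul ?_ ?_
    · exact continuous_finsetSum _ fun j _ =>
        (continuous_const.add continuous_id).mul (afr_pm_cont A _ _)
    · exact continuous_finsetSum _ fun j _ =>
        (continuous_const.add continuous_id).mul (afr_pm_cont A _ _)
  have h2 : Filter.Tendsto (fun δ : ℝ => (per (fun a b => A a b + δ)) ^ 2)
      (nhdsWithin 0 (Set.Ioi 0)) (nhds ((per (fun a b => A a b + 0)) ^ 2)) := by
    refine (Continuous.tendsto ?_ 0).mono_left nhdsWithin_le_nhds
    exact (afr_pm_cont A _ _).pow 2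
  have h3 := le_of_tendsto_of_tendsto h1 h2 (by
    filter_upwards [self_mem_nhdsWithin] with δ hδ
    exact afr_pos (fun a b => A a b + δ) (fun a b => by
      have := h a b
      have : (0 : ℝ) < δ := hδ
      linarith) i k hik)
  simpa only [add_zero] using h3

end Pool.Agent.Helper153.Ditt
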