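import Pool.Agent.Helper153.Ditt.Defs
import Pool.Agent.Helper153.Ditt.J18865
import Pool.Agent.Helper153.Ditt.J19043

set_option autoImplicit false

open scoped BigOperators

namespace Pool.Agent.Helper153.Ditt

variable {n : ℕ}



theorem AF_cols {n : ℕ} (A : Fin n → Fin n → ℝ) (h : ∀ i j, 0 ≤ A i j) (j l : Fin n)
    (hjl : j ≠ l) :
    (∑ i, A i j * mn A i l) * (∑ i, A i l * mn A i j) ≤ (per A) ^ 2 := by
  have h1 := AF_rows (fun i j => A j i) (fun i j => h j i) j l hjl
  have h2 : ∀ a b : Fin n, mn (fun i j => A j i) a b = mn A b a := by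
    intro a b
    exact pm_transpose (fun i j => A j i) (Finset.univ.erase a) (Finset.univ.erase b)
  have h3 : per (fun i j => A j i) = per A :=
    pm_transpose (fun i j => A j i) Finset.univ Finset.univ
  simp only [h2, h3] at h1
  exact h1

end Pool.Agent.Helper153.Ditt
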