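import Pool.Agent.Helper153.Ditt.Defs
import Pool.Agent.Helper153.Ditt.J18826

set_option autoImplicit false

open scoped BigOperators

namespace Pool.Agent.Helper153.Ditt

variable {n : ℕ}


theorem exists_max_pl {n : ℕ} (L : List (Fin n)) : ∀ T : Finset (Fin n),
    Continuous (fun A : Fin n → Fin n → ℝ => pl A L T) := by
  induction L with
  | nil =>
    intro T
    simp only [pl]
    exact continuous_const
  | cons i L ih =>
    intro T
    simp only [pl]
    exact continuous_finsetSum _ (fun j _ => (by fun_prop : Continuous (fun A : Fin n → Fin n → ℝ => A i j)).mul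
      (ih (T.erase j)))

theorem exists_max_phi (n : ℕ) : Continuous (fun A : Fin n → Fin n → ℝ => phi A) := by
  have h1 : Continuous (fun A : Fin n → Fin n → ℝ => RR A) := by
    unfold RR rs
    exact continuous_finsetProd _ (fun i _ => continuous_finsetSum _ (fun j _ => by fun_prop))
  have h2 : Continuous (fun A : Fin n → Fin n → ℝ => CC A) := by
    unfold CC cs
    exact continuous_finsetProd _ (fun i _ => continuous_finsetSum _ (fun j _ => by fun_prop))
  have h3 : Continuous (fun A : Fin n → Fin n → ℝ => per A) := by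
    unfold per pm
    exact exists_max_pl _ _
  exact (h1.add h2).sub h3

theorem exists_max (n : ℕ) (hn : 0 < n) :
    ∃ A : Fin n → Fin n → ℝ, (∀ i j, 0 ≤ A i j) ∧ (∑ i, ∑ j, A i j = n) ∧
      ∀ B : Fin n → Fin n → ℝ, (∀ i j, 0 ≤ B i j) → (∑ i, ∑ j, B i j = n) → phi B ≤ phi A := by
  have hn' : (0 : ℝ) < n := by exact_mod_cast hn
  obtain ⟨K, hK⟩ : ∃ K : Set (Fin n → Fin n → ℝ), K = {A : Fin n → Fin n → ℝ | (∀ i j, 0 ≤ A i j) ∧ ∑ i, ∑ j, A i j = (n : ℝ)} := ⟨_, rfl⟩
  have hclosed : IsClosed K := by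
    rw [hK]
    apply IsClosed.inter
    · have : {A : Fin n → Fin n → ℝ | ∀ i j, 0 ≤ A i j} = ⋂ i, ⋂ j, {A : Fin n → Fin n → ℝ | 0 ≤ A i j} := by
        ext A; simp
      show IsClosed {A : Fin n → Fin n → ℝ | ∀ i j, 0 ≤ A i j}
      rw [this]
      exact isClosed_iInter (fun i => isClosed_iInter (fun j => isClosed_le continuous_const (by fun_prop)))
    · exact isClosed_eq (continuous_finsetSum _ (fun i _ => continuous_finsetSum _ (fun j _ => by fun_prop)))
        continuous_const
  have hcomp : IsCompact (Set.pi Set.univ (fun _ : Fin n => Set.pi Set.univ (fun _ : Fin n => Set.Icc (0:ℝ) n))) :=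
    isCompact_univ_pi (fun _ => isCompact_univ_pi (fun _ => isCompact_Icc))
  have hsub : K ⊆ Set.pi Set.univ (fun _ : Fin n => Set.pi Set.univ (fun _ : Fin n => Set.Icc (0:ℝ) n)) := by
    rw [hK]
    rintro A ⟨h1, h2⟩ i _ j _
    refine ⟨h1 i j, ?_⟩
    rw [← h2]
    calc A i j ≤ ∑ j, A i j := Finset.single_le_sum (fun j _ => h1 i j) (Finset.mem_univ j)
      _ ≤ ∑ i, ∑ j, A i j := Finset.single_le_sum (f := fun i => ∑ j, A i j)
          (fun i _ => Finset.sum_nonneg (fun j _ => h1 i j)) (Finset.mem_univ i)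
  have hKc : IsCompact K := hcomp.of_isClosed_subset hclosed hsub
  have hne : K.Nonempty := by
    rw [hK]
    refine ⟨fun _ _ => 1 / n, fun _ _ => by positivity, ?_⟩
    simp only [Finset.sum_const, Finset.card_univ, Fintype.card_fin, nsmul_eq_mul]
    field_simp
  obtain ⟨A, hA, hmax⟩ := hKc.exists_isMaxOn hne (exists_max_phi n).continuousOn
  rw [hK] at hA
  refine ⟨A, hA.1, hA.2, ?_⟩
  intro B hB1 hB2
  exact hmax (by rw [hK]; exact ⟨hB1, hB2⟩)

end Pool.Agent.Helper153.Ditt
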