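import Pool.Agent.Helper153.Ditt.Defs
import Pool.Agent.Helper153.Ditt.J18826

set_option autoImplicit false

open scoped BigOperators

namespace Pool.Agent.Helper153.Ditt

variable {n : ℕ}






theorem pl_congr_cm {α β : Type} [DecidableEq β] (a b : α → β → ℝ) (L : List α)
    (h : ∀ i ∈ L, ∀ j, a i j = b i j) (T : Finset β) : pl a L T = pl b L T := by
  induction L generalizing T with
  | nil => rfl
  | cons i L ih =>
    simp only [pl]
    refine Finset.sum_congr rfl fun j _ => ?_
    rw [h i List.mem_cons_self j, ih (fun i' hi' => h i' (List.mem_cons_of_mem _ hi'))]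

theorem pm_congr_cm {α β : Type} [DecidableEq β] (a b : α → β → ℝ) (S : Finset α)
    (h : ∀ i ∈ S, ∀ j, a i j = b i j) (T : Finset β) : pm a S T = pm b S T := by
  unfold pm
  exact pl_congr_cm a b _ (fun i hi => h i (Finset.mem_toList.mp hi)) T

theorem pl_smul_cm {α β : Type} [DecidableEq β] (a : α → β → ℝ) (c : ℝ) (L : List α)
    (T : Finset β) : pl (fun i j => c * a i j) L T = c ^ L.length * pl a L T := by
  induction L generalizing T with
  | nil => simp [pl]
  | cons i L ih =>
    simp only [pl, List.length_cons]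
    rw [Finset.mul_sum]
    refine Finset.sum_congr rfl fun j _ => ?_
    rw [ih]; ring

theorem pm_smul_cm {α β : Type} [DecidableEq β] (a : α → β → ℝ) (c : ℝ) (S : Finset α)
    (T : Finset β) : pm (fun i j => c * a i j) S T = c ^ S.card * pm a S T := by
  unfold pm
  rw [pl_smul_cm, Finset.length_toList]

theorem phi_smul_cm {n : ℕ} (A : Fin n → Fin n → ℝ) (c : ℝ) :
    phi (fun i j => c * A i j) = c ^ n * phi A := by
  have h1 : RR (fun i j => c * A i j) = c ^ n * RR A := by
    unfold RR rs
    simp only [← Finset.mul_sum]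
    rw [Finset.prod_mul_distrib, Finset.prod_const, Finset.card_univ, Fintype.card_fin]
  have h2 : CC (fun i j => c * A i j) = c ^ n * CC A := by
    unfold CC cs
    simp only [← Finset.mul_sum]
    rw [Finset.prod_mul_distrib, Finset.prod_const, Finset.card_univ, Fintype.card_fin]
  have h3 : per (fun i j => c * A i j) = c ^ n * per A := by
    unfold per
    rw [pm_smul_cm, Finset.card_univ, Fintype.card_fin]
  unfold phi
  rw [h1, h2, h3]; ring

theorem prod_le_one_cm {n : ℕ} (r : Fin n → ℝ) (h0 : ∀ i, 0 ≤ r i) (hs : ∑ i, r i = n) :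
    ∏ i, r i ≤ 1 := by
  calc ∏ i, r i ≤ ∏ i, Real.exp (r i - 1) := by
        refine Finset.prod_le_prod (fun i _ => h0 i) (fun i _ => ?_)
        have := Real.add_one_le_exp (r i - 1)
        linarith
    _ = Real.exp (∑ i, (r i - 1)) := (Real.exp_sum _ _).symm
    _ = 1 := by
        rw [Finset.sum_sub_distrib, hs]
        simp

theorem prod_pert_cm {n : ℕ} (r : Fin n → ℝ) (i : Fin n) (hi : r i ≠ 0) (t : ℝ) :
    ∏ k, (r k + if k = i then t else 0) = ∏ k, r k + t * ((∏ k, r k) / r i) := by
  classical
  have h1 : ∏ k ∈ Finset.univ.erase i, (r k + if k = i then t else 0) =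
      ∏ k ∈ Finset.univ.erase i, r k := by
    refine Finset.prod_congr rfl fun k hk => ?_
    rw [if_neg (Finset.ne_of_mem_erase hk), add_zero]
  rw [← Finset.mul_prod_erase Finset.univ _ (Finset.mem_univ i), h1, if_pos rfl,
    ← Finset.mul_prod_erase Finset.univ r (Finset.mem_univ i)]
  field_simp

theorem mm_lt_cm {n : ℕ} (hn : 2 ≤ n) : mm n < 1 := by
  obtain ⟨m, rfl⟩ : ∃ m, n = m + 2 := ⟨n - 2, by omega⟩
  unfold mm
  have h0 : (0:ℝ) < ((m+2 : ℕ) : ℝ) ^ (m+2) := by positivity
  rw [div_lt_one h0]
  have h1 : (m+2).factorial < (m+2) ^ (m+2) := by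
    rw [Nat.factorial_succ, pow_succ']
    have h2 : (m+1).factorial ≤ (m+1)^(m+1) := Nat.factorial_le_pow _
    have h3 : (m+1)^(m+1) < (m+2)^(m+1) := Nat.pow_lt_pow_left (by omega) (by omega)
    exact Nat.mul_lt_mul_of_pos_left (lt_of_le_of_lt h2 h3) (by omega)
  exact_mod_cast h1

theorem crit_of_max {n : ℕ} (hn : 2 ≤ n) (A : Fin n → Fin n → ℝ) (h0 : ∀ i j, 0 ≤ A i j)
    (ht : ∑ i, ∑ j, A i j = n)
    (hmax : ∀ B : Fin n → Fin n → ℝ, (∀ i j, 0 ≤ B i j) → (∑ i, ∑ j, B i j = n) → phi B ≤ phi A)
    (hbig : 2 - mm n ≤ phi A) : Crit A := by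
  classical
  have hn0 : (0:ℝ) < n := by
    have : (0:ℕ) < n := by omega
    exact_mod_cast this
  have hr0 : ∀ i, 0 ≤ rs A i := fun i => Finset.sum_nonneg fun j _ => h0 i j
  have hc0 : ∀ j, 0 ≤ cs A j := fun j => Finset.sum_nonneg fun i _ => h0 i j
  have hrs : ∑ i, rs A i = n := ht
  have hcs : ∑ j, cs A j = n := by
    unfold cs
    rw [Finset.sum_comm]; exact ht
  have hR1 : RR A ≤ 1 := prod_le_one_cm _ hr0 hrs
  have hC1 : CC A ≤ 1 := prod_le_one_cm _ hc0 hcs
  have hP0 : 0 ≤ per A := pm_nonneg A h0 _ _
  have hmm := mm_lt_cm hn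
  have hphi : phi A = RR A + CC A - per A := rfl
  have hRpos : 0 < RR A := by rw [hphi] at hbig; linarith
  have hCpos : 0 < CC A := by rw [hphi] at hbig; linarith
  have hrpos : ∀ i, 0 < rs A i := by
    intro i
    refine lt_of_le_of_ne (hr0 i) (fun e => ?_)
    have : RR A = 0 := Finset.prod_eq_zero (Finset.mem_univ i) e.symm
    linarith
  have hcpos : ∀ j, 0 < cs A j := by
    intro j
    refine lt_of_le_of_ne (hc0 j) (fun e => ?_)
    have : CC A = 0 := Finset.prod_eq_zero (Finset.mem_univ j) e.symm
    linarith
  have hMpos : 0 < phi A := by linarith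
  have hD : ∀ i j, RR A / rs A i + CC A / cs A j - mn A i j ≤ phi A := by
    intro i j
    obtain ⟨D, hDd⟩ : ∃ D, D = RR A / rs A i + CC A / cs A j - mn A i j := ⟨_, rfl⟩
    rw [← hDd]
    have key : ∀ t : ℝ, 0 < t → t ≤ 1 → D ≤ phi A * (1 + t) := by
      intro t ht0 ht1
      obtain ⟨B, hB⟩ : ∃ B : Fin n → Fin n → ℝ, ∀ k l, B k l = A k l +
          (if k = i then (if l = j then t else 0) else 0) := ⟨_, fun k l => rfl⟩
      have hBr : ∀ k, rs B k = rs A k + if k = i then t else 0 := by
        intro k
        unfold rs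
        simp only [hB]
        rw [Finset.sum_add_distrib]
        congr 1
        by_cases hk : k = i
        · simp [hk]
        · simp [hk]
      have hBc : ∀ l, cs B l = cs A l + if l = j then t else 0 := by
        intro l
        unfold cs
        simp only [hB]
        rw [Finset.sum_add_distrib]
        congr 1
        rw [Finset.sum_ite_eq' Finset.univ i, if_pos (Finset.mem_univ _)]
      have hBR : RR B = RR A + t * (RR A / rs A i) := by
        unfold RR
        simp only [hBr]
        exact prod_pert_cm _ i (hrpos i).ne' t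
      have hBC : CC B = CC A + t * (CC A / cs A j) := by
        unfold CC
        simp only [hBc]
        exact prod_pert_cm _ j (hcpos j).ne' t
      have hBP : per B = per A + t * mn A i j := by
        unfold per mn
        rw [pm_row B _ _ i (Finset.mem_univ i), pm_row A _ _ i (Finset.mem_univ i)]
        have e1 : ∀ T, pm B (Finset.univ.erase i) T = pm A (Finset.univ.erase i) T := by
          intro T
          refine pm_congr_cm _ _ _ (fun k hk l => ?_) T
          rw [hB, if_neg (Finset.ne_of_mem_erase hk), add_zero]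
        simp only [e1, hB, if_true, add_mul]
        rw [Finset.sum_add_distrib]
        congr 1
        simp only [ite_mul, zero_mul]
        rw [Finset.sum_ite_eq' Finset.univ j, if_pos (Finset.mem_univ _)]
      have hBphi : phi B = phi A + t * D := by
        rw [hDd, hphi]
        unfold phi
        rw [hBR, hBC, hBP]; ring
      have hnt : (0:ℝ) < n + t := by linarith
      have hBsum : ∑ k, ∑ l, B k l = n + t := by
        have : ∑ k, rs B k = n + t := by
          simp only [hBr]
          rw [Finset.sum_add_distrib, hrs, Finset.sum_ite_eq' Finset.univ i,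
            if_pos (Finset.mem_univ _)]
        exact this
      have h1 := hmax (fun k l => (n / (n + t)) * B k l)
        (by
          intro k l
          refine mul_nonneg (div_nonneg hn0.le hnt.le) ?_
          rw [hB]
          split_ifs
          · linarith [h0 k l]
          · linarith [h0 k l]
          · linarith [h0 k l])
        (by
          simp only [← Finset.mul_sum]
          rw [hBsum]
          field_simp)
      rw [phi_smul_cm, hBphi] at h1
      have h2 : (1 + t / n) ^ n ≤ 1 + t + t ^ 2 := by
        have e1 : 1 + t / n ≤ Real.exp (t / n) := by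
          have := Real.add_one_le_exp (t / n); linarith
        have e2 : (1 + t / n) ^ n ≤ Real.exp (t / n) ^ n :=
          pow_le_pow_left₀ (by positivity) e1 n
        have e3 : Real.exp (t / n) ^ n = Real.exp t := by
          rw [← Real.exp_nat_mul]
          congr 1
          field_simp
        have e4 := (abs_le.mp (Real.abs_exp_sub_one_sub_id_le (x := t)
          (by rw [abs_of_pos ht0]; exact ht1))).2
        rw [e3] at e2
        linarith
      have h3 : phi A + t * D ≤ phi A * (1 + t / n) ^ n := by
        have e1 : (n / (n + t) : ℝ) ^ n * (1 + t / n) ^ n = 1 := by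
          rw [← mul_pow]
          have : (n / (n + t) : ℝ) * (1 + t / n) = 1 := by field_simp
          rw [this, one_pow]
        have e2 : 0 ≤ (1 + t / (n:ℝ)) ^ n := by positivity
        calc phi A + t * D = ((n / (n + t) : ℝ) ^ n * (1 + t / n) ^ n) * (phi A + t * D) := by
              rw [e1, one_mul]
          _ = ((n / (n + t) : ℝ) ^ n * (phi A + t * D)) * (1 + t / n) ^ n := by ring
          _ ≤ phi A * (1 + t / n) ^ n := mul_le_mul_of_nonneg_right h1 e2
      have h4 : phi A * (1 + t / n) ^ n ≤ phi A * (1 + t + t ^ 2) :=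
        mul_le_mul_of_nonneg_left h2 hMpos.le
      have h5 : t * D ≤ t * (phi A * (1 + t)) := by nlinarith
      exact le_of_mul_le_mul_left h5 ht0
    by_contra hcon
    push Not at hcon
    -- choose t
    obtain ⟨t, ht0, ht1, ht2⟩ : ∃ t : ℝ, 0 < t ∧ t ≤ 1 ∧ phi A * (1 + t) < D := by
      refine ⟨min 1 ((D - phi A) / (2 * phi A)), ?_, min_le_left _ _, ?_⟩
      · exact lt_min one_pos (div_pos (by linarith) (by linarith))
      · have e1 : min 1 ((D - phi A) / (2 * phi A)) ≤ (D - phi A) / (2 * phi A) := min_le_right _ _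
        have e2 : phi A * min 1 ((D - phi A) / (2 * phi A)) ≤ phi A * ((D - phi A) / (2 * phi A)) :=
          mul_le_mul_of_nonneg_left e1 hMpos.le
        have e3 : phi A * ((D - phi A) / (2 * phi A)) = (D - phi A) / 2 := by
          field_simp
        rw [mul_add, mul_one]
        linarith
    have := key t ht0 ht1
    linarith
  have hkkt : ∀ i j, per A - xi A i + ze A j ≤ mn A i j := by
    intro i j
    have := hD i j
    rw [hphi] at this
    unfold xi ze
    linarith
  refine ⟨h0, ht, hrpos, hcpos, by rw [hphi] at hbig; linarith, hkkt, ?_⟩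
  have hsum : ∑ i, ∑ j, A i j * (mn A i j - (per A - xi A i + ze A j)) = 0 := by
    have e1 : ∀ i j, A i j * (mn A i j - (per A - xi A i + ze A j)) =
        A i j * mn A i j + A i j * phi A - A i j * (RR A / rs A i) - A i j * (CC A / cs A j) := by
      intro i j
      rw [hphi]; unfold xi ze; ring
    simp only [e1, Finset.sum_sub_distrib, Finset.sum_add_distrib]
    have e2 : ∑ i, ∑ j, A i j * mn A i j = n * per A := by
      have : ∀ i, ∑ j, A i j * mn A i j = per A := by
        intro i
        unfold per mn
        rw [pm_row A _ _ i (Finset.mem_univ i)]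
      simp only [this, Finset.sum_const, Finset.card_univ, Fintype.card_fin, nsmul_eq_mul]
    have e3 : ∑ i, ∑ j, A i j * phi A = n * phi A := by
      simp only [← Finset.sum_mul]
      rw [ht]
    have e4 : ∑ i, ∑ j, A i j * (RR A / rs A i) = n * RR A := by
      have : ∀ i, ∑ j, A i j * (RR A / rs A i) = RR A := by
        intro i
        rw [← Finset.sum_mul]
        have h1 := (hrpos i).ne'
        show rs A i * (RR A / rs A i) = RR A
        field_simp
      simp only [this, Finset.sum_const, Finset.card_univ, Fintype.card_fin, nsmul_eq_mul]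
    have e5 : ∑ i, ∑ j, A i j * (CC A / cs A j) = n * CC A := by
      rw [Finset.sum_comm]
      have : ∀ j, ∑ i, A i j * (CC A / cs A j) = CC A := by
        intro j
        rw [← Finset.sum_mul]
        have h1 := (hcpos j).ne'
        show cs A j * (CC A / cs A j) = CC A
        field_simp
      simp only [this, Finset.sum_const, Finset.card_univ, Fintype.card_fin, nsmul_eq_mul]
    rw [e2, e3, e4, e5, hphi]; ring
  have hnn : ∀ i j, 0 ≤ A i j * (mn A i j - (per A - xi A i + ze A j)) := by
    intro i j
    exact mul_nonneg (h0 i j) (by linarith [hkkt i j])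
  intro i j
  have h1 := (Finset.sum_eq_zero_iff_of_nonneg (fun i _ => Finset.sum_nonneg fun j _ => hnn i j)).mp
    hsum i (Finset.mem_univ i)
  exact (Finset.sum_eq_zero_iff_of_nonneg (fun j _ => hnn i j)).mp h1 j (Finset.mem_univ j)

end Pool.Agent.Helper153.Ditt
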