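import Pool.Agent.Helper153.Ditt.Defs
import Pool.Agent.Helper153.Ditt.J18826

set_option autoImplicit false

open scoped BigOperators

namespace Pool.Agent.Helper153.Ditt

variable {n : ℕ}






theorem sort_crit_pm_map {α β α' β' : Type} [DecidableEq α] [DecidableEq β] [DecidableEq α']
    [DecidableEq β'] (a : α' → β' → ℝ) (f : α ↪ α') (g : β ↪ β') (S : Finset α) :
    ∀ T : Finset β, pm (fun i j => a (f i) (g j)) S T = pm a (S.map f) (T.map g) := by
  induction S using Finset.strongInduction with
  | H S ih =>
    intro T
    rcases S.eq_empty_or_nonempty with rfl | ⟨i, hi⟩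
    · rcases T.eq_empty_or_nonempty with rfl | hT
      · rw [Finset.map_empty, Finset.map_empty, pm_empty_empty, pm_empty_empty]
      · rw [Finset.map_empty, pm_empty _ _ hT, pm_empty _ _ (hT.map)]
    · rw [pm_row _ S T i hi, pm_row a (S.map f) (T.map g) (f i) (Finset.mem_map_of_mem f hi),
        Finset.sum_map]
      refine Finset.sum_congr rfl fun j _ => ?_
      rw [ih (S.erase i) (Finset.erase_ssubset hi), Finset.map_erase, Finset.map_erase]

theorem sort_crit {n : ℕ} (A : Fin n → Fin n → ℝ) (hA : Crit A) :
    ∃ s t : Equiv.Perm (Fin n), Crit (fun i j => A (s i) (t j)) ∧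
      Sorted (fun i j => A (s i) (t j)) := by
  obtain ⟨s, hs⟩ : ∃ s : Equiv.Perm (Fin n), Antitone (fun i => rs A (s i)) := by
    refine ⟨Tuple.sort (fun i => - rs A i), ?_⟩
    have h := Tuple.monotone_sort (fun i => - rs A i)
    intro i j hij
    have := h hij
    simp only [Function.comp_apply] at this
    linarith
  obtain ⟨t, ht⟩ : ∃ t : Equiv.Perm (Fin n), Monotone (fun i => cs A (t i)) :=
    ⟨Tuple.sort (cs A), Tuple.monotone_sort (cs A)⟩
  refine ⟨s, t, ?_, ?_⟩
  · have hrs : ∀ i, rs (fun i j => A (s i) (t j)) i = rs A (s i) := by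
      intro i
      exact Equiv.sum_comp t (fun j => A (s i) j)
    have hcs : ∀ j, cs (fun i j => A (s i) (t j)) j = cs A (t j) := by
      intro j
      exact Equiv.sum_comp s (fun i => A i (t j))
    have hRR : RR (fun i j => A (s i) (t j)) = RR A := by
      unfold RR
      rw [Finset.prod_congr rfl (fun i _ => hrs i)]
      exact Equiv.prod_comp s (fun i => rs A i)
    have hCC : CC (fun i j => A (s i) (t j)) = CC A := by
      unfold CC
      rw [Finset.prod_congr rfl (fun i _ => hcs i)]
      exact Equiv.prod_comp t (fun i => cs A i)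
    have hper : per (fun i j => A (s i) (t j)) = per A := by
      unfold per
      have := sort_crit_pm_map A s.toEmbedding t.toEmbedding Finset.univ Finset.univ
      rw [Finset.map_univ_equiv, Finset.map_univ_equiv] at this
      exact this
    have hmn : ∀ i j, mn (fun i j => A (s i) (t j)) i j = mn A (s i) (t j) := by
      intro i j
      unfold mn
      have := sort_crit_pm_map A s.toEmbedding t.toEmbedding (Finset.univ.erase i)
        (Finset.univ.erase j)
      rw [Finset.map_erase, Finset.map_erase, Finset.map_univ_equiv, Finset.map_univ_equiv] at this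
      exact this
    have hxi : ∀ i, xi (fun i j => A (s i) (t j)) i = xi A (s i) := by
      intro i
      unfold xi
      rw [hRR, hrs]
    have hze : ∀ j, ze (fun i j => A (s i) (t j)) j = ze A (t j) := by
      intro j
      unfold ze
      rw [hCC, hcs]
    exact
      { nn := fun i j => hA.nn _ _
        tot := by
          rw [← hA.tot]
          have h1 : ∀ i, ∑ j, A (s i) (t j) = ∑ j, A (s i) j := fun i =>
            Equiv.sum_comp t (fun j => A (s i) j)
          rw [Finset.sum_congr rfl (fun i _ => h1 i)]
          exact Equiv.sum_comp s (fun i => ∑ j, A i j)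
        rpos := fun i => by rw [hrs]; exact hA.rpos _
        cpos := fun j => by rw [hcs]; exact hA.cpos _
        dev := by rw [hRR, hCC, hper]; exact hA.dev
        kkt := fun i j => by rw [hper, hxi, hze, hmn]; exact hA.kkt _ _
        kkt0 := fun i j => by rw [hper, hxi, hze, hmn]; exact hA.kkt0 _ _ }
  · constructor
    · intro i j hij
      have h1 : ∀ i, rs (fun i j => A (s i) (t j)) i = rs A (s i) := fun i =>
        Equiv.sum_comp t (fun j => A (s i) j)
      rw [h1, h1]
      exact hs hij
    · intro i j hij
      have h1 : ∀ j, cs (fun i j => A (s i) (t j)) j = cs A (t j) := fun j =>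
        Equiv.sum_comp s (fun i => A i (t j))
      rw [h1, h1]
      exact ht hij

end Pool.Agent.Helper153.Ditt
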