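import Pool.Agent.Helper153.Ditt.Defs
import Pool.Agent.Helper153.Ditt.J18826
import Pool.Agent.Helper153.Ditt.J18865

set_option autoImplicit false

open scoped BigOperators

namespace Pool.Agent.Helper153.Ditt

variable {n : ℕ}







theorem dual_crit_map {n : ℕ} (a : Fin n → Fin n → ℝ) (S : Finset (Fin n)) :
    ∀ T : Finset (Fin n), pm (fun i j => a (Fin.rev i) (Fin.rev j)) S T =
      pm a (S.map (Fin.revPerm (n := n)).toEmbedding) (T.map (Fin.revPerm (n := n)).toEmbedding) := by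
  induction S using Finset.strongInduction with
  | H S ih =>
    intro T
    rcases S.eq_empty_or_nonempty with rfl | ⟨i, hi⟩
    · rcases T.eq_empty_or_nonempty with rfl | hT
      · rw [Finset.map_empty, pm_empty_empty, pm_empty_empty]
      · rw [Finset.map_empty, pm_empty _ _ hT, pm_empty _ _ (hT.map)]
    · rw [pm_row _ _ _ i hi, pm_row a _ _ (Fin.revPerm i)
        (Finset.mem_map_of_mem _ hi), Finset.sum_map]
      refine Finset.sum_congr rfl fun j _ => ?_
      rw [ih (S.erase i) (Finset.erase_ssubset hi) (T.erase j), Finset.map_erase, Finset.map_erase]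
      rfl

theorem dual_crit_pm {n : ℕ} (A : Fin n → Fin n → ℝ) (S T : Finset (Fin n)) :
    pm (fun i j => A (Fin.rev j) (Fin.rev i)) S T =
      pm A (T.map (Fin.revPerm (n := n)).toEmbedding) (S.map (Fin.revPerm (n := n)).toEmbedding) := by
  rw [pm_transpose]
  exact dual_crit_map A T S

theorem dual_crit_per {n : ℕ} (A : Fin n → Fin n → ℝ) :
    per (fun i j => A (Fin.rev j) (Fin.rev i)) = per A := by
  unfold per
  rw [dual_crit_pm, Finset.map_univ_equiv]

theorem dual_crit_mn {n : ℕ} (A : Fin n → Fin n → ℝ) (i j : Fin n) :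
    mn (fun i j => A (Fin.rev j) (Fin.rev i)) i j = mn A (Fin.rev j) (Fin.rev i) := by
  unfold mn
  rw [dual_crit_pm, Finset.map_erase, Finset.map_erase, Finset.map_univ_equiv]
  rfl

theorem dual_crit_rs {n : ℕ} (A : Fin n → Fin n → ℝ) (i : Fin n) :
    rs (fun i j => A (Fin.rev j) (Fin.rev i)) i = cs A (Fin.rev i) := by
  unfold rs cs
  exact Equiv.sum_comp (Fin.revPerm (n := n)) (fun j => A j (Fin.rev i))

theorem dual_crit_cs {n : ℕ} (A : Fin n → Fin n → ℝ) (j : Fin n) :
    cs (fun i j => A (Fin.rev j) (Fin.rev i)) j = rs A (Fin.rev j) := by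
  unfold rs cs
  exact Equiv.sum_comp (Fin.revPerm (n := n)) (fun i => A (Fin.rev j) i)

theorem dual_crit_RR {n : ℕ} (A : Fin n → Fin n → ℝ) :
    RR (fun i j => A (Fin.rev j) (Fin.rev i)) = CC A := by
  unfold RR CC
  simp only [dual_crit_rs]
  exact Equiv.prod_comp (Fin.revPerm (n := n)) (fun j => cs A j)

theorem dual_crit_CC {n : ℕ} (A : Fin n → Fin n → ℝ) :
    CC (fun i j => A (Fin.rev j) (Fin.rev i)) = RR A := by
  unfold RR CC
  simp only [dual_crit_cs]
  exact Equiv.prod_comp (Fin.revPerm (n := n)) (fun j => rs A j)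

theorem dual_crit_xi {n : ℕ} (A : Fin n → Fin n → ℝ) (i : Fin n) :
    xi (fun i j => A (Fin.rev j) (Fin.rev i)) i = - ze A (Fin.rev i) := by
  unfold xi ze
  rw [dual_crit_RR, dual_crit_rs]
  ring

theorem dual_crit_ze {n : ℕ} (A : Fin n → Fin n → ℝ) (j : Fin n) :
    ze (fun i j => A (Fin.rev j) (Fin.rev i)) j = - xi A (Fin.rev j) := by
  unfold xi ze
  rw [dual_crit_CC, dual_crit_cs]
  ring

theorem dual_crit {n : ℕ} (A : Fin n → Fin n → ℝ) (hA : Crit A) (hs : Sorted A) :
    Crit (fun i j : Fin n => A (Fin.rev j) (Fin.rev i)) ∧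
      Sorted (fun i j : Fin n => A (Fin.rev j) (Fin.rev i)) := by
  refine ⟨⟨fun i j => hA.nn _ _, ?_, ?_, ?_, ?_, ?_, ?_⟩, ⟨?_, ?_⟩⟩
  · have h1 : ∑ i : Fin n, ∑ j : Fin n, A (Fin.rev j) (Fin.rev i) = ∑ i : Fin n, cs A (Fin.rev i) :=
      Finset.sum_congr rfl fun i _ => dual_crit_rs A i
    have h2 : ∑ i : Fin n, cs A (Fin.rev i) = ∑ j, cs A j :=
      Equiv.sum_comp (Fin.revPerm (n := n)) (fun j => cs A j)
    rw [h1, h2]
    unfold cs
    rw [Finset.sum_comm]
    exact hA.tot
  · intro i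
    rw [dual_crit_rs]
    exact hA.cpos _
  · intro j
    rw [dual_crit_cs]
    exact hA.rpos _
  · rw [dual_crit_RR, dual_crit_CC, dual_crit_per]
    have := hA.dev
    linarith
  · intro i j
    rw [dual_crit_per, dual_crit_xi, dual_crit_ze, dual_crit_mn]
    have := hA.kkt (Fin.rev j) (Fin.rev i)
    linarith
  · intro i j
    rw [dual_crit_per, dual_crit_xi, dual_crit_ze, dual_crit_mn]
    have := hA.kkt0 (Fin.rev j) (Fin.rev i)
    rw [← this]
    ring
  · intro i j hij
    rw [dual_crit_rs, dual_crit_rs]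
    exact hs.cm (Fin.rev_le_rev.2 hij)
  · intro i j hij
    rw [dual_crit_cs, dual_crit_cs]
    exact hs.ra (Fin.rev_le_rev.2 hij)

end Pool.Agent.Helper153.Ditt
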