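import Pool.Agent.Helper153.Ditt.Defs
import Pool.Agent.Helper153.Ditt.J18826

set_option autoImplicit false

open scoped BigOperators

namespace Pool.Agent.Helper153.Ditt

variable {n : ℕ}



theorem flow_aux {n : ℕ} (f : Fin n → Fin n → ℝ) (I J : Finset (Fin n)) :
    ∑ i ∈ I, ∑ j ∈ Jᶜ, f i j - ∑ i ∈ Iᶜ, ∑ j ∈ J, f i j
      = ∑ i ∈ I, ∑ j, f i j - ∑ j ∈ J, ∑ i, f i j := by
  have h1 : ∀ i, ∑ j ∈ Jᶜ, f i j = ∑ j, f i j - ∑ j ∈ J, f i j := by
    intro i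
    rw [← Finset.sum_add_sum_compl J (fun j => f i j)]; ring
  have h2 : ∀ j, ∑ i ∈ Iᶜ, f i j = ∑ i, f i j - ∑ i ∈ I, f i j := by
    intro j
    rw [← Finset.sum_add_sum_compl I (fun i => f i j)]; ring
  rw [Finset.sum_comm (s := Iᶜ)]
  simp only [h1, h2, Finset.sum_sub_distrib]
  rw [Finset.sum_comm (s := I) (t := J)]
  ring

theorem row_d {n : ℕ} (A : Fin n → Fin n → ℝ) (hA : Crit A) (i : Fin n) :
    ∑ j, A i j * (xi A i - ze A j) = per A * (rs A i - 1) := by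
  have hper : per A = ∑ j, A i j * mn A i j :=
    pm_row A Finset.univ Finset.univ i (Finset.mem_univ i)
  have h1 : ∀ j, A i j * (xi A i - ze A j) = A i j * per A - A i j * mn A i j := by
    intro j
    have := hA.kkt0 i j
    linarith
  simp only [h1, Finset.sum_sub_distrib, ← Finset.sum_mul]
  rw [← hper]
  unfold rs
  ring

theorem col_d {n : ℕ} (A : Fin n → Fin n → ℝ) (hA : Crit A) (j : Fin n) :
    ∑ i, A i j * (xi A i - ze A j) = per A * (cs A j - 1) := by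
  have hper : per A = ∑ i, A i j * mn A i j :=
    pm_col A Finset.univ Finset.univ j (Finset.mem_univ j)
  have h1 : ∀ i, A i j * (xi A i - ze A j) = A i j * per A - A i j * mn A i j := by
    intro i
    have := hA.kkt0 i j
    linarith
  simp only [h1, Finset.sum_sub_distrib, ← Finset.sum_mul]
  rw [← hper]
  unfold cs
  ring

theorem flow {n : ℕ} (A : Fin n → Fin n → ℝ) (hA : Crit A) (I J : Finset (Fin n)) :
    ∑ i ∈ I, ∑ j ∈ Jᶜ, A i j * (xi A i - ze A j) - ∑ i ∈ Iᶜ, ∑ j ∈ J, A i j * (xi A i - ze A j)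
      = per A * (∑ i ∈ I, (rs A i - 1) - ∑ j ∈ J, (cs A j - 1)) := by
  rw [flow_aux]
  simp only [row_d A hA, col_d A hA, ← Finset.mul_sum]
  ring

theorem mass {n : ℕ} (A : Fin n → Fin n → ℝ) (I J : Finset (Fin n)) :
    ∑ i ∈ I, ∑ j ∈ Jᶜ, A i j - ∑ i ∈ Iᶜ, ∑ j ∈ J, A i j
      = ∑ i ∈ I, rs A i - ∑ j ∈ J, cs A j := by
  rw [flow_aux]
  rfl

end Pool.Agent.Helper153.Ditt
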