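import Pool.Agent.Helper153.Ditt.Defs
import Pool.Agent.Helper153.Ditt.J18826
import Pool.Agent.Helper153.Ditt.J19043
import Pool.Agent.Helper153.Ditt.J19150
import Pool.Agent.Helper153.Ditt.J19206

set_option autoImplicit false

open scoped BigOperators

namespace Pool.Agent.Helper153.Ditt

variable {n : ℕ}








theorem Q_rows {n : ℕ} (A : Fin n → Fin n → ℝ) (hA : Crit A) (hP : 0 < per A) (i k : Fin n)
    (hik : rs A i ≤ rs A k) : ∑ j, A i j * mn A k j ≤ per A := by
  by_cases hne : i = k
  · subst hne
    have := pm_row A Finset.univ Finset.univ i (Finset.mem_univ i)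
    unfold per
    rw [this]
    rfl
  · have hAF := AF_rows A hA.nn i k hne
    have hRR : 0 < RR A := Finset.prod_pos fun i _ => hA.rpos i
    have hx : 0 ≤ xi A k - xi A i := by
      have h1 : RR A / rs A k ≤ RR A / rs A i := div_le_div_of_nonneg_left hRR.le (hA.rpos i) hik
      unfold xi
      linarith
    have hrow := row_d A hA k
    have e1 : ∑ j, A k j * (xi A k - ze A j) = rs A k * xi A k - ∑ j, A k j * ze A j := by
      unfold rs
      rw [Finset.sum_mul, ← Finset.sum_sub_distrib]
      exact Finset.sum_congr rfl fun j _ => by ring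
    have e2 : ∑ j, A k j * (per A - xi A i + ze A j) =
        rs A k * (per A - xi A i) + ∑ j, A k j * ze A j := by
      unfold rs
      rw [Finset.sum_mul, ← Finset.sum_add_distrib]
      exact Finset.sum_congr rfl fun j _ => by ring
    have hQ2 : ∑ j, A k j * (per A - xi A i + ze A j) ≤ ∑ j, A k j * mn A i j :=
      Finset.sum_le_sum fun j _ => mul_le_mul_of_nonneg_left (hA.kkt i j) (hA.nn k j)
    have h3 : 0 ≤ rs A k * (xi A k - xi A i) := mul_nonneg (hA.rpos k).le hx
    have hQ2' : per A ≤ ∑ j, A k j * mn A i j := by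
      rw [e1] at hrow
      rw [e2] at hQ2
      nlinarith
    by_contra hcon
    push Not at hcon
    nlinarith

theorem Q_cols {n : ℕ} (A : Fin n → Fin n → ℝ) (hA : Crit A) (hP : 0 < per A) (j l : Fin n)
    (hjl : cs A j ≤ cs A l) : ∑ i, A i j * mn A i l ≤ per A := by
  by_cases hne : j = l
  · subst hne
    have := pm_col A Finset.univ Finset.univ j (Finset.mem_univ j)
    unfold per
    rw [this]
    rfl
  · have hAF := AF_cols A hA.nn j l hne
    have hCC : 0 < CC A := Finset.prod_pos fun j _ => hA.cpos j
    have hz : 0 ≤ ze A j - ze A l := by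
      have h1 : CC A / cs A l ≤ CC A / cs A j := div_le_div_of_nonneg_left hCC.le (hA.cpos j) hjl
      unfold ze
      linarith
    have hcol := col_d A hA l
    have e1 : ∑ i, A i l * (xi A i - ze A l) = ∑ i, A i l * xi A i - cs A l * ze A l := by
      unfold cs
      rw [Finset.sum_mul, ← Finset.sum_sub_distrib]
      exact Finset.sum_congr rfl fun j _ => by ring
    have e2 : ∑ i, A i l * (per A - xi A i + ze A j) =
        cs A l * (per A + ze A j) - ∑ i, A i l * xi A i := by
      unfold cs
      rw [Finset.sum_mul, ← Finset.sum_sub_distrib]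
      exact Finset.sum_congr rfl fun j _ => by ring
    have hQ2 : ∑ i, A i l * (per A - xi A i + ze A j) ≤ ∑ i, A i l * mn A i j :=
      Finset.sum_le_sum fun i _ => mul_le_mul_of_nonneg_left (hA.kkt i j) (hA.nn i l)
    have h3 : 0 ≤ cs A l * (ze A j - ze A l) := mul_nonneg (hA.cpos l).le hz
    have hQ2' : per A ≤ ∑ i, A i l * mn A i j := by
      rw [e1] at hcol
      rw [e2] at hQ2
      nlinarith
    by_contra hcon
    push Not at hcon
    nlinarith

end Pool.Agent.Helper153.Ditt
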