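import Pool.Agent.Helper153.Ditt.Defs
import Pool.Agent.Helper153.Ditt.J18826
import Pool.Agent.Helper153.Ditt.J18875
import Pool.Agent.Helper153.Ditt.J18923

set_option autoImplicit false

open scoped BigOperators

namespace Pool.Agent.Helper153.Ditt

variable {n : ℕ}






theorem switch_main {n : ℕ} (A : Fin n → Fin n → ℝ) (h0 : ∀ i j, 0 ≤ A i j)
    (I J : Finset (Fin n)) (i₀ j₀ : Fin n) (hi₀ : i₀ ∈ I)
    (hQ : ∀ i ∈ I, ∑ j, A i₀ j * mn A i j ≤ per A)
    (hQ' : ∀ c ∈ Jᶜ, ∑ i, A i j₀ * mn A i c ≤ per A) :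
    (pm A I J * pm A Iᶜ Jᶜ) * (∑ i ∈ Iᶜ, ∑ j ∈ J, A i j₀ * A i₀ j * mn A i j) ≤
      (per A) ^ 2 * ∑ i ∈ I, ∑ c ∈ Jᶜ, A i c := by
  have hmn : ∀ i j, 0 ≤ mn A i j := fun i j => pm_nonneg A h0 _ _
  have hper : 0 ≤ per A := pm_nonneg A h0 _ _
  have hP' : 0 ≤ pm A Iᶜ Jᶜ := pm_nonneg A h0 _ _
  have hq : ∀ i j, 0 ≤ pm A (I.erase i) (J.erase j) := fun i j => pm_nonneg A h0 _ _
  have stepA : ∀ i ∈ Iᶜ, ∀ j ∈ J, pm A I J * mn A i j ≤
      ∑ i' ∈ I, pm A (I.erase i') (J.erase j) * ∑ c ∈ Jᶜ, A i' c * mn A i c := by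
    intro i hi j hj
    have hsub : I ⊆ Finset.univ.erase i := by
      intro x hx
      rw [Finset.mem_erase]
      refine ⟨?_, Finset.mem_univ x⟩
      intro e
      subst e
      exact (Finset.mem_compl.1 hi) hx
    have h := pm_switch A h0 I (Finset.univ.erase i) J Finset.univ hsub (Finset.subset_univ J) j hj
    rw [← Finset.compl_eq_univ_sdiff] at h
    exact h
  have stepB : ∀ i' ∈ I, ∀ j ∈ J, pm A (I.erase i') (J.erase j) * pm A Iᶜ Jᶜ ≤ mn A i' j := by
    intro i' hi' j hj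
    have h := pm_mul_le A h0 (I.erase i') (Finset.univ.erase i') (J.erase j) (Finset.univ.erase j)
      (Finset.erase_subset_erase _ (Finset.subset_univ I))
      (Finset.erase_subset_erase _ (Finset.subset_univ J))
    have e1 : (Finset.univ.erase i') \ (I.erase i') = Iᶜ := by
      ext x
      simp only [Finset.mem_sdiff, Finset.mem_erase, Finset.mem_compl, Finset.mem_univ, and_true]
      constructor
      · rintro ⟨h1, h2⟩ h3
        exact h2 ⟨h1, h3⟩
      · intro h1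
        refine ⟨?_, fun h2 => h1 h2.2⟩
        intro e
        subst e
        exact h1 hi'
    have e2 : (Finset.univ.erase j) \ (J.erase j) = Jᶜ := by
      ext x
      simp only [Finset.mem_sdiff, Finset.mem_erase, Finset.mem_compl, Finset.mem_univ, and_true]
      constructor
      · rintro ⟨h1, h2⟩ h3
        exact h2 ⟨h1, h3⟩
      · intro h1
        refine ⟨?_, fun h2 => h1 h2.2⟩
        intro e
        subst e
        exact h1 hj
    rw [e1, e2] at h
    exact h
  calc (pm A I J * pm A Iᶜ Jᶜ) * (∑ i ∈ Iᶜ, ∑ j ∈ J, A i j₀ * A i₀ j * mn A i j)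
      = ∑ i ∈ Iᶜ, ∑ j ∈ J, (A i j₀ * A i₀ j * pm A Iᶜ Jᶜ) * (pm A I J * mn A i j) := by
        rw [Finset.mul_sum]
        apply Finset.sum_congr rfl
        intro i _
        rw [Finset.mul_sum]
        apply Finset.sum_congr rfl
        intro j _
        ring
    _ ≤ ∑ i ∈ Iᶜ, ∑ j ∈ J, (A i j₀ * A i₀ j * pm A Iᶜ Jᶜ) *
          (∑ i' ∈ I, pm A (I.erase i') (J.erase j) * ∑ c ∈ Jᶜ, A i' c * mn A i c) := by
        apply Finset.sum_le_sum
        intro i hi
        apply Finset.sum_le_sum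
        intro j hj
        exact mul_le_mul_of_nonneg_left (stepA i hi j hj)
          (mul_nonneg (mul_nonneg (h0 _ _) (h0 _ _)) hP')
    _ = ∑ i ∈ Iᶜ, ∑ j ∈ J, ∑ i' ∈ I, (A i₀ j * (pm A (I.erase i') (J.erase j) * pm A Iᶜ Jᶜ)) *
          (A i j₀ * ∑ c ∈ Jᶜ, A i' c * mn A i c) := by
        apply Finset.sum_congr rfl
        intro i _
        apply Finset.sum_congr rfl
        intro j _
        rw [Finset.mul_sum]
        apply Finset.sum_congr rfl
        intro i' _
        ring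
    _ = ∑ j ∈ J, ∑ i ∈ Iᶜ, ∑ i' ∈ I, (A i₀ j * (pm A (I.erase i') (J.erase j) * pm A Iᶜ Jᶜ)) *
          (A i j₀ * ∑ c ∈ Jᶜ, A i' c * mn A i c) := Finset.sum_comm
    _ = ∑ j ∈ J, ∑ i' ∈ I, ∑ i ∈ Iᶜ, (A i₀ j * (pm A (I.erase i') (J.erase j) * pm A Iᶜ Jᶜ)) *
          (A i j₀ * ∑ c ∈ Jᶜ, A i' c * mn A i c) := by
        apply Finset.sum_congr rfl
        intro j _
        exact Finset.sum_comm
    _ = ∑ i' ∈ I, ∑ j ∈ J, ∑ i ∈ Iᶜ, (A i₀ j * (pm A (I.erase i') (J.erase j) * pm A Iᶜ Jᶜ)) *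
          (A i j₀ * ∑ c ∈ Jᶜ, A i' c * mn A i c) := Finset.sum_comm
    _ = ∑ i' ∈ I, (∑ j ∈ J, A i₀ j * (pm A (I.erase i') (J.erase j) * pm A Iᶜ Jᶜ)) *
          (∑ c ∈ Jᶜ, A i' c * ∑ i ∈ Iᶜ, A i j₀ * mn A i c) := by
        apply Finset.sum_congr rfl
        intro i' _
        rw [← Finset.sum_mul_sum]
        congr 1
        simp only [Finset.mul_sum]
        rw [Finset.sum_comm]
        apply Finset.sum_congr rfl
        intro c _
        apply Finset.sum_congr rfl
        intro i _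
        ring
    _ ≤ ∑ i' ∈ I, per A * (∑ c ∈ Jᶜ, A i' c * per A) := by
        apply Finset.sum_le_sum
        intro i' hi'
        apply mul_le_mul
        · calc ∑ j ∈ J, A i₀ j * (pm A (I.erase i') (J.erase j) * pm A Iᶜ Jᶜ)
              ≤ ∑ j ∈ J, A i₀ j * mn A i' j :=
                Finset.sum_le_sum (fun j hj => mul_le_mul_of_nonneg_left (stepB i' hi' j hj) (h0 _ _))
            _ ≤ ∑ j, A i₀ j * mn A i' j :=
                Finset.sum_le_sum_of_subset_of_nonneg (Finset.subset_univ J)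
                  (fun j _ _ => mul_nonneg (h0 _ _) (hmn _ _))
            _ ≤ per A := hQ i' hi'
        · apply Finset.sum_le_sum
          intro c hc
          apply mul_le_mul_of_nonneg_left _ (h0 _ _)
          calc ∑ i ∈ Iᶜ, A i j₀ * mn A i c ≤ ∑ i, A i j₀ * mn A i c :=
                Finset.sum_le_sum_of_subset_of_nonneg (Finset.subset_univ _)
                  (fun i _ _ => mul_nonneg (h0 _ _) (hmn _ _))
            _ ≤ per A := hQ' c hc
        · apply Finset.sum_nonneg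
          intro c _
          exact mul_nonneg (h0 _ _) (Finset.sum_nonneg (fun i _ => mul_nonneg (h0 _ _) (hmn _ _)))
        · exact hper
    _ = (per A) ^ 2 * ∑ i ∈ I, ∑ c ∈ Jᶜ, A i c := by
        rw [Finset.mul_sum]
        apply Finset.sum_congr rfl
        intro i' _
        rw [← Finset.sum_mul]
        ring

end Pool.Agent.Helper153.Ditt
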