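import Pool.Agent.Helper153.Ditt.Defs
import Pool.Agent.Helper153.Ditt.J19206

set_option autoImplicit false

open scoped BigOperators

namespace Pool.Agent.Helper153.Ditt

variable {n : ℕ}



theorem RR_pos {n : ℕ} {A : Fin n → Fin n → ℝ} (hA : Crit A) : 0 < RR A :=
  Finset.prod_pos fun i _ => hA.rpos i

theorem CC_pos {n : ℕ} {A : Fin n → Fin n → ℝ} (hA : Crit A) : 0 < CC A :=
  Finset.prod_pos fun i _ => hA.cpos i

theorem xi_anti {n : ℕ} {A : Fin n → Fin n → ℝ} (hA : Crit A) (hs : Sorted A) :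
    Antitone (xi A) := by
  intro i j hij
  unfold xi
  have h1 := hs.ra hij
  have h2 := div_le_div_of_nonneg_left (RR_pos hA).le (hA.rpos j) h1
  linarith

theorem ze_anti {n : ℕ} {A : Fin n → Fin n → ℝ} (hA : Crit A) (hs : Sorted A) :
    Antitone (ze A) := by
  intro i j hij
  unfold ze
  have h1 := hs.cm hij
  have h2 := div_le_div_of_nonneg_left (CC_pos hA).le (hA.cpos i) h1
  linarith

theorem mem_fst {n k : ℕ} {i : Fin n} : i ∈ fst n k ↔ (i : ℕ) < k := by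
  simp [fst]

theorem sum_ge {n : ℕ} (A d : Fin n → Fin n → ℝ) (I J : Finset (Fin n)) (u : ℝ)
    (h : ∀ i ∈ I, ∀ j ∈ J, 0 ≤ A i j ∧ u ≤ d i j) :
    u * ∑ i ∈ I, ∑ j ∈ J, A i j ≤ ∑ i ∈ I, ∑ j ∈ J, A i j * d i j := by
  rw [Finset.mul_sum]
  refine Finset.sum_le_sum fun i hi => ?_
  rw [Finset.mul_sum]
  refine Finset.sum_le_sum fun j hj => ?_
  rw [mul_comm]
  exact mul_le_mul_of_nonneg_left (h i hi j hj).2 (h i hi j hj).1

theorem sum_le' {n : ℕ} (A d : Fin n → Fin n → ℝ) (I J : Finset (Fin n)) (u : ℝ)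
    (h : ∀ i ∈ I, ∀ j ∈ J, 0 ≤ A i j ∧ d i j ≤ u) :
    ∑ i ∈ I, ∑ j ∈ J, A i j * d i j ≤ u * ∑ i ∈ I, ∑ j ∈ J, A i j := by
  rw [Finset.mul_sum]
  refine Finset.sum_le_sum fun i hi => ?_
  rw [Finset.mul_sum]
  refine Finset.sum_le_sum fun j hj => ?_
  rw [mul_comm u]
  exact mul_le_mul_of_nonneg_left (h i hi j hj).2 (h i hi j hj).1

theorem cut_mass' {n : ℕ} (A : Fin n → Fin n → ℝ) (k : ℕ) :
    ∑ i ∈ fst n k, ∑ j ∈ (fst n k)ᶜ, A i j = XX A k + ∑ i ∈ (fst n k)ᶜ, ∑ j ∈ fst n k, A i j := by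
  have h := mass A (fst n k) (fst n k)
  unfold XX
  rw [Finset.sum_sub_distrib, Finset.sum_sub_distrib]
  linarith

theorem cut_aux {n : ℕ} (A : Fin n → Fin n → ℝ) (hA : Crit A) (hs : Sorted A) (k : ℕ)
    (p q : Fin n) (hp : (p : ℕ) + 1 = k) (hq : (q : ℕ) = k) :
    (xi A p - ze A q) * (∑ i ∈ fst n k, ∑ j ∈ (fst n k)ᶜ, A i j) +
      (ze A p - xi A q) * (∑ i ∈ (fst n k)ᶜ, ∑ j ∈ fst n k, A i j) ≤ per A * XX A k := by
  have hf := flow A hA (fst n k) (fst n k)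
  have h1 := sum_ge A (fun i j => xi A i - ze A j) (fst n k) (fst n k)ᶜ (xi A p - ze A q) (by
    intro i hi j hj
    rw [mem_fst] at hi
    rw [Finset.mem_compl, mem_fst] at hj
    refine ⟨hA.nn i j, ?_⟩
    have a1 := xi_anti hA hs (show i ≤ p from Fin.le_def.mpr (by omega))
    have a2 := ze_anti hA hs (show q ≤ j from Fin.le_def.mpr (by omega))
    linarith)
  have h2 := sum_le' A (fun i j => xi A i - ze A j) (fst n k)ᶜ (fst n k) (xi A q - ze A p) (by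
    intro i hi j hj
    rw [mem_fst] at hj
    rw [Finset.mem_compl, mem_fst] at hi
    refine ⟨hA.nn i j, ?_⟩
    have a1 := xi_anti hA hs (show q ≤ i from Fin.le_def.mpr (by omega))
    have a2 := ze_anti hA hs (show j ≤ p from Fin.le_def.mpr (by omega))
    linarith)
  have e : XX A k = ∑ i ∈ fst n k, (rs A i - 1) - ∑ j ∈ fst n k, (cs A j - 1) := rfl
  rw [← e] at hf
  rw [← hf]
  have e2 : (ze A p - xi A q) * (∑ i ∈ (fst n k)ᶜ, ∑ j ∈ fst n k, A i j) =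
    -((xi A q - ze A p) * (∑ i ∈ (fst n k)ᶜ, ∑ j ∈ fst n k, A i j)) := by ring
  rw [e2]
  linarith

theorem cut_A {n : ℕ} (A : Fin n → Fin n → ℝ) (hA : Crit A) (hs : Sorted A) (k : ℕ)
    (p q : Fin n) (hp : (p : ℕ) + 1 = k) (hq : (q : ℕ) = k) :
    (∑ i ∈ fst n k, ∑ j ∈ (fst n k)ᶜ, A i j) * ((xi A p - ze A q) + (ze A p - xi A q)) ≤
      XX A k * (per A + (ze A p - xi A q)) := by
  have h1 := cut_aux A hA hs k p q hp hq
  have h2 := cut_mass' A k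
  have h3 : ∑ i ∈ (fst n k)ᶜ, ∑ j ∈ fst n k, A i j =
    ∑ i ∈ fst n k, ∑ j ∈ (fst n k)ᶜ, A i j - XX A k := by linarith
  rw [h3] at h1
  nlinarith

theorem cut_mass {n : ℕ} (A : Fin n → Fin n → ℝ) (hA : Crit A) (k : ℕ) :
    ∑ i ∈ fst n k, ∑ j ∈ (fst n k)ᶜ, A i j = XX A k + ∑ i ∈ (fst n k)ᶜ, ∑ j ∈ fst n k, A i j :=
  cut_mass' A k

theorem cut_B {n : ℕ} (A : Fin n → Fin n → ℝ) (hA : Crit A) (hs : Sorted A) (k : ℕ)
    (p q : Fin n) (hp : (p : ℕ) + 1 = k) (hq : (q : ℕ) = k) (hX : 0 < XX A k) :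
    xi A p - ze A q ≤ per A := by
  have h1 := cut_aux A hA hs k p q hp hq
  rw [cut_mass' A k] at h1
  have a1 := xi_anti hA hs (show p ≤ q from Fin.le_def.mpr (by omega))
  have a2 := ze_anti hA hs (show p ≤ q from Fin.le_def.mpr (by omega))
  have h2 : 0 ≤ ∑ i ∈ (fst n k)ᶜ, ∑ j ∈ fst n k, A i j :=
    Finset.sum_nonneg fun i _ => Finset.sum_nonneg fun j _ => hA.nn i j
  have h3 : 0 ≤ ((xi A p - xi A q) + (ze A p - ze A q)) *
      ∑ i ∈ (fst n k)ᶜ, ∑ j ∈ fst n k, A i j := mul_nonneg (by linarith) h2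
  have h4 : (xi A p - ze A q) * XX A k ≤ per A * XX A k := by
    nlinarith
  exact le_of_mul_le_mul_right h4 hX

theorem cut_eta {n : ℕ} (A : Fin n → Fin n → ℝ) (hA : Crit A) (hs : Sorted A)
    (p : Fin n)
    (hX : ∑ i ∈ fst n (p : ℕ), (rs A i - 1) - ∑ j ∈ fst n ((p : ℕ) + 1), (cs A j - 1) < 1) :
    (ze A p - xi A p) *
      (1 - (∑ i ∈ fst n (p : ℕ), (rs A i - 1) - ∑ j ∈ fst n ((p : ℕ) + 1), (cs A j - 1))) ≤
      per A * (∑ i ∈ fst n (p : ℕ), (rs A i - 1) - ∑ j ∈ fst n ((p : ℕ) + 1), (cs A j - 1)) := by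
  have c1 : (fst n (p : ℕ)).card = (p : ℕ) := by
    have : fst n (p : ℕ) = Finset.Iio p := by
      ext i
      rw [mem_fst, Finset.mem_Iio, Fin.lt_def]
    rw [this, Fin.card_Iio]
  have c2 : (fst n ((p : ℕ) + 1)).card = (p : ℕ) + 1 := by
    have : fst n ((p : ℕ) + 1) = Finset.Iic p := by
      ext i
      rw [mem_fst, Finset.mem_Iic, Fin.le_def, Nat.lt_succ_iff]
    rw [this, Fin.card_Iic]
  have hf := flow A hA (fst n (p : ℕ)) (fst n ((p : ℕ) + 1))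
  have hm := mass A (fst n (p : ℕ)) (fst n ((p : ℕ) + 1))
  have h1 := sum_ge A (fun i j => xi A i - ze A j) (fst n (p : ℕ)) (fst n ((p : ℕ) + 1))ᶜ
    (xi A p - ze A p) (by
    intro i hi j hj
    rw [mem_fst] at hi
    rw [Finset.mem_compl, mem_fst] at hj
    refine ⟨hA.nn i j, ?_⟩
    have a1 := xi_anti hA hs (show i ≤ p from Fin.le_def.mpr (by omega))
    have a2 := ze_anti hA hs (show p ≤ j from Fin.le_def.mpr (by omega))
    linarith)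
  have h2 := sum_le' A (fun i j => xi A i - ze A j) (fst n (p : ℕ))ᶜ (fst n ((p : ℕ) + 1))
    (xi A p - ze A p) (by
    intro i hi j hj
    rw [mem_fst] at hj
    rw [Finset.mem_compl, mem_fst] at hi
    refine ⟨hA.nn i j, ?_⟩
    have a1 := xi_anti hA hs (show p ≤ i from Fin.le_def.mpr (by omega))
    have a2 := ze_anti hA hs (show j ≤ p from Fin.le_def.mpr (by omega))
    linarith)
  rw [← hf]
  have hr : ∑ i ∈ fst n (p : ℕ), (rs A i - 1) = ∑ i ∈ fst n (p : ℕ), rs A i - (p : ℕ) := by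
    rw [Finset.sum_sub_distrib, Finset.sum_const, c1]; simp
  have hc : ∑ i ∈ fst n ((p : ℕ) + 1), (cs A i - 1) =
      ∑ i ∈ fst n ((p : ℕ) + 1), cs A i - ((p : ℕ) + 1) := by
    rw [Finset.sum_sub_distrib, Finset.sum_const, c2]; simp
  rw [hr, hc]
  have e1 : 1 - (∑ i ∈ fst n (p : ℕ), rs A i - (p : ℕ) -
      (∑ i ∈ fst n ((p : ℕ) + 1), cs A i - ((p : ℕ) + 1))) =
      ∑ i ∈ (fst n (p : ℕ))ᶜ, ∑ j ∈ fst n ((p : ℕ) + 1), A i j -
        ∑ i ∈ fst n (p : ℕ), ∑ j ∈ (fst n ((p : ℕ) + 1))ᶜ, A i j := by linarith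
  rw [e1]
  have e2 : (ze A p - xi A p) * (∑ i ∈ (fst n (p : ℕ))ᶜ, ∑ j ∈ fst n ((p : ℕ) + 1), A i j -
        ∑ i ∈ fst n (p : ℕ), ∑ j ∈ (fst n ((p : ℕ) + 1))ᶜ, A i j) =
      (xi A p - ze A p) * ∑ i ∈ fst n (p : ℕ), ∑ j ∈ (fst n ((p : ℕ) + 1))ᶜ, A i j -
      (xi A p - ze A p) * ∑ i ∈ (fst n (p : ℕ))ᶜ, ∑ j ∈ fst n ((p : ℕ) + 1), A i j := by ring
  rw [e2]
  linarith

end Pool.Agent.Helper153.Ditt
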