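import Pool.Agent.Helper153.Ditt.Defs
import Pool.Agent.Helper153.Ditt.J18826
import Pool.Agent.Helper153.Ditt.J18909
import Pool.Agent.Helper153.Ditt.J19210
import Pool.Agent.Helper153.Ditt.J19213
import Pool.Agent.Helper153.Ditt.J19217

set_option autoImplicit false

open scoped BigOperators

namespace Pool.Agent.Helper153.Ditt

variable {n : ℕ}









theorem cut_S {n : ℕ} (A : Fin n → Fin n → ℝ) (hA : Crit A) (hs : Sorted A) (hP : 0 < per A)
    (k : ℕ) (p q : Fin n) (hp : (p : ℕ) + 1 = k) (hq : (q : ℕ) = k) (hX : 0 < XX A k)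
    (ε : ℝ) (hε : ε = ∑ i ∈ fst n k, ∑ j ∈ (fst n k)ᶜ, A i j)
    (h1 : ε ≤ rs A p) (h2 : ε ≤ cs A q)
    (h3 : 0 ≤ per A - (per A - (xi A p - ze A q)) * ε) :
    (per A + (ze A p - xi A q)) * (per A - (per A - (xi A p - ze A q)) * ε)
      * ((rs A p - ε) * (cs A q - ε)) ≤ ε * (per A) ^ 2 := by
  have hFm : ∀ i : Fin n, i ∈ fst n k ↔ (i : ℕ) < k := by
    intro i; simp [fst]
  have hFc : ∀ i : Fin n, i ∈ (fst n k)ᶜ ↔ k ≤ (i : ℕ) := by
    intro i; rw [Finset.mem_compl, hFm]; omega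
  have hpF : p ∈ fst n k := (hFm p).2 (by omega)
  have hqF : q ∈ (fst n k)ᶜ := (hFc q).2 (by omega)
  have hle : ∀ i ∈ fst n k, i ≤ p := fun i hi => by
    rw [hFm] at hi; exact Fin.le_def.2 (by omega)
  have hge : ∀ i ∈ (fst n k)ᶜ, q ≤ i := fun i hi => by
    rw [hFc] at hi; exact Fin.le_def.2 (by omega)
  have hR : 0 ≤ RR A := Finset.prod_nonneg fun i _ => (hA.rpos i).le
  have hC : 0 ≤ CC A := Finset.prod_nonneg fun i _ => (hA.cpos i).le
  have hxi : ∀ i j : Fin n, i ≤ j → xi A j ≤ xi A i := by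
    intro i j hij
    have h4 := hs.ra hij
    have h5 : RR A / rs A i ≤ RR A / rs A j := div_le_div_of_nonneg_left hR (hA.rpos j) h4
    unfold xi
    linarith
  have hze : ∀ i j : Fin n, i ≤ j → ze A j ≤ ze A i := by
    intro i j hij
    have h4 := hs.cm hij
    have h5 : CC A / cs A j ≤ CC A / cs A i := div_le_div_of_nonneg_left hC (hA.cpos i) h4
    unfold ze
    linarith
  have hpq : p ≤ q := Fin.le_def.2 (by omega)
  have hu := cut_B A hA hs k p q hp hq hX
  have huv1 := hxi p q hpq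
  have huv2 := hze p q hpq
  have hPv : 0 ≤ per A + (ze A p - xi A q) := by linarith
  -- (a)
  have ha : per A - (per A - (xi A p - ze A q)) * ε ≤
      pm A (fst n k) (fst n k) * pm A (fst n k)ᶜ (fst n k)ᶜ := by
    have h4 := pm_cross A hA.nn (fst n k) Finset.univ (fst n k) Finset.univ
      (Finset.subset_univ _) (Finset.subset_univ _) rfl
    have h5 : ∑ i ∈ fst n k, ∑ c ∈ Finset.univ \ fst n k,
        A i c * pm A (Finset.univ.erase i) (Finset.univ.erase c) ≤
        (per A - (xi A p - ze A q)) * ε := by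
      rw [hε, Finset.mul_sum, ← Finset.compl_eq_univ_sdiff]
      refine Finset.sum_le_sum fun i hi => ?_
      rw [Finset.mul_sum]
      refine Finset.sum_le_sum fun c hc => ?_
      have h6 := hA.kkt0 i c
      have h7 : A i c * pm A (Finset.univ.erase i) (Finset.univ.erase c) =
          A i c * (per A - xi A i + ze A c) := by
        have : pm A (Finset.univ.erase i) (Finset.univ.erase c) = mn A i c := rfl
        rw [this]; linarith
      rw [h7, mul_comm]
      apply mul_le_mul_of_nonneg_right _ (hA.nn i c)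
      have h8 := hxi i p (hle i hi)
      have h9 := hze q c (hge c hc)
      linarith
    rw [← Finset.compl_eq_univ_sdiff] at h4 h5
    have h6 : pm A Finset.univ Finset.univ = per A := rfl
    rw [h6] at h4
    linarith
  -- (b)
  have hS1 : cs A q - ε ≤ ∑ i ∈ (fst n k)ᶜ, A i q := by
    have h4 : ∑ i ∈ fst n k, A i q + ∑ i ∈ (fst n k)ᶜ, A i q = cs A q :=
      Finset.sum_add_sum_compl _ _
    have h5 : ∑ i ∈ fst n k, A i q ≤ ε := by
      rw [hε]
      refine Finset.sum_le_sum fun i _ => ?_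
      exact Finset.single_le_sum (f := fun j => A i j) (fun j _ => hA.nn i j) hqF
    linarith
  have hS2 : rs A p - ε ≤ ∑ j ∈ fst n k, A p j := by
    have h4 : ∑ j ∈ fst n k, A p j + ∑ j ∈ (fst n k)ᶜ, A p j = rs A p :=
      Finset.sum_add_sum_compl _ _
    have h5 : ∑ j ∈ (fst n k)ᶜ, A p j ≤ ε := by
      rw [hε]
      exact Finset.single_le_sum (f := fun i => ∑ j ∈ (fst n k)ᶜ, A i j)
        (fun i _ => Finset.sum_nonneg fun j _ => hA.nn i j) hpF
    linarith
  have hb : (per A + (ze A p - xi A q)) * ((∑ j ∈ fst n k, A p j) * ∑ i ∈ (fst n k)ᶜ, A i q) ≤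
      ∑ i ∈ (fst n k)ᶜ, ∑ j ∈ fst n k, A i q * A p j * mn A i j := by
    rw [Finset.sum_mul_sum, Finset.sum_comm, Finset.mul_sum]
    refine Finset.sum_le_sum fun i hi => ?_
    rw [Finset.mul_sum]
    refine Finset.sum_le_sum fun j hj => ?_
    have h4 := hA.kkt i j
    have h5 := hxi q i (hge i hi)
    have h6 := hze j p (hle j hj)
    have h7 : per A + (ze A p - xi A q) ≤ mn A i j := by linarith
    have h8 : 0 ≤ A i q * A p j := mul_nonneg (hA.nn _ _) (hA.nn _ _)
    calc (per A + (ze A p - xi A q)) * (A p j * A i q)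
        = A i q * A p j * (per A + (ze A p - xi A q)) := by ring
      _ ≤ A i q * A p j * mn A i j := mul_le_mul_of_nonneg_left h7 h8
  have hsw := switch_main A hA.nn (fst n k) (fst n k) p q hpF
    (fun i hi => Q_rows A hA hP p i (hs.ra (hle i hi)))
    (fun c hc => Q_cols A hA hP q c (hs.cm (hge c hc)))
  rw [← hε] at hsw
  have hP0 : 0 ≤ pm A (fst n k) (fst n k) * pm A (fst n k)ᶜ (fst n k)ᶜ :=
    mul_nonneg (pm_nonneg A hA.nn _ _) (pm_nonneg A hA.nn _ _)
  have hprod : (rs A p - ε) * (cs A q - ε) ≤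
      (∑ j ∈ fst n k, A p j) * ∑ i ∈ (fst n k)ᶜ, A i q :=
    mul_le_mul hS2 hS1 (by linarith) ((by linarith : (0 : ℝ) ≤ rs A p - ε).trans hS2)
  have hprod0 : 0 ≤ (rs A p - ε) * (cs A q - ε) := mul_nonneg (by linarith) (by linarith)
  calc (per A + (ze A p - xi A q)) * (per A - (per A - (xi A p - ze A q)) * ε)
      * ((rs A p - ε) * (cs A q - ε))
      ≤ (per A + (ze A p - xi A q)) * (pm A (fst n k) (fst n k) * pm A (fst n k)ᶜ (fst n k)ᶜ)
        * ((∑ j ∈ fst n k, A p j) * ∑ i ∈ (fst n k)ᶜ, A i q) :=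
        mul_le_mul (mul_le_mul_of_nonneg_left ha hPv) hprod hprod0 (mul_nonneg hPv hP0)
    _ = (pm A (fst n k) (fst n k) * pm A (fst n k)ᶜ (fst n k)ᶜ) *
        ((per A + (ze A p - xi A q)) * ((∑ j ∈ fst n k, A p j) * ∑ i ∈ (fst n k)ᶜ, A i q)) := by
        ring
    _ ≤ (pm A (fst n k) (fst n k) * pm A (fst n k)ᶜ (fst n k)ᶜ) *
        ∑ i ∈ (fst n k)ᶜ, ∑ j ∈ fst n k, A i q * A p j * mn A i j :=
        mul_le_mul_of_nonneg_left hb hP0
    _ ≤ per A ^ 2 * ε := hsw
    _ = ε * per A ^ 2 := mul_comm _ _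

end Pool.Agent.Helper153.Ditt
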