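import Pool.Agent.Helper153.Ditt.Defs
import Pool.Agent.Helper153.Ditt.J18826
import Pool.Agent.Helper153.Ditt.J18923
import Pool.Agent.Helper153.Ditt.J19210

set_option autoImplicit false

open scoped BigOperators

namespace Pool.Agent.Helper153.Ditt

variable {n : ℕ}








theorem cut_end1 {n : ℕ} (A : Fin n → Fin n → ℝ) (hA : Crit A) (hs : Sorted A) (hP : 0 < per A)
    (p q : Fin n) (hp : (p : ℕ) = 0) (hq : (q : ℕ) = 1) (hX : 0 < XX A 1)
    (ε : ℝ) (hε : ε = ∑ i ∈ fst n 1, ∑ j ∈ (fst n 1)ᶜ, A i j) :
    (per A + (ze A p - xi A q)) * ((rs A p - ε) * (cs A q - A p q)) ≤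
      ε * per A - (A p q) ^ 2 * (per A - (xi A p - ze A q)) ∧ A p q ≤ ε ∧ ε ≤ rs A p := by
  have hqp : q ≠ p := by
    intro h; rw [h] at hq; omega
  have hfst : fst n 1 = {p} := by
    ext i
    simp only [fst, Finset.mem_filter, Finset.mem_univ, true_and, Finset.mem_singleton]
    constructor
    · intro h; apply Fin.ext; omega
    · intro h; rw [h]; omega
  have hε' : ε = ∑ j ∈ Finset.univ.erase p, A p j := by
    rw [hε, hfst, Finset.sum_singleton]
    apply Finset.sum_congr _ (fun _ _ => rfl)
    ext j; simp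
  have hrs : rs A p = A p p + ε := by
    rw [hε', rs, Finset.add_sum_erase _ _ (Finset.mem_univ p)]
  have hqmem : q ∈ Finset.univ.erase p := by simp [hqp]
  have hApq : A p q ≤ ε := by
    rw [hε']
    exact Finset.single_le_sum (f := fun j => A p j) (fun j _ => hA.nn p j) hqmem
  have hεle : ε ≤ rs A p := by
    rw [hrs]; linarith [hA.nn p p]
  refine ⟨?_, hApq, hεle⟩
  have hRR : 0 < RR A := Finset.prod_pos (fun i _ => hA.rpos i)
  have hxi : ∀ i : Fin n, i ≠ p → xi A i ≤ xi A q := by
    intro i hi
    have hqi : q ≤ i := by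
      rw [Fin.le_def]
      have : (i : ℕ) ≠ 0 := by
        intro h; apply hi; apply Fin.ext; omega
      omega
    have h1 : rs A i ≤ rs A q := hs.ra hqi
    have h2 : RR A / rs A q ≤ RR A / rs A i := div_le_div_of_nonneg_left hRR.le (hA.rpos i) h1
    unfold xi
    linarith
  have hcs : ∀ c : Fin n, c ≠ p → cs A q ≤ cs A c := by
    intro c hc
    have hqc : q ≤ c := by
      rw [Fin.le_def]
      have : (c : ℕ) ≠ 0 := by
        intro h; apply hc; apply Fin.ext; omega
      omega
    exact hs.cm hqc
  -- switch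
  have hpp : pm A {p} {p} = A p p := by
    rw [pm_row A {p} {p} p (Finset.mem_singleton_self p), Finset.sum_singleton]
    have e1 : ({p} : Finset (Fin n)).erase p = ∅ := by simp
    rw [e1, pm_empty_empty, mul_one]
  have hsw : ∀ i : Fin n, i ≠ p →
      A p p * mn A i p ≤ ∑ c ∈ Finset.univ.erase p, A p c * mn A i c := by
    intro i hi
    have h := pm_switch A hA.nn {p} (Finset.univ.erase i) {p} Finset.univ
      (by simp [Finset.singleton_subset_iff, hi.symm]) (Finset.subset_univ _) p
      (Finset.mem_singleton_self p)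
    rw [hpp, Finset.sum_singleton] at h
    have e1 : ({p} : Finset (Fin n)).erase p = ∅ := by simp
    rw [e1, pm_empty_empty, one_mul] at h
    have e2 : (Finset.univ : Finset (Fin n)) \ {p} = Finset.univ.erase p := by
      ext c; simp
    rw [e2] at h
    exact h
  -- LHS
  have hcsq : cs A q - A p q = ∑ i ∈ Finset.univ.erase p, A i q := by
    rw [cs, ← Finset.add_sum_erase _ _ (Finset.mem_univ p)]; ring
  have hL : (per A + (ze A p - xi A q)) * ((rs A p - ε) * (cs A q - A p q)) ≤
      ∑ i ∈ Finset.univ.erase p, A i q * (A p p * mn A i p) := by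
    rw [hcsq, hrs]
    have : (per A + (ze A p - xi A q)) * ((A p p + ε - ε) * ∑ i ∈ Finset.univ.erase p, A i q)
        = ∑ i ∈ Finset.univ.erase p, A i q * (A p p * (per A + (ze A p - xi A q))) := by
      rw [← Finset.sum_mul]; ring
    rw [this]
    apply Finset.sum_le_sum
    intro i hi
    have hip : i ≠ p := Finset.ne_of_mem_erase hi
    apply mul_le_mul_of_nonneg_left _ (hA.nn i q)
    apply mul_le_mul_of_nonneg_left _ (hA.nn p p)
    have := hA.kkt i p
    have := hxi i hip
    linarith
  have hM : ∑ i ∈ Finset.univ.erase p, A i q * (A p p * mn A i p) ≤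
      ∑ c ∈ Finset.univ.erase p, A p c * (∑ i ∈ Finset.univ.erase p, A i q * mn A i c) := by
    calc ∑ i ∈ Finset.univ.erase p, A i q * (A p p * mn A i p)
        ≤ ∑ i ∈ Finset.univ.erase p, A i q * (∑ c ∈ Finset.univ.erase p, A p c * mn A i c) := by
          apply Finset.sum_le_sum
          intro i hi
          exact mul_le_mul_of_nonneg_left (hsw i (Finset.ne_of_mem_erase hi)) (hA.nn i q)
      _ = ∑ c ∈ Finset.univ.erase p, A p c * (∑ i ∈ Finset.univ.erase p, A i q * mn A i c) := by
          simp only [Finset.mul_sum]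
          rw [Finset.sum_comm]
          apply Finset.sum_congr rfl
          intro c _
          apply Finset.sum_congr rfl
          intro i _
          ring
  have hR : ∑ c ∈ Finset.univ.erase p, A p c * (∑ i ∈ Finset.univ.erase p, A i q * mn A i c) ≤
      ∑ c ∈ Finset.univ.erase p, A p c * (per A - A p q * mn A p c) := by
    apply Finset.sum_le_sum
    intro c hc
    apply mul_le_mul_of_nonneg_left _ (hA.nn p c)
    have h1 := Q_cols A hA hP q c (hcs c (Finset.ne_of_mem_erase hc))
    rw [← Finset.add_sum_erase _ _ (Finset.mem_univ p)] at h1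
    linarith
  have hR2 : ∑ c ∈ Finset.univ.erase p, A p c * (per A - A p q * mn A p c) =
      ε * per A - A p q * ∑ c ∈ Finset.univ.erase p, A p c * mn A p c := by
    rw [hε', Finset.sum_mul, Finset.mul_sum, ← Finset.sum_sub_distrib]
    apply Finset.sum_congr rfl
    intro c _
    ring
  have hS : A p q * mn A p q ≤ ∑ c ∈ Finset.univ.erase p, A p c * mn A p c :=
    Finset.single_le_sum (f := fun c => A p c * mn A p c)
      (fun c _ => mul_nonneg (hA.nn p c) (pm_nonneg A hA.nn _ _)) hqmem
  have hK := hA.kkt p q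
  have h5 : A p q * (per A - xi A p + ze A q) ≤ A p q * mn A p q :=
    mul_le_mul_of_nonneg_left hK (hA.nn p q)
  have h6 : A p q * (A p q * (per A - xi A p + ze A q)) ≤
      A p q * ∑ c ∈ Finset.univ.erase p, A p c * mn A p c :=
    mul_le_mul_of_nonneg_left (h5.trans hS) (hA.nn p q)
  have h7 : (A p q) ^ 2 * (per A - (xi A p - ze A q)) =
      A p q * (A p q * (per A - xi A p + ze A q)) := by ring
  rw [h7]
  linarith

end Pool.Agent.Helper153.Ditt
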