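import Pool.Agent.Helper153.Ditt.Defs
import Pool.Agent.Helper153.Ditt.J18826

set_option autoImplicit false

open scoped BigOperators

namespace Pool.Agent.Helper153.Ditt

variable {n : ℕ}


theorem XX_pos_aux {n : ℕ} (x : Fin n → ℝ) (hx : Antitone x) (h0 : ∑ i, x i = 0) (k : ℕ)
    (hk1 : 1 ≤ k) (hk2 : k < n) (hle : ∑ i ∈ fst n k, x i ≤ 0) : ∀ i, x i = 0 := by
  have hmem : ∀ i : Fin n, i ∈ fst n k ↔ (i : ℕ) < k := by
    intro i; simp [fst]
  let p : Fin n := ⟨k - 1, by omega⟩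
  let q : Fin n := ⟨k, hk2⟩
  have hpS : p ∈ fst n k := (hmem p).2 (by change k - 1 < k; omega)
  have hS : ∀ i ∈ fst n k, x p ≤ x i := by
    intro i hi
    apply hx
    rw [Fin.le_def]
    have := (hmem i).1 hi
    change (i : ℕ) ≤ k - 1
    omega
  have hp0 : x p ≤ 0 := by
    by_contra hcon
    push Not at hcon
    have : 0 < ∑ i ∈ fst n k, x i :=
      Finset.sum_pos (fun i hi => lt_of_lt_of_le hcon (hS i hi)) ⟨p, hpS⟩
    linarith
  have hU : ∀ i ∈ (fst n k)ᶜ, x i ≤ 0 := by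
    intro i hi
    rw [Finset.mem_compl, hmem] at hi
    refine le_trans (hx ?_) hp0
    rw [Fin.le_def]
    change k - 1 ≤ (i : ℕ)
    omega
  have hsum : ∑ i ∈ (fst n k)ᶜ, x i + ∑ i ∈ fst n k, x i = 0 := by
    rw [Finset.sum_compl_add_sum]; exact h0
  have hU0 : ∑ i ∈ (fst n k)ᶜ, x i = 0 := by
    have := Finset.sum_nonpos hU
    linarith
  have hUz := (Finset.sum_eq_zero_iff_of_nonpos hU).1 hU0
  have hq0 : x q = 0 := by
    apply hUz
    rw [Finset.mem_compl, hmem]
    change ¬ k < k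
    omega
  have hpq : x q ≤ x p := by
    apply hx
    rw [Fin.le_def]
    change k - 1 ≤ k
    omega
  have hp00 : x p = 0 := le_antisymm hp0 (by rw [← hq0]; exact hpq)
  have hSn : ∀ i ∈ fst n k, 0 ≤ x i := fun i hi => by
    have := hS i hi
    rwa [hp00] at this
  have hS0 : ∑ i ∈ fst n k, x i = 0 := le_antisymm hle (Finset.sum_nonneg hSn)
  have hSz := (Finset.sum_eq_zero_iff_of_nonneg hSn).1 hS0
  intro i
  by_cases hi : i ∈ fst n k
  · exact hSz i hi
  · exact hUz i (by rwa [Finset.mem_compl])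

theorem XX_pos_sums {n : ℕ} (A : Fin n → Fin n → ℝ) (hA : Crit A) :
    ∑ i, (rs A i - 1) = 0 ∧ ∑ j, (cs A j - 1) = 0 := by
  have h1 : ∑ i, rs A i = n := hA.tot
  have h2 : ∑ j, cs A j = n := by
    have : ∑ j, cs A j = ∑ i, ∑ j, A i j := by
      unfold cs
      exact Finset.sum_comm
    rw [this]; exact hA.tot
  constructor
  · rw [Finset.sum_sub_distrib, h1]; simp
  · rw [Finset.sum_sub_distrib, h2]; simp

theorem XX_pos {n : ℕ} (A : Fin n → Fin n → ℝ) (hA : Crit A) (hs : Sorted A)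
    (hne : ¬ ((∀ i, rs A i = 1) ∧ (∀ j, cs A j = 1))) (k : ℕ) (hk1 : 1 ≤ k) (hk2 : k < n) :
    0 < XX A k := by
  obtain ⟨hr, hc⟩ := XX_pos_sums A hA
  have hra : Antitone (fun i => rs A i - 1) := fun i j hij => by
    have := hs.ra hij
    simp only
    linarith
  have hca : Antitone (fun j => -(cs A j - 1)) := fun i j hij => by
    have := hs.cm hij
    simp only
    linarith
  have hc' : ∑ j, -(cs A j - 1) = 0 := by rw [Finset.sum_neg_distrib, hc, neg_zero]
  have k1 := XX_pos_aux (fun i => rs A i - 1) hra hr k hk1 hk2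
  have k2 := XX_pos_aux (fun j => -(cs A j - 1)) hca hc' k hk1 hk2
  have n1 : 0 ≤ ∑ i ∈ fst n k, (rs A i - 1) := by
    by_contra hcon
    push Not at hcon
    have := k1 hcon.le
    rw [Finset.sum_eq_zero (fun i _ => this i)] at hcon
    exact lt_irrefl _ hcon
  have n2 : 0 ≤ ∑ j ∈ fst n k, -(cs A j - 1) := by
    by_contra hcon
    push Not at hcon
    have := k2 hcon.le
    rw [Finset.sum_eq_zero (fun i _ => this i)] at hcon
    exact lt_irrefl _ hcon
  by_contra hcon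
  push Not at hcon
  have hXX : XX A k = ∑ i ∈ fst n k, (rs A i - 1) + ∑ j ∈ fst n k, -(cs A j - 1) := by
    unfold XX
    rw [Finset.sum_neg_distrib, sub_eq_add_neg]
  rw [hXX] at hcon
  have z1 := k1 (by linarith)
  have z2 := k2 (by linarith)
  apply hne
  refine ⟨fun i => ?_, fun j => ?_⟩
  · have := z1 i
    linarith
  · have := z2 j
    linarith

theorem XX_bound_aux {n : ℕ} (f : Fin n → ℝ) (S : Finset (Fin n)) (p : Fin n) (hp : p ∈ S) :
    ∑ i ∈ S, f i + max (-f p) 0 ≤ ∑ i, max (f i) 0 := by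
  have h1 : ∑ i ∈ S, f i + max (-f p) 0 ≤ ∑ i ∈ S, max (f i) 0 := by
    rw [← Finset.add_sum_erase S f hp, ← Finset.add_sum_erase S (fun i => max (f i) 0) hp]
    have h2 : ∑ i ∈ S.erase p, f i ≤ ∑ i ∈ S.erase p, max (f i) 0 :=
      Finset.sum_le_sum fun i _ => le_max_left _ _
    have h3 : f p + max (-f p) 0 = max (f p) 0 := by
      rcases le_total 0 (f p) with h | h
      · rw [max_eq_right (by linarith), max_eq_left h]; ring
      · rw [max_eq_left (by linarith), max_eq_right h]; ring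
    linarith
  refine le_trans h1 ?_
  exact Finset.sum_le_sum_of_subset_of_nonneg (Finset.subset_univ _) fun i _ _ => le_max_right _ _

theorem XX_bound {n : ℕ} (A : Fin n → Fin n → ℝ) (hA : Crit A) (hs : Sorted A) (k : ℕ)
    (p q : Fin n) (hp : (p : ℕ) + 1 = k) (hq : (q : ℕ) = k) :
    XX A k + max (1 - rs A p) 0 + max (1 - cs A q) 0 ≤ ZZ A := by
  obtain ⟨hr, hc⟩ := XX_pos_sums A hA
  have hmem : ∀ i : Fin n, i ∈ fst n k ↔ (i : ℕ) < k := by
    intro i; simp [fst]
  have hpS : p ∈ fst n k := (hmem p).2 (by omega)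
  have hqS : q ∈ (fst n k)ᶜ := by
    rw [Finset.mem_compl, hmem]; omega
  have h1 := XX_bound_aux (fun i => rs A i - 1) (fst n k) p hpS
  have h2 := XX_bound_aux (fun j => cs A j - 1) (fst n k)ᶜ q hqS
  have h3 : ∑ j ∈ (fst n k)ᶜ, (cs A j - 1) + ∑ j ∈ fst n k, (cs A j - 1) = 0 := by
    rw [Finset.sum_compl_add_sum]; exact hc
  simp only [neg_sub] at h1 h2
  unfold XX ZZ
  linarith

end Pool.Agent.Helper153.Ditt
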