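import Pool.Agent.Helper153.Ditt.Defs
import Pool.Agent.Helper153.Ditt.J19217
import Pool.Agent.Helper153.Ditt.J19225
import Pool.Agent.Helper153.Ditt.J19231

set_option autoImplicit false

open scoped BigOperators

namespace Pool.Agent.Helper153.Ditt

variable {n : ℕ}








theorem mid_aux_fst (n : ℕ) (p : Fin n) : fst n ((p : ℕ) + 1) = insert p (fst n (p : ℕ)) := by
  ext i
  simp only [fst, Finset.mem_filter, Finset.mem_univ, true_and, Finset.mem_insert, Fin.ext_iff]
  omega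

theorem mid_aux_sum (n : ℕ) (p : Fin n) (f : Fin n → ℝ) :
    ∑ i ∈ fst n ((p : ℕ) + 1), f i = f p + ∑ i ∈ fst n (p : ℕ), f i := by
  rw [mid_aux_fst, Finset.sum_insert]
  simp [fst]

theorem mid_aux1 {n : ℕ} (x : Fin n → ℝ) (hx : Antitone x) (h0 : ∑ i, x i = 0) (k : ℕ)
    (p q : Fin n) (hp : (p : ℕ) + 1 = k) (hq : (q : ℕ) = k) :
    -x p ≤ ∑ i ∈ fst n k, x i := by
  by_cases h : 0 ≤ x p
  · have h1 : 0 ≤ ∑ i ∈ fst n k, x i := by
      refine Finset.sum_nonneg (fun i hi => h.trans (hx ?_))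
      simp only [fst, Finset.mem_filter, Finset.mem_univ, true_and] at hi
      rw [Fin.le_def]; omega
    linarith
  · push Not at h
    have h1 := Finset.sum_add_sum_compl (fst n k) x
    rw [h0] at h1
    have hqm : q ∈ (fst n k)ᶜ := by
      simp only [fst, Finset.mem_compl, Finset.mem_filter, Finset.mem_univ, true_and]
      omega
    have h2 := Finset.add_sum_erase _ x hqm
    have h3 : ∑ i ∈ ((fst n k)ᶜ).erase q, x i ≤ 0 := by
      refine Finset.sum_nonpos (fun i hi => ?_)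
      have hi' := (Finset.mem_erase.mp hi).2
      simp only [fst, Finset.mem_compl, Finset.mem_filter, Finset.mem_univ, true_and] at hi'
      have : x i ≤ x p := hx (by rw [Fin.le_def]; omega)
      linarith
    have h4 : x q ≤ x p := hx (by rw [Fin.le_def]; omega)
    linarith

theorem mid_aux2 {n : ℕ} (y : Fin n → ℝ) (hy : Monotone y) (h0 : ∑ i, y i = 0) (k : ℕ)
    (p q : Fin n) (hp : (p : ℕ) + 1 = k) (hq : (q : ℕ) = k) :
    ∑ i ∈ fst n k, y i ≤ y q := by
  by_cases h : y q ≤ 0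
  · have hpm : p ∈ fst n k := by
      simp only [fst, Finset.mem_filter, Finset.mem_univ, true_and]
      omega
    have h2 := Finset.add_sum_erase _ y hpm
    have h3 : ∑ i ∈ (fst n k).erase p, y i ≤ 0 := by
      refine Finset.sum_nonpos (fun i hi => ?_)
      have hi' := (Finset.mem_erase.mp hi).2
      simp only [fst, Finset.mem_filter, Finset.mem_univ, true_and] at hi'
      have : y i ≤ y q := hy (by rw [Fin.le_def]; omega)
      linarith
    have h4 : y p ≤ y q := hy (by rw [Fin.le_def]; omega)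
    linarith
  · push Not at h
    have h1 := Finset.sum_add_sum_compl (fst n k) y
    rw [h0] at h1
    have h3 : 0 ≤ ∑ i ∈ (fst n k)ᶜ, y i := by
      refine Finset.sum_nonneg (fun i hi => ?_)
      simp only [fst, Finset.mem_compl, Finset.mem_filter, Finset.mem_univ, true_and] at hi
      have : y q ≤ y i := hy (by rw [Fin.le_def]; omega)
      linarith
    linarith

theorem mid_aux3 (P X ε u v z τ r c : ℝ) (hP : 0 < P) (hX : 0 < X) (hεX : X ≤ ε) (hu : 0 ≤ u)
    (hG0 : 0 ≤ u + v) (cA : ε * (u + v) ≤ X * (P + v)) (cB : u ≤ P)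
    (cS : ε ≤ r → ε ≤ c → 0 ≤ P - (P - u) * ε →
      (P + v) * (P - (P - u) * ε) * ((r - ε) * (c - ε)) ≤ ε * P ^ 2)
    (hB : X + max (1 - r) 0 + max (1 - c) 0 ≤ 1 - z)
    (hτ0 : 0 < τ) (hτz : τ < z) (hτ : τ ≤ (z - τ) ^ 3) :
    (u + v) * τ ≤ P * X := by
  have hm1 : 1 - r ≤ max (1 - r) 0 := le_max_left _ _
  have hm1' : 0 ≤ max (1 - r) 0 := le_max_right _ _
  have hm2 : 1 - c ≤ max (1 - c) 0 := le_max_left _ _
  have hm2' : 0 ≤ max (1 - c) 0 := le_max_right _ _
  generalize max (1 - r) 0 = m1 at *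
  generalize max (1 - c) 0 = m2 at *
  have hε0 : 0 < ε := lt_of_lt_of_le hX hεX
  have hPv : 0 ≤ P + v := by linarith
  suffices hsuf : (P + v) * τ ≤ P * ε by
    have g1 : ε * ((u + v) * τ) ≤ ε * (P * X) := by
      calc ε * ((u + v) * τ) = (ε * (u + v)) * τ := by ring
        _ ≤ (X * (P + v)) * τ := mul_le_mul_of_nonneg_right cA hτ0.le
        _ = X * ((P + v) * τ) := by ring
        _ ≤ X * (P * ε) := mul_le_mul_of_nonneg_left hsuf hX.le
        _ = ε * (P * X) := by ring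
    exact le_of_mul_le_mul_left g1 hε0
  have hA1 : (P + v) * (ε - X) ≤ ε * P := by
    have h1 : (P + v) * (ε - X) = ε * (P - u) + (ε * (u + v) - X * (P + v)) := by ring
    have h2 : ε * (P - u) ≤ ε * P := mul_le_mul_of_nonneg_left (by linarith) hε0.le
    linarith
  by_cases hc : τ ≤ ε - X
  · calc (P + v) * τ ≤ (P + v) * (ε - X) := mul_le_mul_of_nonneg_left hc hPv
      _ ≤ ε * P := hA1
      _ = P * ε := by ring
  · push Not at hc
    have b1 : z - τ ≤ r - ε := by linarith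
    have b2 : z - τ ≤ c - ε := by linarith
    have b3 : z - τ ≤ 1 - ε := by linarith
    have hzt : 0 < z - τ := by linarith
    have b4 : P * (z - τ) ≤ P - (P - u) * ε := by
      have h1 : P * (z - τ) ≤ P * (1 - ε) := mul_le_mul_of_nonneg_left b3 hP.le
      have h2 : 0 ≤ u * ε := mul_nonneg hu hε0.le
      have h3 : P - (P - u) * ε = P * (1 - ε) + u * ε := by ring
      linarith
    have b5 : 0 ≤ P - (P - u) * ε := le_trans (mul_nonneg hP.le hzt.le) b4
    have c' := cS (by linarith) (by linarith) b5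
    have b6 : (z - τ) * (z - τ) ≤ (r - ε) * (c - ε) :=
      mul_le_mul b1 b2 hzt.le (le_trans hzt.le b1)
    have b7 : (P + v) * (P * (z - τ)) * ((z - τ) * (z - τ)) ≤ ε * P ^ 2 := by
      refine le_trans (mul_le_mul (mul_le_mul_of_nonneg_left b4 hPv) b6 ?_ ?_) c'
      · exact mul_nonneg hzt.le hzt.le
      · exact mul_nonneg hPv b5
    have b8 : P * ((P + v) * (z - τ) ^ 3) ≤ P * (P * ε) := by
      calc P * ((P + v) * (z - τ) ^ 3) = (P + v) * (P * (z - τ)) * ((z - τ) * (z - τ)) := by ring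
        _ ≤ ε * P ^ 2 := b7
        _ = P * (P * ε) := by ring
    have b9 := le_of_mul_le_mul_left b8 hP
    exact le_trans (mul_le_mul_of_nonneg_left hτ hPv) b9

theorem mid_aux4 (a b c d X r y z τ P : ℝ) (hP : 0 < P) (hz0 : 0 < z) (hτ3 : 3 * τ ≤ z)
    (hu : a - d < 0) (hxi : b ≤ a) (hze : d ≤ c)
    (c1 : (c - a) * (1 - (X - (r - 1))) ≤ P * (X - (r - 1)))
    (c2 : (d - b) * (1 - (X - (y - 1))) ≤ P * (X - (y - 1)))
    (e3 : -(r - 1) - (y - 1) ≤ X) (h1 : z ≤ 1 - (X - (r - 1))) (h2 : z ≤ 1 - (X - (y - 1))) :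
    ((a - b) + (c - d)) * τ ≤ P * X := by
  have d1 : (c - a) * z ≤ P * (X - (r - 1)) :=
    le_trans (mul_le_mul_of_nonneg_left h1 (by linarith)) c1
  have d2 : (d - b) * z ≤ P * (X - (y - 1)) :=
    le_trans (mul_le_mul_of_nonneg_left h2 (by linarith)) c2
  have f1 : ((a - b) + (c - d)) * z ≤ ((c - a) + (d - b)) * z :=
    mul_le_mul_of_nonneg_right (by linarith) hz0.le
  have f2 : P * (-(r - 1) - (y - 1)) ≤ P * X := mul_le_mul_of_nonneg_left e3 hP.le
  have d4 : ((a - b) + (c - d)) * (3 * τ) ≤ ((a - b) + (c - d)) * z :=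
    mul_le_mul_of_nonneg_left hτ3 (by linarith)
  have f3 : ((c - a) + (d - b)) * z = (c - a) * z + (d - b) * z := by ring
  have f4 : P * (X - (r - 1)) + P * (X - (y - 1)) = 2 * (P * X) + P * (-(r - 1) - (y - 1)) := by
    ring
  have f5 : ((a - b) + (c - d)) * (3 * τ) = 3 * (((a - b) + (c - d)) * τ) := by ring
  linarith

theorem mid {n : ℕ} (A : Fin n → Fin n → ℝ) (hA : Crit A) (hs : Sorted A) (hP : 0 < per A)
    (hne : ¬ ((∀ i, rs A i = 1) ∧ (∀ j, cs A j = 1)))
    (k : ℕ) (p q : Fin n) (hp : (p : ℕ) + 1 = k) (hq : (q : ℕ) = k)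
    (z τ : ℝ) (hz : z = 1 - ZZ A) (hz0 : 0 < z) (hτ0 : 0 < τ) (hτz : τ < z) (hτ3 : 3 * τ ≤ z)
    (hτ : τ ≤ (z - τ) ^ 3) :
    ((xi A p - xi A q) + (ze A p - ze A q)) * τ ≤ per A * XX A k := by
  have hpq : p ≤ q := by rw [Fin.le_def]; omega
  have hkn : k < n := by rw [← hq]; exact q.isLt
  have hX : 0 < XX A k := XX_pos A hA hs hne k (by omega) hkn
  have hRR : 0 < RR A := Finset.prod_pos (fun i _ => hA.rpos i)
  have hCC : 0 < CC A := Finset.prod_pos (fun i _ => hA.cpos i)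
  have hxi : xi A q ≤ xi A p := by
    unfold xi
    have h1 : RR A / rs A p ≤ RR A / rs A q :=
      div_le_div_of_nonneg_left hRR.le (hA.rpos q) (hs.ra hpq)
    linarith
  have hze : ze A q ≤ ze A p := by
    unfold ze
    have h1 : CC A / cs A q ≤ CC A / cs A p :=
      div_le_div_of_nonneg_left hCC.le (hA.cpos p) (hs.cm hpq)
    linarith
  have hB := XX_bound A hA hs k p q hp hq
  have hm1 : 1 - rs A p ≤ max (1 - rs A p) 0 := le_max_left _ _
  have hm1' : 0 ≤ max (1 - rs A p) 0 := le_max_right _ _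
  have hm2 : 1 - cs A q ≤ max (1 - cs A q) 0 := le_max_left _ _
  have hm2' : 0 ≤ max (1 - cs A q) 0 := le_max_right _ _
  by_cases hu : xi A p - ze A q < 0
  · -- case u < 0
    have hsr : ∑ i, (rs A i - 1) = 0 := by
      rw [Finset.sum_sub_distrib]
      have : ∑ i, rs A i = n := hA.tot
      rw [this]; simp
    have hsc : ∑ i, (cs A i - 1) = 0 := by
      rw [Finset.sum_sub_distrib]
      have : ∑ i, cs A i = n := by
        unfold cs
        rw [Finset.sum_comm]
        exact hA.tot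
      rw [this]; simp
    have ha : Antitone (fun i => rs A i - 1) := fun i j hij => by
      have := hs.ra hij
      simp only; linarith
    have hb : Monotone (fun i => cs A i - 1) := fun i j hij => by
      have := hs.cm hij
      simp only; linarith
    have e1 := mid_aux1 (fun i => rs A i - 1) ha hsr k p q hp hq
    have e2 := mid_aux2 (fun i => cs A i - 1) hb hsc k p q hp hq
    have hXdef : XX A k = ∑ i ∈ fst n k, (rs A i - 1) - ∑ j ∈ fst n k, (cs A j - 1) := rfl
    have s1 : ∑ i ∈ fst n k, (rs A i - 1) = (rs A p - 1) + ∑ i ∈ fst n (p : ℕ), (rs A i - 1) := by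
      rw [← hp]; exact mid_aux_sum n p _
    have s2 : ∑ i ∈ fst n ((p : ℕ) + 1), (cs A i - 1) = ∑ j ∈ fst n k, (cs A j - 1) := by
      rw [hp]
    have s3 : ∑ i ∈ fst n (q : ℕ), (rs A i - 1) = ∑ j ∈ fst n k, (rs A j - 1) := by
      rw [hq]
    have s4 : ∑ i ∈ fst n ((q : ℕ) + 1), (cs A i - 1) =
        (cs A q - 1) + ∑ j ∈ fst n k, (cs A j - 1) := by
      rw [mid_aux_sum, hq]
    have c1 := cut_eta A hA hs p
    have c2 := cut_eta A hA hs q
    have t1 : ∑ i ∈ fst n (p : ℕ), (rs A i - 1) - ∑ j ∈ fst n ((p : ℕ) + 1), (cs A j - 1) =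
        XX A k - (rs A p - 1) := by
      rw [s2, hXdef, s1]; ring
    have t2 : ∑ i ∈ fst n (q : ℕ), (rs A i - 1) - ∑ j ∈ fst n ((q : ℕ) + 1), (cs A j - 1) =
        XX A k - (cs A q - 1) := by
      rw [s3, s4, hXdef]; ring
    rw [t1] at c1
    rw [t2] at c2
    have c1' := c1 (by linarith)
    have c2' := c2 (by linarith)
    beta_reduce at e1 e2
    have e3 : -(rs A p - 1) - (cs A q - 1) ≤ XX A k := by rw [hXdef]; linarith
    exact mid_aux4 (xi A p) (xi A q) (ze A p) (ze A q) (XX A k) (rs A p) (cs A q) z τ (per A)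
      hP hz0 hτ3 hu hxi hze c1' c2' e3 (by linarith) (by linarith)
  · -- case u ≥ 0
    push Not at hu
    obtain ⟨ε, hε⟩ : ∃ ε, ε = ∑ i ∈ fst n k, ∑ j ∈ (fst n k)ᶜ, A i j := ⟨_, rfl⟩
    have hεX : XX A k ≤ ε := by
      rw [hε, cut_mass A hA k]
      have : 0 ≤ ∑ i ∈ (fst n k)ᶜ, ∑ j ∈ fst n k, A i j :=
        Finset.sum_nonneg (fun i _ => Finset.sum_nonneg (fun j _ => hA.nn i j))
      linarith
    have hε0 : 0 < ε := lt_of_lt_of_le hX hεX
    have cA := cut_A A hA hs k p q hp hq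
    rw [← hε] at cA
    have cB := cut_B A hA hs k p q hp hq hX
    have cS := cut_S A hA hs hP k p q hp hq hX ε hε
    have hG : (xi A p - xi A q) + (ze A p - ze A q) =
        (xi A p - ze A q) + (ze A p - xi A q) := by ring
    rw [hG]
    exact mid_aux3 (per A) (XX A k) ε (xi A p - ze A q) (ze A p - xi A q) z τ (rs A p) (cs A q)
      hP hX hεX hu (by linarith) cA cB cS (by linarith) hτ0 hτz hτ

end Pool.Agent.Helper153.Ditt
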