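import Pool.Agent.Helper153.Ditt.Defs
import Pool.Agent.Helper153.Ditt.J19217
import Pool.Agent.Helper153.Ditt.J19228
import Pool.Agent.Helper153.Ditt.J19231

set_option autoImplicit false

open scoped BigOperators

namespace Pool.Agent.Helper153.Ditt

variable {n : ℕ}








theorem end1_aux (r c ε μ t z w ω : ℝ) (hr : 1 ≤ r) (hc : 1 - w ≤ c) (hw : 0 ≤ w)
    (hε : 0 < ε) (hμ0 : 0 ≤ μ) (hμ : μ ≤ ε) (ht0 : 0 ≤ t) (ht : t < z / 3)
    (hb : ε ≤ 1 - z - w + t) (hz0 : 0 < z) (hz1 : z ≤ 1) (hω3 : 3 * ω ≤ z) (hω : ω ≤ z ^ 2) :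
    ω * ε ≤ (r - ε) * (c - μ) * ε + μ ^ 2 * t := by
  have h1 : 0 < 1 - ε := by linarith
  have h2 : 0 < 1 - w - μ := by linarith
  have h3 : (1 - ε) * (1 - w - μ) ≤ (r - ε) * (c - μ) :=
    mul_le_mul (by linarith) (by linarith) h2.le (by linarith)
  have h4 : (1 - ε) * (1 - w - μ) * ε ≤ (r - ε) * (c - μ) * ε :=
    mul_le_mul_of_nonneg_right h3 hε.le
  have h5 : 0 ≤ (ε - μ) * ((1 - ε) * ε - t * (ε + μ)) := by
    apply mul_nonneg (by linarith)
    have h51 : t * (ε + μ) ≤ t * (2 * ε) := mul_le_mul_of_nonneg_left (by linarith) ht0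
    have h52 : 0 ≤ (1 - ε - 2 * t) * ε := mul_nonneg (by linarith) hε.le
    nlinarith
  have h6 : (1 - ε) * (1 - w - ε) * ε + ε ^ 2 * t ≤ (1 - ε) * (1 - w - μ) * ε + μ ^ 2 * t := by
    nlinarith
  have h7 : (1 - ε) * (z - t) ≤ (1 - ε) * (1 - w - ε) :=
    mul_le_mul_of_nonneg_left (by linarith) h1.le
  have h8 : ω ≤ (1 - ε) * (z - t) + ε * t := by
    have h81 : ε * (z - 2 * t) ≤ (1 - z + t) * (z - 2 * t) :=
      mul_le_mul_of_nonneg_right (by linarith) (by linarith)
    have h82 : (1 - ε) * (z - t) + ε * t ≥ z ^ 2 + t * (1 - 3 * z) + 2 * t ^ 2 := by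
      nlinarith
    rcases le_total z (1 / 3) with hz | hz
    · have : 0 ≤ t * (1 - 3 * z) := mul_nonneg ht0 (by linarith)
      nlinarith [sq_nonneg t]
    · have h83 : 2 * t ^ 2 + t * (1 - 3 * z) ≥ - (3 * z - 1) ^ 2 / 8 := by
        nlinarith [sq_nonneg (4 * t - (3 * z - 1))]
      have h84 : 0 ≤ (3 * z - 1) * (3 - z) := mul_nonneg (by linarith) (by linarith)
      nlinarith
  have h9 : ω * ε ≤ ((1 - ε) * (1 - w - ε) + ε * t) * ε :=
    mul_le_mul_of_nonneg_right (by linarith) hε.le
  nlinarith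

set_option maxHeartbeats 4000000 in
theorem end1 {n : ℕ} (A : Fin n → Fin n → ℝ) (hA : Crit A) (hs : Sorted A) (hP : 0 < per A)
    (hne : ¬ ((∀ i, rs A i = 1) ∧ (∀ j, cs A j = 1)))
    (p q : Fin n) (hp : (p : ℕ) = 0) (hq : (q : ℕ) = 1)
    (z ω : ℝ) (hz : z = 1 - ZZ A) (hz0 : 0 < z) (hω0 : 0 < ω) (hω3 : 3 * ω ≤ z) (hω : ω ≤ z ^ 2) :
    ((xi A p - xi A q) + (ze A p - ze A q)) * ω ≤ per A * XX A 1 := by
  have hn : 1 < n := by have := q.isLt; omega
  have hqp : q ≠ p := by
    intro h; rw [h] at hq; omega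
  have hpl : ∀ i : Fin n, p ≤ i := by
    intro i; rw [Fin.le_def]; omega
  have hql : ∀ i : Fin n, i ≠ p → q ≤ i := by
    intro i hi
    rw [Fin.le_def]
    have : (i : ℕ) ≠ 0 := by
      intro h; apply hi; apply Fin.ext; omega
    omega
  have hf0 : fst n 0 = ∅ := by
    ext i; simp [fst]
  have hf1 : fst n 1 = {p} := by
    ext i
    simp only [fst, Finset.mem_filter, Finset.mem_univ, true_and, Finset.mem_singleton]
    constructor
    · intro h; apply Fin.ext; omega
    · intro h; rw [h]; omega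
  have hf2 : fst n 2 = {p, q} := by
    ext i
    simp only [fst, Finset.mem_filter, Finset.mem_univ, true_and, Finset.mem_singleton,
      Finset.mem_insert]
    constructor
    · intro h
      rcases Nat.eq_zero_or_pos (i : ℕ) with h0 | h0
      · left; apply Fin.ext; omega
      · right; apply Fin.ext; omega
    · rintro (h | h) <;> rw [h] <;> omega
  have hXX : XX A 1 = (rs A p - 1) - (cs A p - 1) := by
    unfold XX; rw [hf1, Finset.sum_singleton, Finset.sum_singleton]
  have hX : 0 < XX A 1 := XX_pos A hA hs hne 1 le_rfl hn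
  -- row/col sums
  have hrsum : ∑ i, (rs A i - 1) = 0 := by
    rw [Finset.sum_sub_distrib]
    have := hA.tot
    simp only [rs]
    rw [this]; simp
  have hcsum : ∑ j, (cs A j - 1) = 0 := by
    rw [Finset.sum_sub_distrib]
    have := hA.tot
    simp only [cs]
    rw [Finset.sum_comm, this]; simp
  have hxp : 0 ≤ rs A p - 1 := by
    by_contra hcon
    push Not at hcon
    have h1 : ∑ i, (rs A i - 1) < ∑ i : Fin n, (0 : ℝ) := by
      apply Finset.sum_lt_sum_of_nonempty ⟨p, Finset.mem_univ p⟩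
      intro i _
      have := hs.ra (hpl i)
      linarith
    rw [hrsum] at h1
    simp at h1
  have hyp : cs A p - 1 ≤ 0 := by
    by_contra hcon
    push Not at hcon
    have h1 : ∑ i : Fin n, (0 : ℝ) < ∑ i, (cs A i - 1) := by
      apply Finset.sum_lt_sum_of_nonempty ⟨p, Finset.mem_univ p⟩
      intro i _
      have := hs.cm (hpl i)
      linarith
    rw [hcsum] at h1
    simp at h1
  have hypq : cs A p ≤ cs A q := hs.cm (hpl q)
  have hyy : (cs A p - 1) + (cs A q - 1) ≤ 0 := by
    rcases le_total (cs A q - 1) 0 with h | h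
    · linarith
    · rw [← Finset.add_sum_erase _ _ (Finset.mem_univ p)] at hcsum
      have h2 : cs A q - 1 ≤ ∑ j ∈ Finset.univ.erase p, (cs A j - 1) := by
        apply Finset.single_le_sum (f := fun j => cs A j - 1)
        · intro j hj
          have := hs.cm (hql j (Finset.ne_of_mem_erase hj))
          show 0 ≤ cs A j - 1
          linarith
        · simp [hqp]
      linarith
  have hZZ : 0 ≤ ZZ A := by
    unfold ZZ
    apply add_nonneg
    · exact Finset.sum_nonneg (fun i _ => le_max_right _ _)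
    · exact Finset.sum_nonneg (fun i _ => le_max_right _ _)
  have hz1 : z ≤ 1 := by linarith
  have hRR : 0 < RR A := Finset.prod_pos (fun i _ => hA.rpos i)
  have hCC : 0 < CC A := Finset.prod_pos (fun i _ => hA.cpos i)
  have hxi : xi A q ≤ xi A p := by
    have h1 : rs A q ≤ rs A p := hs.ra (hpl q)
    have h2 : RR A / rs A p ≤ RR A / rs A q := div_le_div_of_nonneg_left hRR.le (hA.rpos q) h1
    unfold xi
    linarith
  have hze : ze A q ≤ ze A p := by
    have h2 : CC A / cs A q ≤ CC A / cs A p := div_le_div_of_nonneg_left hCC.le (hA.cpos p) hypq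
    unfold ze
    linarith
  have hXb : XX A 1 + max (1 - rs A p) 0 + max (1 - cs A q) 0 ≤ ZZ A :=
    XX_bound A hA hs 1 p q (by omega) hq
  have hm1 : 0 ≤ max (1 - rs A p) 0 := le_max_right _ _
  have hm2 : 0 ≤ max (1 - cs A q) 0 := le_max_right _ _
  have hm3 : 1 - cs A q ≤ max (1 - cs A q) 0 := le_max_left _ _
  set w := max (1 - cs A q) 0 with hw
  set P := per A with hPdef
  rcases lt_or_ge (xi A p - ze A q) 0 with hu | hu
  · -- case u < 0
    have hcp := hA.cpos p
    have e1 := cut_eta A hA hs p (by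
      rw [hp, hf0, Finset.sum_empty]
      simp only [zero_add]
      rw [hf1, Finset.sum_singleton]; linarith)
    rw [hp, hf0, Finset.sum_empty] at e1
    simp only [zero_add] at e1
    rw [hf1, Finset.sum_singleton] at e1
    have e2 := cut_eta A hA hs q (by
      rw [hq, hf1, Finset.sum_singleton, show (1 : ℕ) + 1 = 2 from rfl,
        hf2, Finset.sum_pair hqp.symm]; linarith)
    rw [hq, hf1, Finset.sum_singleton, show (1 : ℕ) + 1 = 2 from rfl,
      hf2, Finset.sum_pair hqp.symm, ← hPdef] at e2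
    -- Xa, Xb
    have hXa0 : 0 ≤ 0 - (cs A p - 1) := by linarith
    have hXa1 : 0 - (cs A p - 1) ≤ 1 - z := by linarith
    have hXb0 : 0 ≤ rs A p - 1 - (cs A p - 1 + (cs A q - 1)) := by linarith
    have hXb1 : rs A p - 1 - (cs A p - 1 + (cs A q - 1)) ≤ 1 - z := by linarith
    have key : ∀ η X' : ℝ, 0 ≤ X' → X' ≤ 1 - z → η * (1 - X') ≤ P * X' → η * z ≤ P * X' := by
      intro η X' h0 h1 h2
      rcases le_total η 0 with hη | hη
      · have : η * z ≤ 0 := mul_nonpos_of_nonpos_of_nonneg hη hz0.le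
        have : 0 ≤ P * X' := mul_nonneg hP.le h0
        linarith
      · have : η * z ≤ η * (1 - X') := mul_le_mul_of_nonneg_left (by linarith) hη
        linarith
    rw [← hPdef] at e1
    have k1 := key _ _ hXa0 hXa1 e1
    have k2 := key _ _ hXb0 hXb1 e2
    have hG : (xi A p - xi A q) + (ze A p - ze A q) ≤ (ze A p - xi A p) + (ze A q - xi A q) := by
      linarith
    have hG2 : ((xi A p - xi A q) + (ze A p - ze A q)) * z ≤
        ((ze A p - xi A p) + (ze A q - xi A q)) * z := mul_le_mul_of_nonneg_right hG hz0.le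
    have hG3 : ((xi A p - xi A q) + (ze A p - ze A q)) * (3 * ω) ≤
        ((xi A p - xi A q) + (ze A p - ze A q)) * z :=
      mul_le_mul_of_nonneg_left hω3 (by linarith)
    have h3 : P * ((0 - (cs A p - 1)) + (rs A p - 1 - (cs A p - 1 + (cs A q - 1)))) ≤
        P * (3 * XX A 1) := by
      apply mul_le_mul_of_nonneg_left _ hP.le
      rw [hXX]; linarith
    linarith
  · -- case u ≥ 0
    have hB : xi A p - ze A q ≤ P := cut_B A hA hs 1 p q (by omega) hq hX
    have hAA := cut_A A hA hs 1 p q (by omega) hq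
    have hmass := cut_mass A hA 1
    obtain ⟨hE, hμε, hεr⟩ := cut_end1 A hA hs hP p q hp hq hX _ rfl
    have hnn2 : 0 ≤ ∑ i ∈ (fst n 1)ᶜ, ∑ j ∈ fst n 1, A i j :=
      Finset.sum_nonneg (fun i _ => Finset.sum_nonneg (fun j _ => hA.nn i j))
    rw [← hPdef] at hE hAA
    set ε := ∑ i ∈ fst n 1, ∑ j ∈ (fst n 1)ᶜ, A i j with hε
    set X := XX A 1 with hXdef
    set t := ∑ i ∈ (fst n 1)ᶜ, ∑ j ∈ fst n 1, A i j with ht
    set u := xi A p - ze A q with hudef
    set v := ze A p - xi A q with hvdef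
    have hGe : (xi A p - xi A q) + (ze A p - ze A q) = u + v := by rw [hudef, hvdef]; ring
    have hG0 : 0 ≤ u + v := by rw [← hGe]; linarith
    rw [hGe]
    have hPv : 0 ≤ P + v := by linarith
    have hε0 : 0 < ε := by linarith
    have hkey : (P + v) * t ≤ ε * (P - u) := by
      have : t = ε - X := by linarith
      rw [this]
      have g1 : (P + v) * (ε - X) = ε * (P - u) + (ε * (u + v) - X * (P + v)) := by ring
      linarith
    have hμ0 := hA.nn p q
    have hsuff : (P + v) * ω ≤ P * ε := by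
      rcases le_or_gt (z / 3) t with h | h
      · have h1 : (P + v) * ω ≤ (P + v) * t := mul_le_mul_of_nonneg_left (by linarith) hPv
        have h2 : ε * (P - u) ≤ ε * P := mul_le_mul_of_nonneg_left (by linarith) hε0.le
        linarith
      · have haux := end1_aux (rs A p) (cs A q) ε (A p q) t z w ω (by linarith) (by linarith)
          hm2 hε0 hμ0 hμε hnn2 h (by linarith) hz0 hz1 hω3 hω
        have h1 : (P + v) * (ω * ε) ≤
            (P + v) * ((rs A p - ε) * (cs A q - A p q) * ε + (A p q) ^ 2 * t) :=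
          mul_le_mul_of_nonneg_left haux hPv
        have h2 : (P + v) * ((rs A p - ε) * (cs A q - A p q)) * ε ≤
            (ε * P - (A p q) ^ 2 * (P - u)) * ε := mul_le_mul_of_nonneg_right hE hε0.le
        have h3 : (A p q) ^ 2 * ((P + v) * t) ≤ (A p q) ^ 2 * (ε * (P - u)) :=
          mul_le_mul_of_nonneg_left hkey (sq_nonneg _)
        have h4 : (P + v) * ω * ε ≤ P * ε * ε := by
          have g1 : (P + v) * ω * ε = (P + v) * (ω * ε) := by ring
          have g2 : (P + v) * ((rs A p - ε) * (cs A q - A p q) * ε + (A p q) ^ 2 * t) =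
            (P + v) * ((rs A p - ε) * (cs A q - A p q)) * ε + (A p q) ^ 2 * ((P + v) * t) := by
            ring
          have g3 : (ε * P - (A p q) ^ 2 * (P - u)) * ε + (A p q) ^ 2 * (ε * (P - u)) =
            P * ε * ε := by ring
          linarith
        exact le_of_mul_le_mul_right h4 hε0
    have h5 : ε * ((u + v) * ω) ≤ ε * (P * X) := by
      have h6 : ε * (u + v) * ω ≤ X * (P + v) * ω := mul_le_mul_of_nonneg_right hAA hω0.le
      have h7 : X * ((P + v) * ω) ≤ X * (P * ε) := mul_le_mul_of_nonneg_left hsuff hX.le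
      have g1 : ε * ((u + v) * ω) = ε * (u + v) * ω := by ring
      have g2 : X * (P + v) * ω = X * ((P + v) * ω) := by ring
      have g3 : X * (P * ε) = ε * (P * X) := by ring
      linarith
    exact le_of_mul_le_mul_left h5 hε0

end Pool.Agent.Helper153.Ditt
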