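import Pool.Agent.Helper153.Ditt.Defs
import Pool.Agent.Helper153.Ditt.J18826
import Pool.Agent.Helper153.Ditt.J18865
import Pool.Agent.Helper153.Ditt.J19203
import Pool.Agent.Helper153.Ditt.J19347

set_option autoImplicit false

open scoped BigOperators

namespace Pool.Agent.Helper153.Ditt

variable {n : ℕ}





theorem endn_pm_map {α β γ δ : Type} [DecidableEq α] [DecidableEq β] [DecidableEq γ]
    [DecidableEq δ] (a : γ → δ → ℝ) (f : α ↪ γ) (g : β ↪ δ) (k : ℕ) :
    ∀ (S : Finset α) (T : Finset β), S.card = k →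
      pm (fun i j => a (f i) (g j)) S T = pm a (S.map f) (T.map g) := by
  induction k with
  | zero =>
    intro S T hS
    rw [Finset.card_eq_zero] at hS
    subst hS
    simp [pm, pl]
  | succ k ih =>
    intro S T hS
    obtain ⟨i, hi⟩ : S.Nonempty := by
      rw [← Finset.card_pos]; omega
    rw [pm_row _ S T i hi, pm_row a (S.map f) (T.map g) (f i) (Finset.mem_map_of_mem f hi),
      Finset.sum_map]
    refine Finset.sum_congr rfl fun j hj => ?_
    rw [ih (S.erase i) (T.erase j) (by rw [Finset.card_erase_of_mem hi]; omega),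
      Finset.map_erase, Finset.map_erase]

theorem endn_per {n : ℕ} (A : Fin n → Fin n → ℝ) :
    per (fun i j : Fin n => A (Fin.rev j) (Fin.rev i)) = per A := by
  unfold per
  rw [pm_transpose]
  have h := endn_pm_map A (Fin.revPerm (n := n)).toEmbedding (Fin.revPerm (n := n)).toEmbedding _
    Finset.univ Finset.univ rfl
  rw [Finset.map_univ_equiv] at h
  exact h

theorem endn_rs {n : ℕ} (A : Fin n → Fin n → ℝ) (i : Fin n) :
    rs (fun i j : Fin n => A (Fin.rev j) (Fin.rev i)) i = cs A (Fin.rev i) := by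
  unfold rs cs
  exact Equiv.sum_comp (Fin.revPerm (n := n)) (fun j => A j (Fin.rev i))

theorem endn_cs {n : ℕ} (A : Fin n → Fin n → ℝ) (j : Fin n) :
    cs (fun i j : Fin n => A (Fin.rev j) (Fin.rev i)) j = rs A (Fin.rev j) := by
  unfold rs cs
  exact Equiv.sum_comp (Fin.revPerm (n := n)) (fun i => A (Fin.rev j) i)

theorem endn_RR {n : ℕ} (A : Fin n → Fin n → ℝ) :
    RR (fun i j : Fin n => A (Fin.rev j) (Fin.rev i)) = CC A := by
  unfold RR CC
  simp only [endn_rs]
  exact Equiv.prod_comp (Fin.revPerm (n := n)) (fun i => cs A i)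

theorem endn_CC {n : ℕ} (A : Fin n → Fin n → ℝ) :
    CC (fun i j : Fin n => A (Fin.rev j) (Fin.rev i)) = RR A := by
  unfold RR CC
  simp only [endn_cs]
  exact Equiv.prod_comp (Fin.revPerm (n := n)) (fun i => rs A i)

theorem endn_xi {n : ℕ} (A : Fin n → Fin n → ℝ) (i : Fin n) :
    xi (fun i j : Fin n => A (Fin.rev j) (Fin.rev i)) i = - ze A (Fin.rev i) := by
  unfold xi ze
  rw [endn_RR, endn_rs]
  ring

theorem endn_ze {n : ℕ} (A : Fin n → Fin n → ℝ) (i : Fin n) :
    ze (fun i j : Fin n => A (Fin.rev j) (Fin.rev i)) i = - xi A (Fin.rev i) := by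
  unfold xi ze
  rw [endn_CC, endn_cs]
  ring

theorem endn_ZZ {n : ℕ} (A : Fin n → Fin n → ℝ) :
    ZZ (fun i j : Fin n => A (Fin.rev j) (Fin.rev i)) = ZZ A := by
  unfold ZZ
  simp only [endn_cs, endn_rs]
  rw [add_comm]
  congr 1
  · exact Equiv.sum_comp (Fin.revPerm (n := n)) (fun i => max (rs A i - 1) 0)
  · exact Equiv.sum_comp (Fin.revPerm (n := n)) (fun i => max (cs A i - 1) 0)

theorem endn {n : ℕ} (A : Fin n → Fin n → ℝ) (hA : Crit A) (hs : Sorted A) (hP : 0 < per A)
    (hne : ¬ ((∀ i, rs A i = 1) ∧ (∀ j, cs A j = 1)))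
    (p q : Fin n) (hp : (p : ℕ) + 2 = n) (hq : (q : ℕ) + 1 = n)
    (z ω : ℝ) (hz : z = 1 - ZZ A) (hz0 : 0 < z) (hω0 : 0 < ω) (hω3 : 3 * ω ≤ z) (hω : ω ≤ z ^ 2) :
    ((xi A p - xi A q) + (ze A p - ze A q)) * ω ≤ per A * XX A (n - 1) := by
  obtain ⟨hB, hBs⟩ := dual_crit A hA hs
  have hq' : ((Fin.rev q : Fin n) : ℕ) = 0 := by
    rw [Fin.val_rev]; omega
  have hp' : ((Fin.rev p : Fin n) : ℕ) = 1 := by
    rw [Fin.val_rev]; omega
  have h := end1 (fun i j : Fin n => A (Fin.rev j) (Fin.rev i)) hB hBs (by rw [endn_per]; exact hP)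
    (by
      rintro ⟨h1, h2⟩
      refine hne ⟨fun i => ?_, fun j => ?_⟩
      · have := h2 (Fin.rev i)
        rwa [endn_cs, Fin.rev_rev] at this
      · have := h1 (Fin.rev j)
        rwa [endn_rs, Fin.rev_rev] at this) (Fin.rev q) (Fin.rev p) hq' hp' z ω
    (by rw [endn_ZZ]; exact hz) hz0 hω0 hω3 hω
  rw [endn_xi, endn_xi, endn_ze, endn_ze, endn_per, Fin.rev_rev, Fin.rev_rev] at h
  have hX1 : XX (fun i j : Fin n => A (Fin.rev j) (Fin.rev i)) 1 =
      (cs A q - 1) - (rs A q - 1) := by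
    unfold XX
    have hf : fst n 1 = {Fin.rev q} := by
      ext i
      simp only [fst, Finset.mem_filter, Finset.mem_univ, true_and, Finset.mem_singleton,
        Fin.ext_iff, hq']
      omega
    rw [hf, Finset.sum_singleton, Finset.sum_singleton, endn_rs, endn_cs, Fin.rev_rev]
  have hf : fst n (n - 1) = Finset.univ.erase q := by
    ext i
    simp only [fst, Finset.mem_filter, Finset.mem_univ, true_and, Finset.mem_erase, ne_eq, and_true,
      Fin.ext_iff]
    have := i.2
    omega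
  have hr0 : ∑ i, (rs A i - 1) = 0 := by
    rw [Finset.sum_sub_distrib]
    have h1 : ∑ i, rs A i = n := hA.tot
    rw [h1]; simp
  have hc0 : ∑ i, (cs A i - 1) = 0 := by
    rw [Finset.sum_sub_distrib]
    have h1 : ∑ i, cs A i = n := by
      rw [← hA.tot, Finset.sum_comm]
      rfl
    rw [h1]; simp
  have hXn : XX A (n - 1) = (cs A q - 1) - (rs A q - 1) := by
    unfold XX
    rw [hf]
    have h1 := Finset.add_sum_erase Finset.univ (fun i => rs A i - 1) (Finset.mem_univ q)
    have h2 := Finset.add_sum_erase Finset.univ (fun i => cs A i - 1) (Finset.mem_univ q)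
    beta_reduce at h1 h2
    rw [hr0] at h1
    rw [hc0] at h2
    linarith
  rw [hX1, ← hXn] at h
  refine le_trans (le_of_eq ?_) h
  ring

end Pool.Agent.Helper153.Ditt
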