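import Pool.Agent.Helper153.Ditt.Defs
import Pool.Agent.Helper153.Ditt.J18826
import Pool.Agent.Helper153.Ditt.J19217
import Pool.Agent.Helper153.Ditt.J19231

set_option autoImplicit false

open scoped BigOperators

namespace Pool.Agent.Helper153.Ditt

variable {n : ℕ}





theorem per_pos {n : ℕ} (A : Fin n → Fin n → ℝ) (hA : Crit A) (hs : Sorted A)
    (hZ : ZZ A < 1) (hne : ¬ ((∀ i, rs A i = 1) ∧ (∀ j, cs A j = 1))) : 0 < per A := by
  have hper0 : 0 ≤ per A := pm_nonneg A hA.nn _ _
  by_contra hcon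
  have hper : per A = 0 := le_antisymm (not_lt.1 hcon) hper0
  have hRR : 0 < RR A := Finset.prod_pos fun i _ => hA.rpos i
  have hCC : 0 < CC A := Finset.prod_pos fun j _ => hA.cpos j
  have hrtot : ∑ i, rs A i = n := hA.tot
  have hctot : ∑ j, cs A j = n := by
    have h1 : ∑ j, cs A j = ∑ i, ∑ j, A i j := by
      unfold cs
      exact Finset.sum_comm
    rw [h1, hA.tot]
  have hxi : ∀ p q : Fin n, p ≤ q → xi A q ≤ xi A p := by
    intro p q hpq
    have h1 := hs.ra hpq
    have h2 : RR A / rs A p ≤ RR A / rs A q := div_le_div_of_nonneg_left hRR.le (hA.rpos q) h1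
    unfold xi
    linarith
  have hze : ∀ p q : Fin n, p ≤ q → ze A q ≤ ze A p := by
    intro p q hpq
    have h1 := hs.cm hpq
    have h2 : CC A / cs A q ≤ CC A / cs A p := div_le_div_of_nonneg_left hCC.le (hA.cpos p) h1
    unfold ze
    linarith
  have heta : ∀ p : Fin n, ze A p ≤ xi A p := by
    intro p
    have hr : ∑ i ∈ fst n (p : ℕ), (rs A i - 1) ≤ ∑ i, max (rs A i - 1) 0 := by
      refine (Finset.sum_le_sum fun i _ => le_max_left (rs A i - 1) 0).trans ?_
      exact Finset.sum_le_sum_of_subset_of_nonneg (Finset.subset_univ _)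
        fun i _ _ => le_max_right _ _
    have hc : -∑ j ∈ fst n ((p : ℕ) + 1), (cs A j - 1) ≤ ∑ j, max (cs A j - 1) 0 := by
      have h1 : ∑ j, (cs A j - 1) = 0 := by
        rw [Finset.sum_sub_distrib, hctot]
        simp
      have h2 := Finset.sum_add_sum_compl (fst n ((p : ℕ) + 1)) (fun j => cs A j - 1)
      have h3 : -∑ j ∈ fst n ((p : ℕ) + 1), (cs A j - 1) =
          ∑ j ∈ (fst n ((p : ℕ) + 1))ᶜ, (cs A j - 1) := by
        rw [h1] at h2
        linarith
      rw [h3]
      refine (Finset.sum_le_sum fun i _ => le_max_left (cs A i - 1) 0).trans ?_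
      exact Finset.sum_le_sum_of_subset_of_nonneg (Finset.subset_univ _)
        fun i _ _ => le_max_right _ _
    have hX : ∑ i ∈ fst n (p : ℕ), (rs A i - 1) - ∑ j ∈ fst n ((p : ℕ) + 1), (cs A j - 1) < 1 := by
      unfold ZZ at hZ
      linarith
    have h4 := cut_eta A hA hs p hX
    rw [hper, zero_mul] at h4
    by_contra h5
    have h6 : 0 < ze A p - xi A p := by linarith [not_le.1 h5]
    have h7 : 0 < 1 - (∑ i ∈ fst n (p : ℕ), (rs A i - 1) -
        ∑ j ∈ fst n ((p : ℕ) + 1), (cs A j - 1)) := by linarith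
    exact absurd h4 (not_le.2 (mul_pos h6 h7))
  have hstep : ∀ p q : Fin n, (q : ℕ) = p + 1 → rs A q = rs A p ∧ cs A q = cs A p := by
    intro p q hpq
    have hle : p ≤ q := by
      rw [Fin.le_iff_val_le_val]
      omega
    have hX := XX_pos A hA hs hne (q : ℕ) (by omega) q.2
    have h1 := cut_B A hA hs (q : ℕ) p q hpq.symm rfl hX
    rw [hper] at h1
    have h2 := heta p
    have h3 := heta q
    have h4 := hxi p q hle
    have h5 := hze p q hle
    have h6 : xi A q = xi A p := by linarith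
    have h7 : ze A q = ze A p := by linarith
    constructor
    · unfold xi at h6
      have h8 : RR A / rs A q = RR A / rs A p := by linarith
      have h9 := hA.rpos p
      have h10 := hA.rpos q
      rw [div_eq_div_iff h10.ne' h9.ne'] at h8
      exact (mul_left_cancel₀ hRR.ne' h8).symm
    · unfold ze at h7
      have h8 : CC A / cs A q = CC A / cs A p := by linarith
      have h9 := hA.cpos p
      have h10 := hA.cpos q
      rw [div_eq_div_iff h10.ne' h9.ne'] at h8
      exact (mul_left_cancel₀ hCC.ne' h8).symm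
  rcases Nat.eq_zero_or_pos n with hn | hn
  · subst hn
    exact hne ⟨fun i => i.elim0, fun j => j.elim0⟩
  · have hconst : ∀ (k : ℕ) (hk : k < n), rs A ⟨k, hk⟩ = rs A ⟨0, hn⟩ ∧
        cs A ⟨k, hk⟩ = cs A ⟨0, hn⟩ := by
      intro k
      induction k with
      | zero => intro hk; exact ⟨rfl, rfl⟩
      | succ k ih =>
        intro hk
        obtain ⟨h1, h2⟩ := ih (by omega)
        obtain ⟨h3, h4⟩ := hstep ⟨k, by omega⟩ ⟨k + 1, hk⟩ rfl
        exact ⟨h3.trans h1, h4.trans h2⟩
    have hn' : (n : ℝ) ≠ 0 := Nat.cast_ne_zero.2 hn.ne'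
    have hr1 : rs A ⟨0, hn⟩ = 1 := by
      have h1 : ∑ i, rs A i = n * rs A ⟨0, hn⟩ := by
        rw [Finset.sum_congr rfl (fun i _ => (hconst i.1 i.2).1)]
        simp
      rw [hrtot] at h1
      have h2 : (n : ℝ) * rs A ⟨0, hn⟩ = n * 1 := by linarith
      exact mul_left_cancel₀ hn' h2
    have hc1 : cs A ⟨0, hn⟩ = 1 := by
      have h1 : ∑ i, cs A i = n * cs A ⟨0, hn⟩ := by
        rw [Finset.sum_congr rfl (fun i _ => (hconst i.1 i.2).2)]
        simp
      rw [hctot] at h1
      have h2 : (n : ℝ) * cs A ⟨0, hn⟩ = n * 1 := by linarith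
      exact mul_left_cancel₀ hn' h2
    exact hne ⟨fun i => (hconst i.1 i.2).1.trans hr1, fun j => (hconst j.1 j.2).2.trans hc1⟩

end Pool.Agent.Helper153.Ditt
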