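import Pool.Agent.Helper153.Ditt.Defs
import Pool.Agent.Helper153.Ditt.J18826
import Pool.Agent.Helper153.Ditt.J18865
import Pool.Agent.Helper153.Ditt.J18871
import Pool.Agent.Helper153.Ditt.J19043
import Pool.Agent.Helper153.Ditt.J19150
import Pool.Agent.Helper153.Ditt.J19170

set_option autoImplicit false

open scoped BigOperators

namespace Pool.Agent.Helper153.Ditt

variable {n : ℕ}











theorem ds_max_eq_pl_congr {α β : Type} [DecidableEq β] (a b : α → β → ℝ) (L : List α) :
    ∀ T : Finset β, (∀ i ∈ L, ∀ j ∈ T, a i j = b i j) → pl a L T = pl b L T := by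
  induction L with
  | nil => intro T _; rfl
  | cons i L ih =>
    intro T h
    unfold pl
    refine Finset.sum_congr rfl fun j hj => ?_
    rw [h i List.mem_cons_self j hj, ih (T.erase j) fun i' hi' j' hj' =>
      h i' (List.mem_cons_of_mem _ hi') j' (Finset.mem_of_mem_erase hj')]

theorem ds_max_eq_pm_congr {α β : Type} [DecidableEq β] (a b : α → β → ℝ) (S : Finset α)
    (T : Finset β) (h : ∀ i ∈ S, ∀ j ∈ T, a i j = b i j) : pm a S T = pm b S T :=
  ds_max_eq_pl_congr a b _ T fun i hi j hj => h i (Finset.mem_toList.1 hi) j hj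

/-- replace the column `j` by `x` -/
def ds_max_eq_rep {n : ℕ} (A : Fin n → Fin n → ℝ) (j : Fin n) (x : Fin n → ℝ) : Fin n → Fin n → ℝ :=
  fun i k => if k = j then x i else A i k

theorem ds_max_eq_per_rep {n : ℕ} (A : Fin n → Fin n → ℝ) (j : Fin n) (x : Fin n → ℝ) :
    per (ds_max_eq_rep A j x) = ∑ i, x i * mn A i j := by
  unfold per mn
  rw [pm_col _ _ _ j (Finset.mem_univ j)]
  refine Finset.sum_congr rfl fun i _ => ?_
  have h1 : ds_max_eq_rep A j x i j = x i := by simp [ds_max_eq_rep]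
  rw [h1, ds_max_eq_pm_congr (ds_max_eq_rep A j x) A]
  intro i' _ j' hj'
  simp [ds_max_eq_rep, Finset.ne_of_mem_erase hj']

theorem ds_max_eq_pos {n : ℕ} (A : Fin n → Fin n → ℝ) (h0 : ∀ i j, 0 ≤ A i j)
    (hr : ∀ i, rs A i = 1) (hc : ∀ j, cs A j = 1) : 0 < per A := by
  have hM : Matrix.of A ∈ doublyStochastic ℝ (Fin n) := by
    rw [mem_doublyStochastic_iff_sum]
    exact ⟨h0, hr, hc⟩
  obtain ⟨w, hw0, hw1, hwM⟩ := exists_eq_sum_perm_of_mem_doublyStochastic hM
  have hex : ∃ σ, 0 < w σ := by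
    by_contra h
    push Not at h
    have : ∑ σ, w σ = 0 := Finset.sum_eq_zero fun σ _ => le_antisymm (h σ) (hw0 σ)
    rw [hw1] at this
    exact one_ne_zero this
  obtain ⟨σ, hσ⟩ := hex
  have hpos : ∀ i, 0 < A i (σ i) := by
    intro i
    have h1 : A i (σ i) = (∑ τ, w τ • τ.permMatrix ℝ) i (σ i) := by rw [hwM]; rfl
    rw [h1, Matrix.sum_apply]
    refine Finset.sum_pos' (fun τ _ => ?_) ⟨σ, Finset.mem_univ _, ?_⟩
    · rw [Matrix.smul_apply, smul_eq_mul]
      refine mul_nonneg (hw0 τ) ?_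
      simp only [Equiv.Perm.permMatrix, PEquiv.toMatrix_apply]
      split_ifs <;> norm_num
    · rw [Matrix.smul_apply, smul_eq_mul]
      refine mul_pos hσ ?_
      simp [Equiv.Perm.permMatrix, PEquiv.toMatrix_apply]
  rw [← per_eq_permanent, Matrix.permanent]
  refine Finset.sum_pos' (fun τ _ => Finset.prod_nonneg fun i _ => h0 _ _)
    ⟨σ⁻¹, Finset.mem_univ _, Finset.prod_pos fun i _ => ?_⟩
  have := hpos (σ⁻¹ i)
  simpa using this

/-- doubly stochastic maximisers -/
structure ds_max_eq_DM {n : ℕ} (A : Fin n → Fin n → ℝ) : Prop where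
  h0 : ∀ i j, 0 ≤ A i j
  hmax : ∀ B : Fin n → Fin n → ℝ, (∀ i j, 0 ≤ B i j) → (∑ i, ∑ j, B i j = n) → phi B ≤ phi A
  hbig : 2 - mm n ≤ phi A
  hr : ∀ i, rs A i = 1
  hc : ∀ j, cs A j = 1

theorem ds_max_eq_phi {n : ℕ} (A : Fin n → Fin n → ℝ)
    (hr : ∀ i, rs A i = 1) (hc : ∀ j, cs A j = 1) : phi A = 2 - per A := by
  unfold phi RR CC
  simp only [hr, hc, Finset.prod_const_one]
  ring

theorem ds_max_eq_minor {n : ℕ} (hn : 2 ≤ n) (A : Fin n → Fin n → ℝ) (hA : ds_max_eq_DM A)
    (k j : Fin n) : mn A k j = per A := by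
  have ht : ∑ i, ∑ j, A i j = n := by
    have : ∀ i, ∑ j, A i j = 1 := hA.hr
    simp [this]
  have hcr := crit_of_max hn A hA.h0 ht hA.hmax hA.hbig
  have hRR : RR A = 1 := by unfold RR; simp only [hA.hr, Finset.prod_const_one]
  have hCC : CC A = 1 := by unfold CC; simp only [hA.hc, Finset.prod_const_one]
  have hxi : ∀ i, xi A i = 0 := fun i => by unfold xi; rw [hRR, hA.hr]; norm_num
  have hze : ∀ i, ze A i = 0 := fun i => by unfold ze; rw [hCC, hA.hc]; norm_num
  have hge : ∀ i j, per A ≤ mn A i j := fun i j => by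
    have := hcr.kkt i j
    rw [hxi, hze] at this
    linarith
  have heq : ∀ i j, A i j * (mn A i j - per A) = 0 := fun i j => by
    have := hcr.kkt0 i j
    rw [hxi, hze, sub_zero, add_zero] at this
    exact this
  have hP : 0 < per A := ds_max_eq_pos A hA.h0 hA.hr hA.hc
  have hU : ∀ i k, per A ≤ ∑ j, A i j * mn A k j := by
    intro i k
    calc per A = (∑ j, A i j) * per A := by
          have : ∑ j, A i j = 1 := hA.hr i
          rw [this, one_mul]
      _ = ∑ j, A i j * per A := by rw [Finset.sum_mul]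
      _ ≤ ∑ j, A i j * mn A k j := Finset.sum_le_sum fun j _ =>
          mul_le_mul_of_nonneg_left (hge k j) (hA.h0 i j)
  have hz : ∀ i, A i j * (mn A k j - per A) = 0 := by
    intro i
    by_cases hik : i = k
    · subst hik
      exact heq i j
    · have h1 := AF_rows A hA.h0 i k hik
      have h2 := hU i k
      have h3 := hU k i
      have h4 : ∑ j, A i j * mn A k j = per A := by
        by_contra hne
        have h5 : per A < ∑ j, A i j * mn A k j := lt_of_le_of_ne h2 (Ne.symm hne)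
        have h6 : per A * per A < (∑ j, A i j * mn A k j) * (∑ j, A k j * mn A i j) := by
          calc per A * per A < (∑ j, A i j * mn A k j) * per A := by
                exact mul_lt_mul_of_pos_right h5 hP
            _ ≤ _ := mul_le_mul_of_nonneg_left h3 (hP.le.trans h2)
        rw [pow_two] at h1
        linarith
      have h5 : ∑ j, A i j * (mn A k j - per A) = 0 := by
        simp only [mul_sub, Finset.sum_sub_distrib]
        rw [h4, ← Finset.sum_mul]
        have : ∑ j, A i j = 1 := hA.hr i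
        rw [this, one_mul, sub_self]
      exact (Finset.sum_eq_zero_iff_of_nonneg (fun j _ =>
        mul_nonneg (hA.h0 i j) (sub_nonneg.2 (hge k j)))).1 h5 j (Finset.mem_univ j)
  have h7 : ∑ i, A i j * (mn A k j - per A) = 0 := Finset.sum_eq_zero fun i _ => hz i
  rw [← Finset.sum_mul] at h7
  have h8 : ∑ i, A i j = 1 := hA.hc j
  rw [h8, one_mul] at h7
  linarith

/-- average two columns -/
noncomputable def ds_max_eq_avg {n : ℕ} (A : Fin n → Fin n → ℝ) (j l : Fin n) : Fin n → Fin n → ℝ :=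
  fun i k => if k = j ∨ k = l then (A i j + A i l) / 2 else A i k

theorem ds_max_eq_swap {n : ℕ} (A : Fin n → Fin n → ℝ) (j l : Fin n) :
    per (fun i k => A i (Equiv.swap j l k)) = per A := by
  rw [← per_eq_permanent, ← per_eq_permanent]
  exact Matrix.permanent_permute_rows (Equiv.swap j l) (Matrix.of A)

theorem ds_max_eq_avg_per {n : ℕ} (hn : 2 ≤ n) (A : Fin n → Fin n → ℝ) (hA : ds_max_eq_DM A)
    (j l : Fin n) (hjl : j ≠ l) : per (ds_max_eq_avg A j l) = per A := by
  have hm := ds_max_eq_minor hn A hA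
  let m : Fin n → ℝ := fun i => (A i j + A i l) / 2
  have hrep : ∀ (x : Fin n → ℝ) (k : Fin n), per (ds_max_eq_rep A k x) = (∑ i, x i) * per A := by
    intro x k
    rw [ds_max_eq_per_rep, Finset.sum_mul]
    exact Finset.sum_congr rfl fun i _ => by rw [hm]
  have hcj : ∑ i, A i j = 1 := hA.hc j
  have hcl : ∑ i, A i l = 1 := hA.hc l
  have hmm : ∑ i, m i = 1 := by
    show ∑ i, (A i j + A i l) / 2 = 1
    rw [← Finset.sum_div, Finset.sum_add_distrib, hcj, hcl]
    norm_num
  have h1 : ds_max_eq_avg A j l = ds_max_eq_rep (ds_max_eq_rep A j m) l m := by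
    funext i k
    unfold ds_max_eq_avg ds_max_eq_rep
    by_cases hkl : k = l
    · simp [hkl, m]
    · by_cases hkj : k = j
      · simp [hkj, hjl, m]
      · simp [hkl, hkj]
  have h2 : per (ds_max_eq_avg A j l) =
      (per (ds_max_eq_rep (ds_max_eq_rep A j m) l (fun i => A i j)) +
        per (ds_max_eq_rep (ds_max_eq_rep A j m) l (fun i => A i l))) / 2 := by
    rw [h1, ds_max_eq_per_rep, ds_max_eq_per_rep, ds_max_eq_per_rep, ← Finset.sum_add_distrib,
      Finset.sum_div]
    refine Finset.sum_congr rfl fun i _ => ?_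
    show (A i j + A i l) / 2 * _ = _
    ring
  have h3 : ds_max_eq_rep (ds_max_eq_rep A j m) l (fun i => A i l) = ds_max_eq_rep A j m := by
    funext i k
    unfold ds_max_eq_rep
    by_cases hkl : k = l
    · subst hkl
      simp [Ne.symm hjl]
    · simp [hkl]
  have h4 : ds_max_eq_rep (ds_max_eq_rep A j m) l (fun i => A i j)
      = ds_max_eq_rep (ds_max_eq_rep A l (fun i => A i j)) j m := by
    funext i k
    unfold ds_max_eq_rep
    by_cases hkl : k = l
    · subst hkl
      simp [Ne.symm hjl]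
    · simp [hkl]
  have h5 : per (ds_max_eq_rep (ds_max_eq_rep A l (fun i => A i j)) j m) =
      (per (ds_max_eq_rep (ds_max_eq_rep A l (fun i => A i j)) j (fun i => A i j)) +
        per (ds_max_eq_rep (ds_max_eq_rep A l (fun i => A i j)) j (fun i => A i l))) / 2 := by
    rw [ds_max_eq_per_rep, ds_max_eq_per_rep, ds_max_eq_per_rep, ← Finset.sum_add_distrib,
      Finset.sum_div]
    refine Finset.sum_congr rfl fun i _ => ?_
    show (A i j + A i l) / 2 * _ = _
    ring
  have h6 : ds_max_eq_rep (ds_max_eq_rep A l (fun i => A i j)) j (fun i => A i j)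
      = ds_max_eq_rep A l (fun i => A i j) := by
    funext i k
    unfold ds_max_eq_rep
    by_cases hkj : k = j
    · subst hkj
      simp
    · simp [hkj]
  have h7 : ds_max_eq_rep (ds_max_eq_rep A l (fun i => A i j)) j (fun i => A i l)
      = fun i k => A i (Equiv.swap j l k) := by
    funext i k
    unfold ds_max_eq_rep
    by_cases hkj : k = j
    · subst hkj
      simp
    · by_cases hkl : k = l
      · subst hkl
        simp [hkj]
      · simp [hkj, hkl, Equiv.swap_apply_of_ne_of_ne]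
  rw [h2, h3, h4, h5, h6, h7, hrep, hrep, ds_max_eq_swap, hmm, hcj]
  ring

theorem ds_max_eq_avg_rs {n : ℕ} (A : Fin n → Fin n → ℝ) (j l : Fin n) (hjl : j ≠ l) (i : Fin n) :
    rs (ds_max_eq_avg A j l) i = rs A i := by
  have h : ∑ k, (ds_max_eq_avg A j l i k - A i k) = 0 := by
    rw [Fintype.sum_eq_add j l hjl]
    · simp [ds_max_eq_avg]; ring
    · rintro x ⟨hx1, hx2⟩
      simp [ds_max_eq_avg, hx1, hx2]
  rw [Finset.sum_sub_distrib] at h
  unfold rs
  linarith

theorem ds_max_eq_avg_sq {n : ℕ} (A : Fin n → Fin n → ℝ) (j l : Fin n) (hjl : j ≠ l) (i : Fin n) :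
    ∑ k, ds_max_eq_avg A j l i k ^ 2 = ∑ k, A i k ^ 2 - (A i j - A i l) ^ 2 / 2 := by
  have h : ∑ k, (ds_max_eq_avg A j l i k ^ 2 - A i k ^ 2) = - ((A i j - A i l) ^ 2 / 2) := by
    rw [Fintype.sum_eq_add j l hjl]
    · simp [ds_max_eq_avg]; ring
    · rintro x ⟨hx1, hx2⟩
      simp [ds_max_eq_avg, hx1, hx2]
  rw [Finset.sum_sub_distrib] at h
  linarith

theorem ds_max_eq_avg_cs {n : ℕ} (A : Fin n → Fin n → ℝ) (hc : ∀ j, cs A j = 1) (j l : Fin n)
    (k : Fin n) : cs (ds_max_eq_avg A j l) k = 1 := by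
  unfold cs at hc ⊢
  by_cases hk : k = j ∨ k = l
  · have : ∀ i, ds_max_eq_avg A j l i k = (A i j + A i l) / 2 := fun i => by
      simp [ds_max_eq_avg, hk]
    simp only [this]
    rw [← Finset.sum_div, Finset.sum_add_distrib, hc, hc]
    norm_num
  · have : ∀ i, ds_max_eq_avg A j l i k = A i k := fun i => by
      simp [ds_max_eq_avg, hk]
    simp only [this]
    exact hc k

theorem ds_max_eq_cont {n : ℕ} : Continuous (fun B : Fin n → Fin n → ℝ => per B) := by
  have h : (fun B : Fin n → Fin n → ℝ => per B) =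
      fun B => ∑ σ : Equiv.Perm (Fin n), ∏ i, B (σ i) i := by
    funext B
    rw [← per_eq_permanent]
    rfl
  rw [h]
  exact continuous_finsetSum _ fun σ _ => continuous_finsetProd _ fun i _ =>
    continuous_apply_apply _ _

theorem ds_max_eq_last {n : ℕ} (hn : 2 ≤ n) (B : Fin n → Fin n → ℝ) (hB : ds_max_eq_DM B)
    (j0 : Fin n) (hcol : ∀ j l, j ≠ j0 → l ≠ j0 → ∀ i, B i j = B i l) (i : Fin n) :
    B i j0 = 1 / n := by
  obtain ⟨k0, hk0⟩ : ∃ k0 : Fin n, k0 ≠ j0 := by
    haveI : Nontrivial (Fin n) := Fin.nontrivial_iff_two_le.2 hn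
    exact exists_ne j0
  have hP : 0 < per B := ds_max_eq_pos B hB.h0 hB.hr hB.hc
  have hm := ds_max_eq_minor hn B hB
  have hexp : ∀ i k : Fin n, i ≠ k → per B = B k k0 *
      ∑ j ∈ Finset.univ.erase j0, pm B ((Finset.univ.erase i).erase k)
        ((Finset.univ.erase j0).erase j) := by
    intro i k hik
    rw [← hm i j0]
    unfold mn
    rw [pm_row B _ _ k (Finset.mem_erase.2 ⟨Ne.symm hik, Finset.mem_univ _⟩), Finset.mul_sum]
    refine Finset.sum_congr rfl fun j hj => ?_
    rw [hcol j k0 (Finset.ne_of_mem_erase hj) hk0]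
  have hw : ∀ i k : Fin n, B i k0 = B k k0 := by
    intro i k
    by_cases hik : i = k
    · rw [hik]
    · have h1 := hexp i k hik
      have h2 := hexp k i (Ne.symm hik)
      rw [Finset.erase_right_comm] at h2
      set S := ∑ j ∈ Finset.univ.erase j0, pm B ((Finset.univ.erase i).erase k)
        ((Finset.univ.erase j0).erase j) with hS
      have hS0 : S ≠ 0 := by
        intro h
        rw [h, mul_zero] at h1
        exact hP.ne' h1
      exact mul_right_cancel₀ hS0 (h2.symm.trans h1)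
  have hrow : ∀ k : Fin n, B k j0 = 1 - ((n : ℝ) - 1) * B i k0 := by
    intro k
    have h1 : ∑ j, B k j = 1 := hB.hr k
    rw [← Finset.add_sum_erase _ _ (Finset.mem_univ j0)] at h1
    have h2 : ∑ j ∈ Finset.univ.erase j0, B k j = ((n : ℝ) - 1) * B i k0 := by
      rw [Finset.sum_congr rfl (fun j hj => (hcol j k0 (Finset.ne_of_mem_erase hj) hk0 k).trans
        (hw k i)), Finset.sum_const, Finset.card_erase_of_mem (Finset.mem_univ _), nsmul_eq_mul,
        Finset.card_univ, Fintype.card_fin, Nat.cast_sub (by omega)]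
      norm_num
    rw [h2] at h1
    linarith
  have hsum : ∑ k, B k j0 = 1 := hB.hc j0
  simp only [hrow] at hsum
  rw [Finset.sum_const, Finset.card_univ, Fintype.card_fin, nsmul_eq_mul] at hsum
  rw [hrow i]
  have hn0 : (n : ℝ) ≠ 0 := by
    have : 0 < n := by omega
    exact_mod_cast this.ne'
  rw [eq_div_iff hn0, mul_comm]
  exact hsum

theorem ds_max_eq_DM_of_per {n : ℕ} (A B : Fin n → Fin n → ℝ) (hA : ds_max_eq_DM A)
    (h0 : ∀ i j, 0 ≤ B i j) (hr : ∀ i, rs B i = 1) (hc : ∀ j, cs B j = 1) (hp : per B = per A) :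
    ds_max_eq_DM B := by
  have h : phi B = phi A := by
    rw [ds_max_eq_phi B hr hc, ds_max_eq_phi A hA.hr hA.hc, hp]
  refine ⟨h0, ?_, ?_, hr, hc⟩
  · rw [h]; exact hA.hmax
  · rw [h]; exact hA.hbig


theorem ds_max_eq {n : ℕ} (hn : 2 ≤ n) (A : Fin n → Fin n → ℝ) (h0 : ∀ i j, 0 ≤ A i j)
    (hmax : ∀ B : Fin n → Fin n → ℝ, (∀ i j, 0 ≤ B i j) → (∑ i, ∑ j, B i j = n) → phi B ≤ phi A)
    (hbig : 2 - mm n ≤ phi A)
    (hr : ∀ i, rs A i = 1) (hc : ∀ j, cs A j = 1) (i j : Fin n) : A i j = 1 / n := by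
  have hA : ds_max_eq_DM A := ⟨h0, hmax, hbig, hr, hc⟩
  let K : Set (Fin n → Fin n → ℝ) := {B | (∀ i k, 0 ≤ B i k) ∧ (∀ i, rs B i = 1) ∧
    (∀ k, cs B k = 1) ∧ (∀ i, B i j = A i j) ∧ per B = per A}
  have hAK : A ∈ K := ⟨h0, hr, hc, fun _ => rfl, rfl⟩
  have hcl : IsClosed K := by
    refine IsClosed.and ?_ (IsClosed.and ?_ (IsClosed.and ?_ (IsClosed.and ?_ ?_)))
    · simp only [Set.ofPred_forall]
      exact isClosed_iInter fun i => isClosed_iInter fun k =>
        isClosed_le continuous_const (continuous_apply_apply _ _)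
    · simp only [Set.ofPred_forall]
      exact isClosed_iInter fun i => isClosed_eq
        (continuous_finsetSum _ fun k _ => continuous_apply_apply _ _) continuous_const
    · simp only [Set.ofPred_forall]
      exact isClosed_iInter fun k => isClosed_eq
        (continuous_finsetSum _ fun i _ => continuous_apply_apply _ _) continuous_const
    · simp only [Set.ofPred_forall]
      exact isClosed_iInter fun i => isClosed_eq (continuous_apply_apply _ _) continuous_const
    · exact isClosed_eq ds_max_eq_cont continuous_const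
  have hsub : K ⊆ Set.pi Set.univ (fun _ : Fin n => Set.pi Set.univ (fun _ : Fin n =>
      Set.Icc (0 : ℝ) 1)) := by
    rintro B ⟨hB0, hBr, -⟩ i _ k _
    refine ⟨hB0 i k, ?_⟩
    have h1 : ∑ k, B i k = 1 := hBr i
    rw [← h1]
    exact Finset.single_le_sum (f := fun k => B i k) (fun k _ => hB0 i k) (Finset.mem_univ k)
  have hK : IsCompact K :=
    (isCompact_univ_pi fun _ => isCompact_univ_pi fun _ => isCompact_Icc).of_isClosed_subset
      hcl hsub
  have hf : Continuous (fun B : Fin n → Fin n → ℝ => ∑ i, ∑ k, B i k ^ 2) :=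
    continuous_finsetSum _ fun i _ => continuous_finsetSum _ fun k _ =>
      (continuous_apply_apply _ _).pow 2
  obtain ⟨B, hBK, hBmin⟩ := hK.exists_isMinOn ⟨A, hAK⟩ hf.continuousOn
  obtain ⟨hB0, hBr, hBc, hBj, hBp⟩ := hBK
  have hB : ds_max_eq_DM B := ds_max_eq_DM_of_per A B hA hB0 hBr hBc hBp
  have hcol : ∀ k l, k ≠ j → l ≠ j → ∀ i, B i k = B i l := by
    intro k l hk hl i
    by_contra hne
    have hkl : k ≠ l := by
      rintro rfl
      exact hne rfl
    have hK' : ds_max_eq_avg B k l ∈ K := by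
      refine ⟨?_, fun i => ?_, ds_max_eq_avg_cs B hBc k l, fun i => ?_, ?_⟩
      · intro i k'
        unfold ds_max_eq_avg
        split_ifs
        · have := hB0 i k
          have := hB0 i l
          linarith
        · exact hB0 i k'
      · rw [ds_max_eq_avg_rs B k l hkl]
        exact hBr i
      · rw [← hBj i]
        simp [ds_max_eq_avg, Ne.symm hk, Ne.symm hl]
      · rw [ds_max_eq_avg_per hn B hB k l hkl, hBp]
    have h1 : ∑ i, ∑ k, B i k ^ 2 ≤ ∑ i, ∑ k', ds_max_eq_avg B k l i k' ^ 2 := hBmin hK'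
    have h2 : ∑ i, ∑ k', ds_max_eq_avg B k l i k' ^ 2 < ∑ i, ∑ k, B i k ^ 2 := by
      refine Finset.sum_lt_sum (fun i _ => ?_) ⟨i, Finset.mem_univ i, ?_⟩
      · rw [ds_max_eq_avg_sq B k l hkl]
        have := sq_nonneg (B i k - B i l)
        linarith
      · rw [ds_max_eq_avg_sq B k l hkl]
        have : 0 < (B i k - B i l) ^ 2 := by
          have : B i k - B i l ≠ 0 := sub_ne_zero.2 hne
          positivity
        linarith
    linarith
  rw [← hBj i]
  exact ds_max_eq_last hn B hB j hcol i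
end Pool.Agent.Helper153.Ditt
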