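import Pool.Agent.Helper153.Ditt.Defs

set_option autoImplicit false

open scoped BigOperators

namespace Pool.Agent.Helper153.Ditt

variable {n : ℕ}

theorem xi_diff_prod {ι : Type} (s : Finset ι) (f : ι → ℝ) (h0 : ∀ i ∈ s, 0 ≤ f i)
    (h1 : ∀ i ∈ s, f i ≤ 1) : 1 - ∑ i ∈ s, f i ≤ ∏ i ∈ s, (1 - f i) := by
  classical
  induction s using Finset.induction_on with
  | empty => simp
  | insert a s ha ih =>
    rw [Finset.sum_insert ha, Finset.prod_insert ha]
    have ih' := ih (fun i hi => h0 i (Finset.mem_insert_of_mem hi))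
      (fun i hi => h1 i (Finset.mem_insert_of_mem hi))
    have ha0 := h0 a (Finset.mem_insert_self a s)
    have ha1 := h1 a (Finset.mem_insert_self a s)
    have hs0 : 0 ≤ ∑ i ∈ s, f i :=
      Finset.sum_nonneg fun i hi => h0 i (Finset.mem_insert_of_mem hi)
    have h2 := mul_le_mul_of_nonneg_left ih' (sub_nonneg.2 ha1)
    nlinarith [mul_nonneg ha0 hs0]

theorem xi_diff_gen {n : ℕ} (r : Fin n → ℝ) (hr : ∀ i, 0 < r i) (ht : ∑ i, (r i - 1) = 0)
    (p q : Fin n) (hpq : p ≠ q) (hle : r q ≤ r p) :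
    (1 - ∑ i, max (r i - 1) 0) * (r p - r q) ≤ (∏ i, r i) / r q - (∏ i, r i) / r p := by
  classical
  obtain ⟨s, hs⟩ : ∃ s : Finset (Fin n), s = (Finset.univ.erase p).erase q := ⟨_, rfl⟩
  have hP : ∏ i, r i = r p * (r q * ∏ i ∈ s, r i) := by
    rw [hs, Finset.mul_prod_erase _ _ (Finset.mem_erase.2 ⟨hpq.symm, Finset.mem_univ q⟩),
      Finset.mul_prod_erase _ _ (Finset.mem_univ p)]
  have hp := (hr p).ne'
  have hq := (hr q).ne'
  have e1 : (∏ i, r i) / r q - (∏ i, r i) / r p = (∏ i ∈ s, r i) * (r p - r q) := by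
    rw [hP]
    field_simp
  rw [e1]
  refine mul_le_mul_of_nonneg_right ?_ (by linarith)
  have h1 : ∑ i, max (r i - 1) 0 = ∑ i, max (1 - r i) 0 := by
    have h2 : ∑ i, max (r i - 1) 0 - ∑ i, max (1 - r i) 0 = ∑ i, (r i - 1) := by
      rw [← Finset.sum_sub_distrib]
      refine Finset.sum_congr rfl fun i _ => ?_
      rcases le_total (r i) 1 with h | h
      · rw [max_eq_right (by linarith), max_eq_left (by linarith)]
        ring
      · rw [max_eq_left (by linarith), max_eq_right (by linarith)]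
        ring
    rw [ht] at h2
    linarith
  rw [h1]
  calc 1 - ∑ i, max (1 - r i) 0 ≤ 1 - ∑ i ∈ s, max (1 - r i) 0 := by
        have : ∑ i ∈ s, max (1 - r i) 0 ≤ ∑ i, max (1 - r i) 0 :=
          Finset.sum_le_sum_of_subset_of_nonneg (Finset.subset_univ s)
            (fun i _ _ => le_max_right _ _)
        linarith
    _ ≤ ∏ i ∈ s, (1 - max (1 - r i) 0) :=
        xi_diff_prod s _ (fun i _ => le_max_right _ _)
          (fun i _ => max_le (by linarith [hr i]) zero_le_one)
    _ ≤ ∏ i ∈ s, r i := by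
        refine Finset.prod_le_prod (fun i _ => ?_) (fun i _ => ?_)
        · have : max (1 - r i) 0 ≤ 1 := max_le (by linarith [hr i]) zero_le_one
          linarith
        · have := le_max_left (1 - r i) 0
          linarith

theorem xi_diff {n : ℕ} (A : Fin n → Fin n → ℝ) (hA : Crit A) (hs : Sorted A) (p q : Fin n)
    (hpq : p < q) :
    (1 - ∑ i, max (rs A i - 1) 0) * (rs A p - rs A q) ≤ xi A p - xi A q ∧
    (1 - ∑ j, max (cs A j - 1) 0) * (cs A q - cs A p) ≤ ze A p - ze A q := by
  constructor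
  · have h := xi_diff_gen (rs A) hA.rpos (by
      rw [Finset.sum_sub_distrib]
      have : ∑ i, rs A i = n := hA.tot
      rw [this]
      simp) p q hpq.ne (hs.ra hpq.le)
    have e : xi A p - xi A q = (∏ i, rs A i) / rs A q - (∏ i, rs A i) / rs A p := by
      unfold xi RR
      ring
    rw [e]
    exact h
  · have h := xi_diff_gen (cs A) hA.cpos (by
      rw [Finset.sum_sub_distrib]
      have : ∑ j, cs A j = n := by
        rw [← hA.tot, Finset.sum_comm]
        rfl
      rw [this]
      simp) q p hpq.ne' (hs.cm hpq.le)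
    have e : ze A p - ze A q = (∏ i, cs A i) / cs A p - (∏ i, cs A i) / cs A q := by
      unfold ze CC
      ring
    rw [e]
    exact h

end Pool.Agent.Helper153.Ditt
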