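import Pool.Agent.Helper153.Ditt.Defs

set_option autoImplicit false

open scoped BigOperators

namespace Pool.Agent.Helper153.Ditt

variable {n : ℕ}

theorem dev3_one (a b c : ℝ) (h : a + b + c = 0) (ha : -1 < a) (hb : -1 < b) (hc : -1 < c)
    (h1 : 0 ≤ a) (h2 : b ≤ 0) (h3 : c ≤ 0) :
    0 ≤ a ∧ a < 2 ∧ 3 / 4 * a ^ 2 - 1 / 4 * a ^ 3 ≤ 1 - (1 + a) * (1 + b) * (1 + c) := by
  refine ⟨h1, by linarith, ?_⟩
  have h4 : 0 ≤ (1 + a) * (b - c) ^ 2 := mul_nonneg (by linarith) (sq_nonneg _)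
  have h5 : a = -(b + c) := by linarith
  subst h5
  nlinarith [h4]

theorem dev3_two (a b c : ℝ) (h : a + b + c = 0) (ha : -1 < a) (hb : -1 < b) (hc : -1 < c)
    (h1 : 0 ≤ a) (h2 : 0 ≤ b) (h3 : c ≤ 0) :
    0 ≤ a + b ∧ a + b < 2 ∧
      3 / 4 * (a + b) ^ 2 - 1 / 4 * (a + b) ^ 3 ≤ 1 - (1 + a) * (1 + b) * (1 + c) := by
  refine ⟨by linarith, by linarith, ?_⟩
  have h4 : 0 ≤ (1 + c) * (a - b) ^ 2 := mul_nonneg (by linarith) (sq_nonneg _)
  have h6 : 0 ≤ (a + b) ^ 3 := pow_nonneg (by linarith) 3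
  have h5 : c = -(a + b) := by linarith
  subst h5
  nlinarith [h4, h6]

theorem dev3 (x : Fin 3 → ℝ) (hx : ∑ i, x i = 0) (h1 : ∀ i, -1 < x i) (s : ℝ)
    (hs : s = ∑ i, max (x i) 0) :
    0 ≤ s ∧ s < 2 ∧ 3 / 4 * s ^ 2 - 1 / 4 * s ^ 3 ≤ 1 - ∏ i, (1 + x i) := by
  rw [Fin.sum_univ_three] at hx hs
  rw [Fin.prod_univ_three]
  have a0 := h1 0
  have a1 := h1 1
  have a2 := h1 2
  rcases le_total (x 0) 0 with h | h <;> rcases le_total (x 1) 0 with h' | h' <;>
    rcases le_total (x 2) 0 with h'' | h''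
  · rw [max_eq_right h, max_eq_right h', max_eq_right h''] at hs
    have e0 : x 0 = 0 := by linarith
    have e1 : x 1 = 0 := by linarith
    have e2 : x 2 = 0 := by linarith
    subst hs
    rw [e0, e1, e2]
    norm_num
  · rw [max_eq_right h, max_eq_right h', max_eq_left h''] at hs
    have := dev3_one (x 2) (x 0) (x 1) (by linarith) a2 a0 a1 h'' h h'
    have e : s = x 2 := by linarith
    rw [e]
    refine ⟨this.1, this.2.1, this.2.2.trans (le_of_eq ?_)⟩
    ring
  · rw [max_eq_right h, max_eq_left h', max_eq_right h''] at hs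
    have := dev3_one (x 1) (x 0) (x 2) (by linarith) a1 a0 a2 h' h h''
    have e : s = x 1 := by linarith
    rw [e]
    refine ⟨this.1, this.2.1, this.2.2.trans (le_of_eq ?_)⟩
    ring
  · rw [max_eq_right h, max_eq_left h', max_eq_left h''] at hs
    have := dev3_two (x 1) (x 2) (x 0) (by linarith) a1 a2 a0 h' h'' h
    have e : s = x 1 + x 2 := by linarith
    rw [e]
    refine ⟨this.1, this.2.1, this.2.2.trans (le_of_eq ?_)⟩
    ring
  · rw [max_eq_left h, max_eq_right h', max_eq_right h''] at hs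
    have := dev3_one (x 0) (x 1) (x 2) (by linarith) a0 a1 a2 h h' h''
    have e : s = x 0 := by linarith
    rw [e]
    exact this
  · rw [max_eq_left h, max_eq_right h', max_eq_left h''] at hs
    have := dev3_two (x 0) (x 2) (x 1) (by linarith) a0 a2 a1 h h'' h'
    have e : s = x 0 + x 2 := by linarith
    rw [e]
    refine ⟨this.1, this.2.1, this.2.2.trans (le_of_eq ?_)⟩
    ring
  · rw [max_eq_left h, max_eq_left h', max_eq_right h''] at hs
    have := dev3_two (x 0) (x 1) (x 2) (by linarith) a0 a1 a2 h h' h''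
    have e : s = x 0 + x 1 := by linarith
    rw [e]
    exact this
  · rw [max_eq_left h, max_eq_left h', max_eq_left h''] at hs
    have e0 : x 0 = 0 := by linarith
    have e1 : x 1 = 0 := by linarith
    have e2 : x 2 = 0 := by linarith
    rw [e0, e1, e2] at hs
    subst hs
    rw [e0, e1, e2]
    norm_num

end Pool.Agent.Helper153.Ditt
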