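import Pool.Agent.Helper153.Ditt.Defs

set_option autoImplicit false

open scoped BigOperators

namespace Pool.Agent.Helper153.Ditt

variable {n : ℕ}

theorem aux_fin (s P : ℝ) (h0 : 0 ≤ s) (h2 : s ≤ 2) (hP : P ≤ (1 - s ^ 2 / 4) ^ 2)
    (hR : 29 / 32 ≤ P) : s ≤ 3 / 4 := by
  by_contra hcon
  push Not at hcon
  have h1 : (1 - s ^ 2 / 4) ≤ 55 / 64 := by nlinarith
  have h3 : 0 ≤ 1 - s ^ 2 / 4 := by nlinarith
  nlinarith

theorem aux_22 (a b c d P s : ℝ) (hP : P = (1 + a) * (1 + b) * (1 + c) * (1 + d))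
    (hs : s = a + b) (h0 : a + b + c + d = 0) (ha : 0 ≤ a) (hb : 0 ≤ b) (hc : c ≤ 0) (hd : d ≤ 0)
    (hc1 : -1 < c) (hd1 : -1 < d) (hR : 29 / 32 ≤ P) :
    0 ≤ s ∧ s ≤ 3 / 4 ∧ s ^ 2 / 2 - s ^ 4 / 16 ≤ 1 - P := by
  have hs0 : 0 ≤ s := by linarith
  have hs2 : s ≤ 2 := by linarith
  have h1 : (1 + a) * (1 + b) ≤ (1 + s / 2) ^ 2 := by
    rw [hs]
    nlinarith [sq_nonneg (a - b)]
  have h2 : (1 + c) * (1 + d) ≤ (1 - s / 2) ^ 2 := by
    have : s = -(c + d) := by linarith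
    rw [this]
    nlinarith [sq_nonneg (c - d)]
  have h3 : P ≤ (1 - s ^ 2 / 4) ^ 2 := by
    have e : P = ((1 + a) * (1 + b)) * ((1 + c) * (1 + d)) := by rw [hP]; ring
    have h4 : 0 ≤ (1 + c) * (1 + d) := mul_nonneg (by linarith) (by linarith)
    calc P = ((1 + a) * (1 + b)) * ((1 + c) * (1 + d)) := e
      _ ≤ (1 + s / 2) ^ 2 * (1 - s / 2) ^ 2 := mul_le_mul h1 h2 h4 (by positivity)
      _ = (1 - s ^ 2 / 4) ^ 2 := by ring
  refine ⟨hs0, aux_fin s P hs0 hs2 h3 hR, ?_⟩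
  nlinarith

/-- AM-GM for three numbers -/
theorem aux_amgm (x y z : ℝ) (hx : 0 ≤ x) (hy : 0 ≤ y) (hz : 0 ≤ z) :
    x * y * z ≤ ((x + y + z) / 3) ^ 3 := by
  nlinarith [mul_nonneg hx (sq_nonneg (y - z)), mul_nonneg hy (sq_nonneg (x - z)),
    mul_nonneg hz (sq_nonneg (x - y)), mul_nonneg (add_nonneg (add_nonneg hx hy) hz)
      (add_nonneg (add_nonneg (sq_nonneg (x - y)) (sq_nonneg (y - z))) (sq_nonneg (x - z)))]

theorem aux_31 (a b c d P s : ℝ) (hP : P = (1 + a) * (1 + b) * (1 + c) * (1 + d))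
    (hs : s = a + b + c) (h0 : a + b + c + d = 0) (ha : 0 ≤ a) (hb : 0 ≤ b) (hc : 0 ≤ c)
    (hd1 : -1 < d) (hR : 29 / 32 ≤ P) :
    0 ≤ s ∧ s ≤ 3 / 4 ∧ s ^ 2 / 2 - s ^ 4 / 16 ≤ 1 - P := by
  have hs0 : 0 ≤ s := by linarith
  have hs1 : s ≤ 1 := by linarith
  have h1 : (1 + a) * (1 + b) * (1 + c) ≤ (1 + s / 3) ^ 3 := by
    have := aux_amgm (1 + a) (1 + b) (1 + c) (by linarith) (by linarith) (by linarith)
    have e : (1 + a + (1 + b) + (1 + c)) / 3 = 1 + s / 3 := by rw [hs]; ring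
    rwa [e] at this
  have h3 : P ≤ (1 - s ^ 2 / 4) ^ 2 := by
    have hd : 1 + d = 1 - s := by linarith
    calc P = ((1 + a) * (1 + b) * (1 + c)) * (1 - s) := by rw [hP, hd]
      _ ≤ (1 + s / 3) ^ 3 * (1 - s) := mul_le_mul_of_nonneg_right h1 (by linarith)
      _ = (1 - s ^ 2 / 4) ^ 2 - s ^ 2 * (1 / 6 + 8 / 27 * s + 43 / 432 * s ^ 2) := by ring
      _ ≤ (1 - s ^ 2 / 4) ^ 2 := by
        have : 0 ≤ s ^ 2 * (1 / 6 + 8 / 27 * s + 43 / 432 * s ^ 2) := by positivity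
        linarith
  refine ⟨hs0, aux_fin s P hs0 (by linarith) h3 hR, ?_⟩
  nlinarith

theorem aux_13 (a b c d P s : ℝ) (hP : P = (1 + a) * (1 + b) * (1 + c) * (1 + d))
    (hs : s = a) (h0 : a + b + c + d = 0) (hb : b ≤ 0) (hc : c ≤ 0) (hd : d ≤ 0)
    (hb1 : -1 < b) (hc1 : -1 < c) (hd1 : -1 < d) (hR : 29 / 32 ≤ P) :
    0 ≤ s ∧ s ≤ 3 / 4 ∧ s ^ 2 / 2 - s ^ 4 / 16 ≤ 1 - P := by
  have hs0 : 0 ≤ s := by linarith
  have hs3 : s ≤ 3 := by linarith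
  have h1 : (1 + b) * (1 + c) * (1 + d) ≤ (1 - s / 3) ^ 3 := by
    have := aux_amgm (1 + b) (1 + c) (1 + d) (by linarith) (by linarith) (by linarith)
    have e : (1 + b + (1 + c) + (1 + d)) / 3 = 1 - s / 3 := by
      rw [hs]
      linarith
    rwa [e] at this
  have h2 : P ≤ (1 + s) * (1 - s / 3) ^ 3 := by
    calc P = (1 + s) * ((1 + b) * (1 + c) * (1 + d)) := by rw [hP, hs]; ring
      _ ≤ (1 + s) * (1 - s / 3) ^ 3 := mul_le_mul_of_nonneg_left h1 (by linarith)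
  have hs4 : s ≤ 3 / 4 := by
    by_contra hcon
    push Not at hcon
    set v : ℝ := 1 - s / 3 with hv
    have hv0 : 0 ≤ v := by linarith
    have hv1 : v ≤ 3 / 4 := by linarith
    have e : (1 + s) * v ^ 3 = 189 / 256 + (3 / 4 - v) * (3 * v ^ 3 - 7 / 4 * v ^ 2 - 21 / 16 * v -
        63 / 64) := by
      have : s = 3 * (1 - v) := by rw [hv]; ring
      rw [this]
      ring
    have h5 : 3 * v ^ 3 - 7 / 4 * v ^ 2 - 21 / 16 * v - 63 / 64 ≤ 0 := by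
      have h6 : v ^ 2 ≤ 9 / 16 := by nlinarith
      have h7 : v ^ 3 ≤ 9 / 16 * v := by
        calc v ^ 3 = v ^ 2 * v := by ring
          _ ≤ 9 / 16 * v := mul_le_mul_of_nonneg_right h6 hv0
      nlinarith [sq_nonneg v]
    have h8 : (3 / 4 - v) * (3 * v ^ 3 - 7 / 4 * v ^ 2 - 21 / 16 * v - 63 / 64) ≤ 0 :=
      mul_nonpos_of_nonneg_of_nonpos (by linarith) h5
    rw [e] at h2
    linarith
  refine ⟨hs0, hs4, ?_⟩
  have h9 : 0 ≤ 1 / 6 - 8 / 27 * s + 43 / 432 * s ^ 2 := by nlinarith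
  have h10 : (1 + s) * (1 - s / 3) ^ 3 = (1 - s ^ 2 / 4) ^ 2 - s ^ 2 * (1 / 6 - 8 / 27 * s + 43 / 432 * s ^ 2) := by ring
  have h11 : 0 ≤ s ^ 2 * (1 / 6 - 8 / 27 * s + 43 / 432 * s ^ 2) := mul_nonneg (sq_nonneg s) h9
  nlinarith

theorem dev4 (x : Fin 4 → ℝ) (hx : ∑ i, x i = 0) (h1 : ∀ i, -1 < x i) (s : ℝ)
    (hs : s = ∑ i, max (x i) 0) (hR : 29 / 32 ≤ ∏ i, (1 + x i)) :
    0 ≤ s ∧ s ≤ 3 / 4 ∧ s ^ 2 / 2 - s ^ 4 / 16 ≤ 1 - ∏ i, (1 + x i) := by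
  rw [Fin.sum_univ_four] at hx hs
  rw [Fin.prod_univ_four] at hR ⊢
  have g0 := h1 0
  have g1 := h1 1
  have g2 := h1 2
  have g3 := h1 3
  rcases le_total 0 (x 0) with k0 | k0 <;> rcases le_total 0 (x 1) with k1 | k1 <;>
    rcases le_total 0 (x 2) with k2 | k2 <;> rcases le_total 0 (x 3) with k3 | k3 <;>
    simp only [max_eq_left, max_eq_right, k0, k1, k2, k3] at hs
  · exact aux_22 (x 0) (x 1) (x 2) (x 3) _ s (by ring) (by linarith) (by linarith) k0 k1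
      (by linarith) (by linarith) g2 g3 hR
  · exact aux_31 (x 0) (x 1) (x 2) (x 3) _ s (by ring) (by linarith) (by linarith) k0 k1 k2 g3 hR
  · exact aux_31 (x 0) (x 1) (x 3) (x 2) _ s (by ring) (by linarith) (by linarith) k0 k1 k3 g2 hR
  · exact aux_22 (x 0) (x 1) (x 2) (x 3) _ s (by ring) (by linarith) (by linarith) k0 k1
      k2 k3 g2 g3 hR
  · exact aux_31 (x 0) (x 2) (x 3) (x 1) _ s (by ring) (by linarith) (by linarith) k0 k2 k3 g1 hR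
  · exact aux_22 (x 0) (x 2) (x 1) (x 3) _ s (by ring) (by linarith) (by linarith) k0 k2
      k1 k3 g1 g3 hR
  · exact aux_22 (x 0) (x 3) (x 1) (x 2) _ s (by ring) (by linarith) (by linarith) k0 k3
      k1 k2 g1 g2 hR
  · exact aux_13 (x 0) (x 1) (x 2) (x 3) _ s (by ring) (by linarith) (by linarith) k1 k2 k3
      g1 g2 g3 hR
  · exact aux_31 (x 1) (x 2) (x 3) (x 0) _ s (by ring) (by linarith) (by linarith) k1 k2 k3 g0 hR
  · exact aux_22 (x 1) (x 2) (x 0) (x 3) _ s (by ring) (by linarith) (by linarith) k1 k2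
      k0 k3 g0 g3 hR
  · exact aux_22 (x 1) (x 3) (x 0) (x 2) _ s (by ring) (by linarith) (by linarith) k1 k3
      k0 k2 g0 g2 hR
  · exact aux_13 (x 1) (x 0) (x 2) (x 3) _ s (by ring) (by linarith) (by linarith) k0 k2 k3
      g0 g2 g3 hR
  · exact aux_22 (x 2) (x 3) (x 0) (x 1) _ s (by ring) (by linarith) (by linarith) k2 k3
      k0 k1 g0 g1 hR
  · exact aux_13 (x 2) (x 0) (x 1) (x 3) _ s (by ring) (by linarith) (by linarith) k0 k1 k3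
      g0 g1 g3 hR
  · exact aux_13 (x 3) (x 0) (x 1) (x 2) _ s (by ring) (by linarith) (by linarith) k0 k1 k2
      g0 g1 g2 hR
  · exact aux_22 (x 0) (x 1) (x 2) (x 3) _ s (by ring) (by linarith) (by linarith) (by linarith)
      (by linarith) k2 k3 g2 g3 hR


end Pool.Agent.Helper153.Ditt
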