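import Pool.Agent.Helper153.Ditt.Defs

set_option autoImplicit false

open scoped BigOperators

namespace Pool.Agent.Helper153.Ditt

variable {n : ℕ}


private theorem log_ineq (x s : ℝ) (hs : 0 ≤ s) (hx : x ≤ s) (h1 : -1 < x) :
    Real.log (1 + x) ≤ x - x ^ 2 / (2 * (1 + s)) := by
  rcases le_total 0 x with h | h
  · have hpos : 0 < 1 + x := by linarith
    have hl : 0 ≤ Real.log (1 + x) := Real.log_nonneg (by linarith)
    have h2 : Real.log (1 + x) ≤ Real.sinh (Real.log (1 + x)) := Real.self_le_sinh_iff.2 hl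
    rw [Real.sinh_log hpos] at h2
    have h3 : ((1 + x) - (1 + x)⁻¹) / 2 = x - x ^ 2 / (2 * (1 + x)) := by
      field_simp
      ring
    have h4 : x ^ 2 / (2 * (1 + s)) ≤ x ^ 2 / (2 * (1 + x)) := by
      apply div_le_div_of_nonneg_left (sq_nonneg x) (by linarith) (by linarith)
    linarith
  · have hpos : 0 < 1 + x := by linarith
    have hy : |(-x)| < 1 := by rw [abs_lt]; constructor <;> linarith
    have hS := Real.hasSum_pow_div_log_of_abs_lt_one hy
    have h5 := sum_le_hasSum (Finset.range 2) (fun i _ => by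
      have : (0:ℝ) ≤ (-x) ^ (i + 1) := pow_nonneg (by linarith) _
      positivity) hS
    simp [Finset.sum_range_succ] at h5
    have h6 : x ^ 2 / (2 * (1 + s)) ≤ x ^ 2 / 2 := by
      apply div_le_div_of_nonneg_left (sq_nonneg x) (by linarith) (by linarith)
    norm_num at h5
    linarith

theorem devn {n : ℕ} (hn : 1 ≤ n) (x : Fin n → ℝ) (hx : ∑ i, x i = 0) (h1 : ∀ i, -1 < x i) (s : ℝ)
    (hs : s = ∑ i, max (x i) 0) :
    0 ≤ s ∧ ∏ i, (1 + x i) ≤ Real.exp (-(2 * s ^ 2 / (n * (1 + s)))) := by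
  have hs0 : 0 ≤ s := by
    rw [hs]; exact Finset.sum_nonneg (fun i _ => le_max_right _ _)
  refine ⟨hs0, ?_⟩
  have hle : ∀ i, x i ≤ s := by
    intro i
    rw [hs]
    refine (le_max_left (x i) 0).trans ?_
    exact Finset.single_le_sum (f := fun i => max (x i) 0) (fun j _ => le_max_right _ _) (Finset.mem_univ i)
  have habs : ∑ i, |x i| = 2 * s := by
    have : ∀ i, |x i| = 2 * max (x i) 0 - x i := by
      intro i
      rcases le_total 0 (x i) with h | h
      · rw [abs_of_nonneg h, max_eq_left h]; ring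
      · rw [abs_of_nonpos h, max_eq_right h]; ring
    rw [Finset.sum_congr rfl (fun i _ => this i), Finset.sum_sub_distrib, ← Finset.mul_sum, hx, ← hs]
    ring
  have hcs : (2 * s) ^ 2 ≤ n * ∑ i, (x i) ^ 2 := by
    rw [← habs]
    have := sq_sum_le_card_mul_sum_sq (s := (Finset.univ : Finset (Fin n))) (f := fun i => |x i|)
    simpa using this
  have hnpos : (0:ℝ) < n := by exact_mod_cast hn
  have hlog : ∑ i, Real.log (1 + x i) ≤ -(2 * s ^ 2 / (n * (1 + s))) := by
    calc ∑ i, Real.log (1 + x i) ≤ ∑ i, (x i - x i ^ 2 / (2 * (1 + s))) :=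
          Finset.sum_le_sum (fun i _ => log_ineq _ _ hs0 (hle i) (h1 i))
      _ = - ((∑ i, x i ^ 2) / (2 * (1 + s))) := by
          rw [Finset.sum_sub_distrib, hx, Finset.sum_div]; ring
      _ ≤ -(2 * s ^ 2 / (n * (1 + s))) := by
          apply neg_le_neg
          rw [div_le_div_iff₀ (by positivity) (by positivity)]
          have h1s : 0 < 1 + s := by linarith
          nlinarith [mul_le_mul_of_nonneg_right hcs h1s.le]
  have hprod : ∏ i, (1 + x i) = Real.exp (∑ i, Real.log (1 + x i)) := by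
    rw [Real.exp_sum]
    refine Finset.prod_congr rfl (fun i _ => ?_)
    rw [Real.exp_log]
    linarith [h1 i]
  rw [hprod]
  exact Real.exp_le_exp.2 hlog

end Pool.Agent.Helper153.Ditt
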