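import Pool.Agent.Helper153.Ditt.Defs

set_option autoImplicit false

open scoped BigOperators

namespace Pool.Agent.Helper153.Ditt

variable {n : ℕ}

theorem real3_A (s t : ℝ) (hs : 0 ≤ s) (ht : 0 ≤ t) (h : s + t ≤ 2 / 3) :
    0 < (1 - s - t) * (1 - s / 2) - 3 * (2 / 9 - (3 / 4 * s ^ 2 - 1 / 4 * s ^ 3) -
      (3 / 4 * t ^ 2 - 1 / 4 * t ^ 3)) := by
  have h1 : 0 ≤ (s - 3 / 10) ^ 2 * (2 / 3 - s) := mul_nonneg (sq_nonneg _) (by linarith)
  have h2 : 0 ≤ (t - 1 / 5) ^ 2 * (2 / 3 - t) := mul_nonneg (sq_nonneg _) (by linarith)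
  nlinarith [sq_nonneg (s + 5 / 36 * t - 151 / 480), sq_nonneg (t - 433 / 2000)]

theorem real3_B (s t : ℝ) (hs : 0 ≤ s) (ht : 0 ≤ t) (h : 2 / 3 ≤ s + t) (h' : s + t ≤ 1) :
    0 < (1 - s - t) ^ 2 * (1 - s / 2) - (2 / 9 - (3 / 4 * s ^ 2 - 1 / 4 * s ^ 3) -
      (3 / 4 * t ^ 2 - 1 / 4 * t ^ 3)) := by
  have h0 : 0 ≤ (1 - s - t) * s * (1 / 3 - (1 - s - t)) :=
    mul_nonneg (mul_nonneg (by linarith) hs) (by linarith)
  have h1 : 0 ≤ (s - 9 / 25) ^ 2 * (1 - s) := mul_nonneg (sq_nonneg _) (by linarith)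
  have h2 : 0 ≤ (t - 9 / 25) ^ 2 * (1 - t) := mul_nonneg (sq_nonneg _) (by linarith)
  nlinarith [sq_nonneg (s + 325 / 446 * t - 14657 / 22300), sq_nonneg (t - 342577 / 1000000)]

theorem real3 (s t P z : ℝ) (hs : 0 ≤ s) (ht : 0 ≤ t) (hs2 : s < 2) (ht2 : t < 2) (hz : z = 1 - s - t)
    (hP0 : 0 ≤ P)
    (hP : P ≤ 2 / 9 - (3 / 4 * s ^ 2 - 1 / 4 * s ^ 3) - (3 / 4 * t ^ 2 - 1 / 4 * t ^ 3)) :
    0 < z ∧ (1 / 3 ≤ z → P < z / 3 * (1 - s / 2) ∧ P < z / 3 * (1 - t / 2)) ∧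
      (z ≤ 1 / 3 → P < z ^ 2 * (1 - s / 2) ∧ P < z ^ 2 * (1 - t / 2)) := by
  have q0 : ∀ x : ℝ, 0 ≤ x → x < 2 → 0 ≤ 3 / 4 * x ^ 2 - 1 / 4 * x ^ 3 := by
    intro x hx hx2
    have : 0 ≤ x ^ 2 * (3 - x) := mul_nonneg (sq_nonneg _) (by linarith)
    nlinarith
  have q1 : ∀ x : ℝ, 1 ≤ x → x < 2 → 1 / 2 ≤ 3 / 4 * x ^ 2 - 1 / 4 * x ^ 3 := by
    intro x hx hx2
    have h1 : 0 ≤ (x - 1) * (2 - x) * x := mul_nonneg (mul_nonneg (by linarith) (by linarith)) (by linarith)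
    nlinarith
  have q2 : ∀ x : ℝ, 0 ≤ x → x ≤ 1 → x ^ 2 / 2 ≤ 3 / 4 * x ^ 2 - 1 / 4 * x ^ 3 := by
    intro x hx hx2
    have h1 : 0 ≤ x ^ 2 * (1 - x) := mul_nonneg (sq_nonneg _) (by linarith)
    nlinarith
  have hst : s + t < 1 := by
    by_contra hcon
    push Not at hcon
    rcases le_total s 1 with h1 | h1
    · rcases le_total t 1 with h2 | h2
      · have := q2 s hs h1
        have := q2 t ht h2
        nlinarith [sq_nonneg (s - t)]
      · have := q1 t h2 ht2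
        have := q0 s hs hs2
        linarith
    · have := q1 s h1 hs2
      have := q0 t ht ht2
      linarith
  refine ⟨by linarith, fun h => ?_, fun h => ?_⟩
  · have a1 := real3_A s t hs ht (by linarith)
    have a2 := real3_A t s ht hs (by linarith)
    rw [hz]
    constructor
    · linarith
    · have e : (1 - t - s) * (1 - t / 2) = (1 - s - t) * (1 - t / 2) := by ring
      rw [e] at a2
      linarith
  · have a1 := real3_B s t hs ht (by linarith) hst.le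
    have a2 := real3_B t s ht hs (by linarith) (by linarith)
    rw [hz]
    constructor
    · linarith
    · have e : (1 - t - s) ^ 2 * (1 - t / 2) = (1 - s - t) ^ 2 * (1 - t / 2) := by ring
      rw [e] at a2
      linarith

end Pool.Agent.Helper153.Ditt
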