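import Pool.Agent.Helper153.Ditt.Defs

set_option autoImplicit false

open scoped BigOperators

namespace Pool.Agent.Helper153.Ditt

variable {n : ℕ}

theorem real4_U (z : ℝ) (h1 : 1 / 3 ≤ z) (h2 : z ≤ 1) :
    0 < 17199/2500 + (-14112/625) * z + 65709/1250 * z ^ 2 + (-74172/625) * z ^ 3 + 73227/500 * z ^ 4 +
      (-95508/625) * z ^ 5 + 364391/2500 * z ^ 6 := by
  rcases le_total z (1 / 2) with h | h
  · have e : 17199/2500 + (-14112/625) * z + 65709/1250 * z ^ 2 + (-74172/625) * z ^ 3 + 73227/500 * z ^ 4 +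
      (-95508/625) * z ^ 5 + 364391/2500 * z ^ 6 =
      (63503984/625) * (z - (1/3)) ^ 0 * ((1/2) - z) ^ 6 + (326446704/625) * (z - (1/3)) ^ 1 * ((1/2) - z) ^ 5 + (136246212/125) * (z - (1/3)) ^ 2 * ((1/2) - z) ^ 4 + (732531168/625) * (z - (1/3)) ^ 3 * ((1/2) - z) ^ 3 + (425145024/625) * (z - (1/3)) ^ 4 * ((1/2) - z) ^ 2 + (126931293/625) * (z - (1/3)) ^ 5 * ((1/2) - z) ^ 1 + (64480779/2500) * (z - (1/3)) ^ 6 * ((1/2) - z) ^ 0 := by ring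
    rw [e]
    have u : 0 ≤ z - (1/3) := by linarith
    have v : 0 ≤ (1/2) - z := by linarith
    rcases eq_or_lt_of_le u with hu | hu
    · have hz : z = 1 / 3 := by linarith
      rw [hz]; norm_num
    · positivity
  · have e : 17199/2500 + (-14112/625) * z + 65709/1250 * z ^ 2 + (-74172/625) * z ^ 3 + 73227/500 * z ^ 4 +
      (-95508/625) * z ^ 5 + 364391/2500 * z ^ 6 =
      (88451/2500) * (z - (1/2)) ^ 0 * ((1) - z) ^ 6 + (1671/125) * (z - (1/2)) ^ 1 * ((1) - z) ^ 5 + (108744/625) * (z - (1/2)) ^ 2 * ((1) - z) ^ 4 + (315328/125) * (z - (1/2)) ^ 3 * ((1) - z) ^ 3 + (4606836/625) * (z - (1/2)) ^ 4 * ((1) - z) ^ 2 + (214608/25) * (z - (1/2)) ^ 5 * ((1) - z) ^ 1 + (92144/25) * (z - (1/2)) ^ 6 * ((1) - z) ^ 0 := by ring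
    rw [e]
    have u : 0 ≤ z - (1/2) := by linarith
    have v : 0 ≤ (1) - z := by linarith
    rcases eq_or_lt_of_le u with hu | hu
    · have hz : z = 1 / 2 := by linarith
      rw [hz]; norm_num
    · positivity

theorem real4_aux (s t P z : ℝ) (hs : 0 ≤ s) (ht : 0 ≤ t) (hz : z = 1 - s - t) (hz1 : 1 / 3 ≤ z)
    (hP : P ≤ 3 / 32 - 12 / 25 * (s ^ 2 + t ^ 2)) :
    27 * P < 4 * (1 - s) * z ∧ 7 * P * (1 + 3 * z ^ 2) < 5 * (1 - s) * z ^ 3 := by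
  constructor
  · rw [hz]
    nlinarith [sq_nonneg (s - 227/1000), sq_nonneg (t - 123/1000), sq_nonneg (s + t - 350/1000)]
  · have hU := real4_U z hz1 (by rw [hz]; linarith)
    have hc : 0 < 42 / 25 * (1 + 3 * z ^ 2) := by positivity
    have key : 4 * (42 / 25 * (1 + 3 * z ^ 2)) *
        (5 * (1 - s) * z ^ 3 - 7 * (1 + 3 * z ^ 2) * (3 / 32 - 12 / 25 * (s ^ 2 + t ^ 2))) =
        (2 * (42 / 25 * (1 + 3 * z ^ 2)) * (s - t) - 5 / 2 * z ^ 3) ^ 2 +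
        (17199/2500 + (-14112/625) * z + 65709/1250 * z ^ 2 + (-74172/625) * z ^ 3 + 73227/500 * z ^ 4 +
      (-95508/625) * z ^ 5 + 364391/2500 * z ^ 6) := by
      rw [hz]; ring
    have hG : 0 < 5 * (1 - s) * z ^ 3 - 7 * (1 + 3 * z ^ 2) * (3 / 32 - 12 / 25 * (s ^ 2 + t ^ 2)) := by
      have h3 : 0 < 4 * (42 / 25 * (1 + 3 * z ^ 2)) *
        (5 * (1 - s) * z ^ 3 - 7 * (1 + 3 * z ^ 2) * (3 / 32 - 12 / 25 * (s ^ 2 + t ^ 2))) := by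
        rw [key]
        have := sq_nonneg (2 * (42 / 25 * (1 + 3 * z ^ 2)) * (s - t) - 5 / 2 * z ^ 3)
        linarith
      exact (pos_iff_pos_of_mul_pos h3).1 (by linarith)
    have h4 : 7 * P * (1 + 3 * z ^ 2) ≤ 7 * (1 + 3 * z ^ 2) * (3 / 32 - 12 / 25 * (s ^ 2 + t ^ 2)) := by
      have h5 : 0 ≤ 7 * (1 + 3 * z ^ 2) := by positivity
      have := mul_le_mul_of_nonneg_left hP h5
      linarith
    linarith

theorem real4 (s t P z : ℝ) (hs : 0 ≤ s) (ht : 0 ≤ t) (hs2 : s ≤ 3 / 4) (ht2 : t ≤ 3 / 4)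
    (hz : z = 1 - s - t) (hP0 : 0 ≤ P)
    (hP : P ≤ 3 / 32 - (s ^ 2 / 2 - s ^ 4 / 16) - (t ^ 2 / 2 - t ^ 4 / 16)) :
    1 / 3 ≤ z ∧ 27 * P < 4 * (1 - s) * z ∧ 27 * P < 4 * (1 - t) * z ∧
      7 * P * (1 + 3 * z ^ 2) < 5 * (1 - s) * z ^ 3 ∧
      7 * P * (1 + 3 * z ^ 2) < 5 * (1 - t) * z ^ 3 := by
  have b1 : s ^ 2 * (119 / 256) ≤ s ^ 2 / 2 - s ^ 4 / 16 := by
    have : s ^ 2 ≤ 9 / 16 := by nlinarith
    nlinarith [sq_nonneg s, mul_nonneg (sq_nonneg s) (sub_nonneg.2 this)]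
  have b2 : t ^ 2 * (119 / 256) ≤ t ^ 2 / 2 - t ^ 4 / 16 := by
    have : t ^ 2 ≤ 9 / 16 := by nlinarith
    nlinarith [sq_nonneg t, mul_nonneg (sq_nonneg t) (sub_nonneg.2 this)]
  have b3 : s ^ 2 + t ^ 2 ≤ 24 / 119 := by linarith
  have c1 : s ^ 2 * (12 / 25) ≤ s ^ 2 / 2 - s ^ 4 / 16 := by
    have : s ^ 2 ≤ 8 / 25 := by nlinarith [sq_nonneg t]
    nlinarith [sq_nonneg s, mul_nonneg (sq_nonneg s) (sub_nonneg.2 this)]
  have c2 : t ^ 2 * (12 / 25) ≤ t ^ 2 / 2 - t ^ 4 / 16 := by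
    have : t ^ 2 ≤ 8 / 25 := by nlinarith [sq_nonneg s]
    nlinarith [sq_nonneg t, mul_nonneg (sq_nonneg t) (sub_nonneg.2 this)]
  have hP2 : P ≤ 3 / 32 - 12 / 25 * (s ^ 2 + t ^ 2) := by linarith
  have hz1 : 1 / 3 ≤ z := by
    have h1 : (s + t) ^ 2 ≤ (5 / 8) ^ 2 := by nlinarith [sq_nonneg (s - t)]
    have h2 : s + t ≤ 5 / 8 := by
      by_contra hcon
      push Not at hcon
      nlinarith
    rw [hz]; linarith
  obtain ⟨k1, k2⟩ := real4_aux s t P z hs ht hz hz1 hP2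
  obtain ⟨k3, k4⟩ := real4_aux t s P z ht hs (by rw [hz]; ring) hz1 (by linarith)
  exact ⟨hz1, k1, k3, k2, k4⟩

end Pool.Agent.Helper153.Ditt
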