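import Pool.Agent.Helper153.Ditt.Defs

set_option autoImplicit false

open scoped BigOperators

namespace Pool.Agent.Helper153.Ditt

variable {n : ℕ}

theorem real5_a (s : ℝ) (hs : 0 ≤ s) :
    2 * s ^ 2 / (5 + 5 * s + 2 * s ^ 2) ≤ 1 - Real.exp (-(2 * s ^ 2 / (5 * (1 + s)))) := by
  set a : ℝ := 2 * s ^ 2 / (5 * (1 + s)) with ha
  have ha0 : 0 ≤ a := by positivity
  have h1 : Real.exp (-a) ≤ (1 + a)⁻¹ := by
    rw [Real.exp_neg]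
    apply inv_anti₀ (by positivity)
    have := Real.add_one_le_exp a
    linarith
  have h2 : 2 * s ^ 2 / (5 + 5 * s + 2 * s ^ 2) = 1 - (1 + a)⁻¹ := by
    rw [ha]
    have e1 : (0 : ℝ) < 1 + s := by positivity
    have e2 : (0 : ℝ) < 5 + 5 * s + 2 * s ^ 2 := by positivity
    have e3 : 1 + 2 * s ^ 2 / (5 * (1 + s)) = (5 + 5 * s + 2 * s ^ 2) / (5 * (1 + s)) := by
      field_simp
    rw [e3, inv_div]
    field_simp
    ring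
  rw [h2]
  linarith

theorem real5_b (s : ℝ) (hs : 0 ≤ s) :
    (2 / 5) * (s ^ 2 * (1 - s)) ≤ 2 * s ^ 2 / (5 + 5 * s + 2 * s ^ 2) := by
  rw [le_div_iff₀ (by positivity)]
  have h1 : 2 / 5 * (s ^ 2 * (1 - s)) * (5 + 5 * s + 2 * s ^ 2) =
      2 * s ^ 2 - (6 / 5 * s ^ 4 + 4 / 5 * s ^ 5) := by ring
  rw [h1]
  have : 0 ≤ 6 / 5 * s ^ 4 + 4 / 5 * s ^ 5 := by positivity
  linarith

theorem real5_c (s : ℝ) (hs : 0 ≤ s) (h : 2 * s ^ 2 / (5 + 5 * s + 2 * s ^ 2) ≤ 24 / 625) :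
    s ≤ 37 / 100 := by
  rw [div_le_iff₀ (by positivity)] at h
  by_contra hc
  push Not at hc
  nlinarith

theorem real5_h (Z : ℝ) (h0 : 0 ≤ Z) (h1 : Z ≤ 14 / 25) :
    (24 / 25 - 5 * Z ^ 2 + 5 / 2 * Z ^ 3) * (1 + 3 * (1 - Z) ^ 2) < 8 * (1 - Z) ^ 4 := by
  have hw : 0 ≤ 14 / 25 - Z := by linarith
  have key : 8 * (1 - Z) ^ 4 - (24 / 25 - 5 * Z ^ 2 + 5 / 2 * Z ^ 3) * (1 + 3 * (1 - Z) ^ 2) =
      (5078125/67228) * (Z ^ 0 * (14 / 25 - Z) ^ 5) + (7453125/67228) * (Z ^ 1 * (14 / 25 - Z) ^ 4) + (990000/16807) * (Z ^ 2 * (14 / 25 - Z) ^ 3) + (626875/16807) * (Z ^ 3 * (14 / 25 - Z) ^ 2) + (2118775/67228) * (Z ^ 4 * (14 / 25 - Z) ^ 1) + (692065/67228) * (Z ^ 5 * (14 / 25 - Z) ^ 0) := by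
    ring
  have hpos : 0 < (5078125/67228) * (Z ^ 0 * (14 / 25 - Z) ^ 5) + (7453125/67228) * (Z ^ 1 * (14 / 25 - Z) ^ 4) + (990000/16807) * (Z ^ 2 * (14 / 25 - Z) ^ 3) + (626875/16807) * (Z ^ 3 * (14 / 25 - Z) ^ 2) + (2118775/67228) * (Z ^ 4 * (14 / 25 - Z) ^ 1) + (692065/67228) * (Z ^ 5 * (14 / 25 - Z) ^ 0) := by
    rcases eq_or_lt_of_le h0 with e | e
    · rw [← e]; norm_num
    · positivity
  linarith

theorem real5_core (s t P z : ℝ) (hs : 0 ≤ s) (ht : 0 ≤ t) (hz : z = 1 - s - t) (hP0 : 0 ≤ P)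
    (hP : P ≤ 24 / 625 - (1 - Real.exp (-(2 * s ^ 2 / (5 * (1 + s)))))
      - (1 - Real.exp (-(2 * t ^ 2 / (5 * (1 + t)))))) :
    0 < z ∧ 25 * P * (1 + 3 * z ^ 2) < 8 * (1 - s) * z ^ 3 := by
  have a1 := real5_a s hs
  have a2 := real5_a t ht
  have b1 := real5_b s hs
  have b2 := real5_b t ht
  have q1 : 0 ≤ 2 * s ^ 2 / (5 + 5 * s + 2 * s ^ 2) := by positivity
  have q2 : 0 ≤ 2 * t ^ 2 / (5 + 5 * t + 2 * t ^ 2) := by positivity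
  have c1 := real5_c s hs (by linarith)
  have c2 := real5_c t ht (by linarith)
  have hst : s ^ 2 * (1 - s) + t ^ 2 * (1 - t) ≤ 12 / 125 := by linarith
  have hZ : s + t ≤ 14 / 25 := by
    by_contra hc
    push Not at hc
    nlinarith [sq_nonneg (s - t), mul_nonneg (sq_nonneg s) (sub_nonneg.2 c1),
      mul_nonneg (sq_nonneg t) (sub_nonneg.2 c2)]
  have hZ0 : 0 ≤ s + t := by linarith
  have hm := real5_h (s + t) hZ0 hZ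
  have hz' : z = 1 - (s + t) := by rw [hz]; ring
  have hz0 : 0 < z := by rw [hz']; linarith
  refine ⟨hz0, ?_⟩
  rw [← hz'] at hm
  have e1 : 25 * P ≤ 24 / 25 - 5 * (s + t) ^ 2 + 5 / 2 * (s + t) ^ 3 := by
    have e2 : 0 ≤ (2 - 3 * (s + t)) * (s - t) ^ 2 :=
      mul_nonneg (by linarith) (sq_nonneg _)
    have e3 : (s + t) ^ 2 / 2 - (s + t) ^ 3 / 4 + (2 - 3 * (s + t)) * (s - t) ^ 2 / 4 =
      s ^ 2 * (1 - s) + t ^ 2 * (1 - t) := by ring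
    linarith
  have e4 : 25 * P * (1 + 3 * z ^ 2) ≤
      (24 / 25 - 5 * (s + t) ^ 2 + 5 / 2 * (s + t) ^ 3) * (1 + 3 * z ^ 2) :=
    mul_le_mul_of_nonneg_right e1 (by positivity)
  have e5 : 8 * z ^ 4 ≤ 8 * (1 - s) * z ^ 3 := by
    have : z * z ^ 3 ≤ (1 - s) * z ^ 3 :=
      mul_le_mul_of_nonneg_right (by rw [hz]; linarith) (by positivity)
    nlinarith
  linarith

theorem real5 (s t P z : ℝ) (hs : 0 ≤ s) (ht : 0 ≤ t) (hz : z = 1 - s - t) (hP0 : 0 ≤ P)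
    (hP : P ≤ 24 / 625 - (1 - Real.exp (-(2 * s ^ 2 / (5 * (1 + s)))))
      - (1 - Real.exp (-(2 * t ^ 2 / (5 * (1 + t)))))) :
    0 < z ∧ 25 * P * (1 + 3 * z ^ 2) < 8 * (1 - s) * z ^ 3 ∧
      25 * P * (1 + 3 * z ^ 2) < 8 * (1 - t) * z ^ 3 := by
  obtain ⟨h1, h2⟩ := real5_core s t P z hs ht hz hP0 hP
  obtain ⟨_, h3⟩ := real5_core t s P z ht hs (by rw [hz]; ring) hP0 (by linarith)
  exact ⟨h1, h2, h3⟩

end Pool.Agent.Helper153.Ditt
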