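import Pool.Agent.Helper153.Ditt.Defs

set_option autoImplicit false

open scoped BigOperators

namespace Pool.Agent.Helper153.Ditt

variable {n : ℕ}

theorem mm_nonneg918 (n : ℕ) : 0 ≤ mm n := by
  unfold mm
  positivity

theorem mm_step918 (n : ℕ) (hn : 1 ≤ n) : mm (n + 1) ≤ mm n / 2 := by
  unfold mm
  have hn0 : (0 : ℝ) < n := by exact_mod_cast hn
  have hb : (2 : ℝ) * (n : ℝ) ^ n ≤ ((n : ℝ) + 1) ^ n := by
    have h1 := one_add_mul_le_pow (a := (1 : ℝ) / n) (by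
      have : (0 : ℝ) ≤ 1 / n := by positivity
      linarith) n
    have h2 : (1 : ℝ) + n * (1 / n) = 2 := by
      field_simp
      norm_num
    rw [h2] at h1
    have h3 : ((n : ℝ) + 1) ^ n = (n : ℝ) ^ n * (1 + 1 / n) ^ n := by
      rw [← mul_pow]
      congr 1
      field_simp
    rw [h3]
    have h4 : (0 : ℝ) ≤ (n : ℝ) ^ n := by positivity
    nlinarith
  rw [Nat.factorial_succ]
  push_cast
  rw [div_div, div_le_div_iff₀ (by positivity) (by positivity)]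
  have hf : (0 : ℝ) ≤ (n.factorial : ℝ) := by positivity
  have h5 : ((n : ℝ) + 1) * (n.factorial : ℝ) * ((n : ℝ) ^ n * 2) =
      (((n : ℝ) + 1) * (n.factorial : ℝ)) * (2 * (n : ℝ) ^ n) := by ring
  have h6 : (n.factorial : ℝ) * ((n : ℝ) + 1) ^ (n + 1) =
      (((n : ℝ) + 1) * (n.factorial : ℝ)) * (((n : ℝ) + 1) ^ n) := by ring
  rw [h5, h6]
  exact mul_le_mul_of_nonneg_left hb (by positivity)

theorem n2mm918 (n : ℕ) (hn : 6 ≤ n) : (n : ℝ) ^ 2 * mm n ≤ 5 / 9 := by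
  induction n, hn using Nat.le_induction with
  | base =>
    unfold mm
    norm_num [Nat.factorial]
  | succ n hn ih =>
    have h1 := mm_step918 n (by omega)
    have h2 := mm_nonneg918 n
    have h3 : (6 : ℝ) ≤ n := by exact_mod_cast hn
    push_cast
    have h4 : ((n : ℝ) + 1) ^ 2 ≤ 2 * (n : ℝ) ^ 2 := by nlinarith
    calc ((n : ℝ) + 1) ^ 2 * mm (n + 1) ≤ ((n : ℝ) + 1) ^ 2 * (mm n / 2) :=
          mul_le_mul_of_nonneg_left h1 (by positivity)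
      _ ≤ (2 * (n : ℝ) ^ 2) * (mm n / 2) := mul_le_mul_of_nonneg_right h4 (by positivity)
      _ = (n : ℝ) ^ 2 * mm n := by ring
      _ ≤ 5 / 9 := ih

theorem st_aux918 (s t : ℝ) (h : s ^ 2 + t ^ 2 ≤ 1.242 * (15 / 319)) : s + t ≤ 0.342 := by
  by_contra hc
  push Not at hc
  have h1 : (s + t) ^ 2 ≤ 2 * (s ^ 2 + t ^ 2) := by nlinarith [sq_nonneg (s - t)]
  have h2 : (0.342 : ℝ) ^ 2 < (s + t) ^ 2 := by
    apply pow_lt_pow_left₀ hc (by norm_num) (by norm_num)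
  norm_num at h2 h
  linarith

theorem s_aux918 (s u v : ℝ) (hs : 0 ≤ s) (hv : 0 ≤ v) (hus : s ^ 2 = u * (1 + s))
    (huv : u + v ≤ 15 / 319) : s ≤ 0.242 := by
  by_contra h
  push Not at h
  have h1 : u * (1 + s) ≤ 15 / 319 * (1 + s) :=
    mul_le_mul_of_nonneg_right (by linarith) (by linarith)
  nlinarith

theorem z_aux918 (z : ℝ) (h : 0.658 ≤ z) : (5 / 9 : ℝ) * (1 + 3 * z ^ 2) < 8 * 0.758 * z ^ 3 := by
  obtain ⟨w, hw⟩ : ∃ w : ℝ, w = z - 0.658 := ⟨_, rfl⟩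
  have hw0 : 0 ≤ w := by rw [hw]; linarith
  have hzw : z = 0.658 + w := by rw [hw]; ring
  rw [hzw]
  nlinarith [mul_nonneg hw0 hw0, mul_nonneg hw0 (mul_nonneg hw0 hw0)]

theorem exp_aux918 (a : ℝ) (ha : 0 ≤ a) : a ≤ (1 - Real.exp (-a)) * (1 + a) ∧
    0 ≤ 1 - Real.exp (-a) := by
  have h1 := Real.add_one_le_exp a
  have h2 : Real.exp (-a) * Real.exp a = 1 := by
    rw [← Real.exp_add]
    simp
  have h3 := Real.exp_pos (-a)
  constructor
  · nlinarith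
  · have : Real.exp (-a) ≤ 1 := by
      rw [Real.exp_le_one_iff]
      linarith
    linarith

theorem real6 (n : ℕ) (hn : 6 ≤ n) (s t P z : ℝ) (hs : 0 ≤ s) (ht : 0 ≤ t) (hz : z = 1 - s - t)
    (hP0 : 0 ≤ P)
    (hP : P ≤ mm n - (1 - Real.exp (-(2 * s ^ 2 / (n * (1 + s)))))
      - (1 - Real.exp (-(2 * t ^ 2 / (n * (1 + t)))))) :
    0 < z ∧ (n : ℝ) ^ 2 * P * (1 + 3 * z ^ 2) < 8 * (1 - s) * z ^ 3 ∧
      (n : ℝ) ^ 2 * P * (1 + 3 * z ^ 2) < 8 * (1 - t) * z ^ 3 := by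
  have hn6 : (6 : ℝ) ≤ n := by exact_mod_cast hn
  have hn0 : (0 : ℝ) < n := by linarith
  have hμ0 := mm_nonneg918 n
  have hμ2 := n2mm918 n hn
  set μ := mm n with hμ
  have hμ1 : (n : ℝ) * μ ≤ 5 / 54 := by nlinarith
  have hμ3 : μ ≤ 5 / 324 := by nlinarith
  set a : ℝ := 2 * s ^ 2 / (n * (1 + s)) with ha
  set b : ℝ := 2 * t ^ 2 / (n * (1 + t)) with hb
  have ha0 : 0 ≤ a := by positivity
  have hb0 : 0 ≤ b := by positivity
  obtain ⟨hx1, hx0⟩ := exp_aux918 a ha0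
  obtain ⟨hy1, hy0⟩ := exp_aux918 b hb0
  set x := 1 - Real.exp (-a) with hx
  set y := 1 - Real.exp (-b) with hy
  have hxy : x + y ≤ μ := by linarith
  have hxle : x ≤ 5 / 324 := by linarith
  have hyle : y ≤ 5 / 324 := by linarith
  have hax : a * (319 / 324) ≤ x := by nlinarith
  have hby : b * (319 / 324) ≤ y := by nlinarith
  have hab : a + b ≤ μ * (324 / 319) := by linarith
  -- u and v
  obtain ⟨u, hu⟩ : ∃ u : ℝ, u = s ^ 2 / (1 + s) := ⟨_, rfl⟩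
  obtain ⟨v, hv⟩ : ∃ v : ℝ, v = t ^ 2 / (1 + t) := ⟨_, rfl⟩
  have hu0 : 0 ≤ u := by rw [hu]; positivity
  have hv0 : 0 ≤ v := by rw [hv]; positivity
  have hau : a * n = 2 * u := by
    rw [ha, hu]
    field_simp
  have hbv : b * n = 2 * v := by
    rw [hb, hv]
    field_simp
  have hus : s ^ 2 = u * (1 + s) := by
    rw [hu]
    field_simp
  have hvt : t ^ 2 = v * (1 + t) := by
    rw [hv]
    field_simp
  have huv : u + v ≤ 15 / 319 := by
    have h1 : (a + b) * n ≤ μ * (324 / 319) * n := mul_le_mul_of_nonneg_right hab hn0.le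
    nlinarith
  have hs1 : s ≤ 0.242 := s_aux918 s u v hs hv0 hus huv
  have ht1 : t ≤ 0.242 := s_aux918 t v u ht hu0 hvt (by linarith)
  have hst2 : s ^ 2 + t ^ 2 ≤ 1.242 * (15 / 319) := by
    rw [hus, hvt]
    have h1 : u * (1 + s) ≤ u * 1.242 := mul_le_mul_of_nonneg_left (by linarith) hu0
    have h2 : v * (1 + t) ≤ v * 1.242 := mul_le_mul_of_nonneg_left (by linarith) hv0
    linarith
  have hst : s + t ≤ 0.342 := st_aux918 s t hst2
  have hz1 : 0.658 ≤ z := by rw [hz]; linarith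
  have hz2 : z ≤ 1 := by rw [hz]; linarith
  have hnP : (n : ℝ) ^ 2 * P ≤ 5 / 9 := by
    have hPμ : P ≤ μ := by linarith
    have : (n : ℝ) ^ 2 * P ≤ (n : ℝ) ^ 2 * μ := mul_le_mul_of_nonneg_left hPμ (by positivity)
    linarith
  have hkey : (5 / 9 : ℝ) * (1 + 3 * z ^ 2) < 8 * 0.758 * z ^ 3 := z_aux918 z hz1
  have hpz : 0 < 1 + 3 * z ^ 2 := by positivity
  have hz3 : 0 < z ^ 3 := by
    have : 0 < z := by linarith
    positivity
  refine ⟨by linarith, ?_, ?_⟩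
  · calc (n : ℝ) ^ 2 * P * (1 + 3 * z ^ 2) ≤ 5 / 9 * (1 + 3 * z ^ 2) :=
          mul_le_mul_of_nonneg_right hnP hpz.le
      _ < 8 * 0.758 * z ^ 3 := hkey
      _ ≤ 8 * (1 - s) * z ^ 3 := by
          refine mul_le_mul_of_nonneg_right ?_ hz3.le
          linarith
  · calc (n : ℝ) ^ 2 * P * (1 + 3 * z ^ 2) ≤ 5 / 9 * (1 + 3 * z ^ 2) :=
          mul_le_mul_of_nonneg_right hnP hpz.le
      _ < 8 * 0.758 * z ^ 3 := hkey
      _ ≤ 8 * (1 - t) * z ^ 3 := by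
          refine mul_le_mul_of_nonneg_right ?_ hz3.le
          linarith

end Pool.Agent.Helper153.Ditt
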