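import Pool.Agent.Helper153.Ditt.Defs

set_option autoImplicit false

open scoped BigOperators

namespace Pool.Agent.Helper153.Ditt

variable {n : ℕ}

theorem parts (n : ℕ) (x : ℕ → ℝ) (hx : ∑ i ∈ Finset.range n, x i = 0) :
    ∑ k ∈ Finset.range (n - 1), ((k : ℝ) + 1) * ((n : ℝ) - (k + 1)) * (x k - x (k + 1)) =
      2 * ∑ k ∈ Finset.range (n - 1), ∑ i ∈ Finset.range (k + 1), x i := by
  have gen : ∀ (c : ℝ) (m : ℕ), ∑ k ∈ Finset.range m, ((k : ℝ) + 1) * (c - (k + 1)) * (x k - x (k + 1)) =
      2 * ∑ k ∈ Finset.range m, ∑ i ∈ Finset.range (k + 1), x i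
        + (c - 1 - 2 * m) * ∑ i ∈ Finset.range m, x i - m * (c - m) * x m := by
    intro c m
    induction m with
    | zero => simp
    | succ m ih =>
      rw [Finset.sum_range_succ, ih, Finset.sum_range_succ (fun k => ∑ i ∈ Finset.range (k + 1), x i),
        Finset.sum_range_succ (fun i => x i) m]
      push_cast
      ring
  rcases n with _ | m
  · simp
  · have h := gen ((m : ℝ) + 1) m
    rw [Finset.sum_range_succ] at hx
    have hx' : ∑ i ∈ Finset.range m, x i = - x m := by linarith
    rw [hx'] at h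
    have e : m + 1 - 1 = m := by omega
    rw [e]
    push_cast
    rw [h]
    ring

end Pool.Agent.Helper153.Ditt
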