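import Pool.Agent.Helper153.Ditt.Defs

set_option autoImplicit false

open scoped BigOperators

namespace Pool.Agent.Helper153.Ditt

variable {n : ℕ}

theorem phi_two (A : Fin 2 → Fin 2 → ℝ) (h0 : ∀ i j, 0 ≤ A i j) (ht : ∑ i, ∑ j, A i j = 2)
    (hne : ∃ i j, A i j ≠ 1 / 2) :
    (∏ i, ∑ j, A i j) + (∏ j, ∑ i, A i j) - Matrix.permanent (Matrix.of A) < 3 / 2 := by
  have hu : (Finset.univ : Finset (Equiv.Perm (Fin 2))) = {1, Equiv.swap 0 1} := by decide
  have hne' : (1 : Equiv.Perm (Fin 2)) ≠ Equiv.swap 0 1 := by decide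
  have hp : Matrix.permanent (Matrix.of A) = A 0 0 * A 1 1 + A 1 0 * A 0 1 := by
    unfold Matrix.permanent
    rw [hu, Finset.sum_pair hne']
    simp [Fin.prod_univ_two]
  rw [hp]
  simp only [Fin.sum_univ_two, Fin.prod_univ_two] at ht ⊢
  set p := A 0 0
  set q := A 0 1
  set r := A 1 0
  set t := A 1 1
  have hpos : 0 < (p - 1/2)^2 + (q - 1/2)^2 + (r - 1/2)^2 + (t - 1/2)^2 := by
    by_contra hcon
    push Not at hcon
    have h1 : (p - 1/2)^2 = 0 := by nlinarith [sq_nonneg (p - 1/2), sq_nonneg (q - 1/2), sq_nonneg (r - 1/2), sq_nonneg (t - 1/2)]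
    have h2 : (q - 1/2)^2 = 0 := by nlinarith [sq_nonneg (p - 1/2), sq_nonneg (q - 1/2), sq_nonneg (r - 1/2), sq_nonneg (t - 1/2)]
    have h3 : (r - 1/2)^2 = 0 := by nlinarith [sq_nonneg (p - 1/2), sq_nonneg (q - 1/2), sq_nonneg (r - 1/2), sq_nonneg (t - 1/2)]
    have h4 : (t - 1/2)^2 = 0 := by nlinarith [sq_nonneg (p - 1/2), sq_nonneg (q - 1/2), sq_nonneg (r - 1/2), sq_nonneg (t - 1/2)]
    have e1 : p = 1/2 := by have := pow_eq_zero_iff (two_ne_zero) |>.1 h1; linarith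
    have e2 : q = 1/2 := by have := pow_eq_zero_iff (two_ne_zero) |>.1 h2; linarith
    have e3 : r = 1/2 := by have := pow_eq_zero_iff (two_ne_zero) |>.1 h3; linarith
    have e4 : t = 1/2 := by have := pow_eq_zero_iff (two_ne_zero) |>.1 h4; linarith
    obtain ⟨i, j, hij⟩ := hne
    apply hij
    fin_cases i <;> fin_cases j
    · exact e1
    · exact e2
    · exact e3
    · exact e4
  have hs : p + q + r + t = 2 := by linarith
  nlinarith [hs, hpos, congrArg (fun z => z ^ 2) hs]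

end Pool.Agent.Helper153.Ditt
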