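import Pool.Agent.Helper153.Ditt.Defs
import Pool.Agent.Helper153.Ditt.J18826
import Pool.Agent.Helper153.Ditt.J19347
import Pool.Agent.Helper153.Ditt.J19360
import Pool.Agent.Helper153.Ditt.J19364
import Pool.Agent.Helper153.Ditt.J19548
import Pool.Agent.Helper153.Ditt.J19577

set_option autoImplicit false

open scoped BigOperators

namespace Pool.Agent.Helper153.Ditt

variable {n : ℕ}







theorem final3 (A : Fin 3 → Fin 3 → ℝ) (hA : Crit A) (hs : Sorted A) :
    (∀ i, rs A i = 1) ∧ (∀ j, cs A j = 1) := by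
  by_contra hne
  have hsumr : ∑ i, (rs A i - 1) = 0 := by
    rw [Finset.sum_sub_distrib]
    have h := hA.tot
    unfold rs
    rw [h]
    simp
  have hsumc : ∑ j, (cs A j - 1) = 0 := by
    rw [Finset.sum_sub_distrib]
    have h := hA.tot
    rw [Finset.sum_comm] at h
    unfold cs
    rw [h]
    simp
  obtain ⟨hs0, hs2, hsd⟩ := dev3 (fun i => rs A i - 1) hsumr
    (fun i => by have := hA.rpos i; show -1 < rs A i - 1; linarith)
    (∑ i, max (rs A i - 1) 0) rfl
  obtain ⟨ht0, ht2, htd⟩ := dev3 (fun j => cs A j - 1) hsumc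
    (fun j => by have := hA.cpos j; show -1 < cs A j - 1; linarith)
    (∑ j, max (cs A j - 1) 0) rfl
  have hR : ∏ i, (1 + (rs A i - 1)) = RR A := by
    unfold RR
    apply Finset.prod_congr rfl
    intro i _
    ring
  have hC : ∏ j, (1 + (cs A j - 1)) = CC A := by
    unfold CC
    apply Finset.prod_congr rfl
    intro i _
    ring
  rw [hR] at hsd
  rw [hC] at htd
  set s : ℝ := ∑ i, max (rs A i - 1) 0 with hsdef
  set t : ℝ := ∑ j, max (cs A j - 1) 0 with htdef
  have hmm : mm 3 = 2 / 9 := by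
    unfold mm
    norm_num [Nat.factorial]
  have hdev := hA.dev
  rw [hmm] at hdev
  have hP0 : 0 ≤ per A := pm_nonneg A hA.nn _ _
  obtain ⟨hz0, hz1, hz2⟩ := real3 s t (per A) (1 - s - t) hs0 ht0 hs2 ht2 rfl hP0 (by linarith)
  have hZZ : ZZ A = s + t := rfl
  have hPpos : 0 < per A := per_pos A hA hs (by rw [hZZ]; linarith) hne
  set z : ℝ := 1 - s - t with hzdef
  have hzle : z ≤ 1 := by rw [hzdef]; linarith
  obtain ⟨ω, hω0, hω3, hω2, hω4, hω5⟩ : ∃ ω : ℝ, 0 < ω ∧ 3 * ω ≤ z ∧ ω ≤ z ^ 2 ∧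
      per A < ω * (1 - s / 2) ∧ per A < ω * (1 - t / 2) := by
    rcases le_total (1 / 3) z with h | h
    · exact ⟨z / 3, by linarith, by linarith, by nlinarith, (hz1 h).1, (hz1 h).2⟩
    · exact ⟨z ^ 2, by positivity, by nlinarith, le_refl _, (hz2 h).1, (hz2 h).2⟩
  have hzz : z = 1 - ZZ A := by rw [hZZ, hzdef]; ring
  have he1 := end1 A hA hs hPpos hne 0 1 rfl rfl z ω hzz hz0 hω0 hω3 hω2
  have he2 := endn A hA hs hPpos hne 1 2 rfl rfl z ω hzz hz0 hω0 hω3 hω2
  have hf1 : fst 3 1 = {0} := by decide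
  have hf2 : fst 3 2 = {0, 1} := by decide
  have hX1 : XX A 1 = (rs A 0 - 1) - (cs A 0 - 1) := by
    unfold XX
    rw [hf1, Finset.sum_singleton, Finset.sum_singleton]
  have hX2 : XX A (3 - 1) = (rs A 0 - 1) + (rs A 1 - 1) - ((cs A 0 - 1) + (cs A 1 - 1)) := by
    unfold XX
    show ∑ i ∈ fst 3 2, (rs A i - 1) - ∑ j ∈ fst 3 2, (cs A j - 1) = _
    rw [hf2, Finset.sum_pair (by decide), Finset.sum_pair (by decide)]
  rw [hX1] at he1
  rw [hX2] at he2
  have hr0 := hA.rpos 0
  have hr1 := hA.rpos 1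
  have hr2 := hA.rpos 2
  have hc0 := hA.cpos 0
  have hc1 := hA.cpos 1
  have hc2 := hA.cpos 2
  have hRR : RR A = rs A 0 * rs A 1 * rs A 2 := by
    unfold RR
    rw [Fin.prod_univ_three]
  have hCC : CC A = cs A 0 * cs A 1 * cs A 2 := by
    unfold CC
    rw [Fin.prod_univ_three]
  have hxi : xi A 0 - xi A 2 = rs A 1 * (rs A 0 - rs A 2) := by
    unfold xi
    rw [hRR]
    field_simp
    ring
  have hze : ze A 0 - ze A 2 = cs A 1 * (cs A 2 - cs A 0) := by
    unfold ze
    rw [hCC]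
    field_simp
    ring
  rw [Fin.sum_univ_three] at hsumr hsumc
  rw [Fin.sum_univ_three] at hsdef htdef
  have hr01 : rs A 1 ≤ rs A 0 := hs.ra (by decide)
  have hr12 : rs A 2 ≤ rs A 1 := hs.ra (by decide)
  have hc01 : cs A 0 ≤ cs A 1 := hs.cm (by decide)
  have hc12 : cs A 1 ≤ cs A 2 := hs.cm (by decide)
  have hss : rs A 0 - 1 ≤ s := by
    have h1 := le_max_left (rs A 0 - 1) 0
    have h2 := le_max_right (rs A 1 - 1) 0
    have h3 := le_max_right (rs A 2 - 1) 0
    linarith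
  have htt : cs A 2 - 1 ≤ t := by
    have h1 := le_max_left (cs A 2 - 1) 0
    have h2 := le_max_right (cs A 1 - 1) 0
    have h3 := le_max_right (cs A 0 - 1) 0
    linarith
  have hr1b : 1 - s / 2 ≤ rs A 1 := by linarith
  have hc1b : 1 - t / 2 ≤ cs A 1 := by linarith
  have hk1 : 0 < ω * rs A 1 - per A := by
    have := mul_le_mul_of_nonneg_left hr1b hω0.le
    linarith
  have hk2 : 0 < ω * cs A 1 - per A := by
    have := mul_le_mul_of_nonneg_left hc1b hω0.le
    linarith
  have hsum : (ω * rs A 1 - per A) * (rs A 0 - rs A 2)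
      + (ω * cs A 1 - per A) * (cs A 2 - cs A 0) ≤ 0 := by
    have h1 : ((xi A 0 - xi A 2) + (ze A 0 - ze A 2)) * ω
        ≤ per A * ((rs A 0 - rs A 2) + (cs A 2 - cs A 0)) := by
      have h2 : rs A 2 = 3 - rs A 0 - rs A 1 := by linarith
      have h3 : cs A 2 = 3 - cs A 0 - cs A 1 := by linarith
      calc ((xi A 0 - xi A 2) + (ze A 0 - ze A 2)) * ω
          = ((xi A 0 - xi A 1) + (ze A 0 - ze A 1)) * ω
            + ((xi A 1 - xi A 2) + (ze A 1 - ze A 2)) * ω := by ring
        _ ≤ per A * ((rs A 0 - 1) - (cs A 0 - 1)) + per A * ((rs A 0 - 1) + (rs A 1 - 1)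
            - ((cs A 0 - 1) + (cs A 1 - 1))) := add_le_add he1 he2
        _ = per A * ((rs A 0 - rs A 2) + (cs A 2 - cs A 0)) := by
            rw [h2, h3]; ring
    rw [hxi, hze] at h1
    have h4 : (ω * rs A 1 - per A) * (rs A 0 - rs A 2)
        + (ω * cs A 1 - per A) * (cs A 2 - cs A 0)
        = (rs A 1 * (rs A 0 - rs A 2) + cs A 1 * (cs A 2 - cs A 0)) * ω
          - per A * ((rs A 0 - rs A 2) + (cs A 2 - cs A 0)) := by ring
    rw [h4]
    linarith
  have hA1 : 0 ≤ (ω * rs A 1 - per A) * (rs A 0 - rs A 2) :=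
    mul_nonneg hk1.le (by linarith)
  have hA2 : 0 ≤ (ω * cs A 1 - per A) * (cs A 2 - cs A 0) :=
    mul_nonneg hk2.le (by linarith)
  have hB1 : rs A 0 - rs A 2 = 0 := by
    rcases mul_eq_zero.mp (le_antisymm (by linarith) hA1) with h | h
    · exact absurd h hk1.ne'
    · exact h
  have hB2 : cs A 2 - cs A 0 = 0 := by
    rcases mul_eq_zero.mp (le_antisymm (by linarith) hA2) with h | h
    · exact absurd h hk2.ne'
    · exact h
  apply hne
  constructor
  · intro i
    fin_cases i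
    · show rs A 0 = 1
      linarith
    · show rs A 1 = 1
      linarith
    · show rs A 2 = 1
      linarith
  · intro j
    fin_cases j
    · show cs A 0 = 1
      linarith
    · show cs A 1 = 1
      linarith
    · show cs A 2 = 1
      linarith

end Pool.Agent.Helper153.Ditt
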