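import Pool.Agent.Helper153.Ditt.Defs
import Pool.Agent.Helper153.Ditt.J18826
import Pool.Agent.Helper153.Ditt.J19231
import Pool.Agent.Helper153.Ditt.J19234
import Pool.Agent.Helper153.Ditt.J19347
import Pool.Agent.Helper153.Ditt.J19360
import Pool.Agent.Helper153.Ditt.J19364
import Pool.Agent.Helper153.Ditt.J19540
import Pool.Agent.Helper153.Ditt.J19553
import Pool.Agent.Helper153.Ditt.J19572
import Pool.Agent.Helper153.Ditt.J19581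

set_option autoImplicit false

open scoped BigOperators

namespace Pool.Agent.Helper153.Ditt

variable {n : ℕ}











theorem final4_le_one (x : Fin 4 → ℝ) (hx : ∑ i, x i = 0) (h1 : ∀ i, -1 < x i) :
    ∏ i, (1 + x i) ≤ 1 := by
  obtain ⟨h0, h2⟩ := devn (by norm_num : 1 ≤ 4) x hx h1 _ rfl
  refine h2.trans ?_
  rw [Real.exp_le_one_iff]
  have : 0 ≤ 2 * (∑ i, max (x i) 0) ^ 2 / ((4 : ℕ) * (1 + ∑ i, max (x i) 0)) := by positivity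
  linarith

theorem final4_alg (P z s t τ u1 u2 u3 v1 v2 v3 G0 G1 G2 : ℝ) (hz : 0 < z) (hτ : 0 < τ)
    (hu1 : 0 ≤ u1) (hu2 : 0 ≤ u2) (hu3 : 0 ≤ u3) (hv1 : 0 ≤ v1) (hv2 : 0 ≤ v2) (hv3 : 0 ≤ v3)
    (h1 : 0 < u1 + v1) (g0 : G0 * (z / 3) ≤ P * (u1 + v1)) (g1 : G1 * τ ≤ P * (u2 + v2))
    (g2 : G2 * (z / 3) ≤ P * (u3 + v3))
    (hG : (1 - s) * (4 * u1 + 10 * u2 + 4 * u3) + (1 - t) * (4 * v1 + 10 * v2 + 4 * v3)
      ≤ 9 * G0 + 14 * G1 + 9 * G2)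
    (r1 : 27 * P / z < 4 * (1 - s)) (r2 : 27 * P / z < 4 * (1 - t))
    (r3 : 14 * P / τ < 10 * (1 - s)) (r4 : 14 * P / τ < 10 * (1 - t)) : False := by
  have e0 : 9 * G0 ≤ 27 * P / z * (u1 + v1) := by
    rw [div_mul_eq_mul_div, le_div_iff₀ hz]; linarith
  have e2 : 9 * G2 ≤ 27 * P / z * (u3 + v3) := by
    rw [div_mul_eq_mul_div, le_div_iff₀ hz]; linarith
  have e1 : 14 * G1 ≤ 14 * P / τ * (u2 + v2) := by
    rw [div_mul_eq_mul_div, le_div_iff₀ hτ]; linarith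
  set c1 := 27 * P / z
  set c2 := 14 * P / τ
  have k1 : 0 < (4 * (1 - s) - c1) * u1 + (4 * (1 - t) - c1) * v1 := by
    have a1 : 0 ≤ (4 * (1 - s) - c1) * u1 := mul_nonneg (by linarith) hu1
    have a2 : 0 ≤ (4 * (1 - t) - c1) * v1 := mul_nonneg (by linarith) hv1
    rcases lt_or_eq_of_le hu1 with h | h
    · have : 0 < (4 * (1 - s) - c1) * u1 := mul_pos (by linarith) h
      linarith
    · have h' : 0 < v1 := by linarith
      have : 0 < (4 * (1 - t) - c1) * v1 := mul_pos (by linarith) h'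
      linarith
  have k2 : 0 ≤ (10 * (1 - s) - c2) * u2 := mul_nonneg (by linarith) hu2
  have k3 : 0 ≤ (10 * (1 - t) - c2) * v2 := mul_nonneg (by linarith) hv2
  have k4 : 0 ≤ (4 * (1 - s) - c1) * u3 := mul_nonneg (by linarith) hu3
  have k5 : 0 ≤ (4 * (1 - t) - c1) * v3 := mul_nonneg (by linarith) hv3
  nlinarith

theorem final4_tau (z : ℝ) (hz0 : 0 < z) :
    0 < z ^ 3 / (1 + 3 * z ^ 2) ∧ z ^ 3 / (1 + 3 * z ^ 2) < z ∧
      3 * (z ^ 3 / (1 + 3 * z ^ 2)) ≤ z ∧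
      z ^ 3 / (1 + 3 * z ^ 2) ≤ (z - z ^ 3 / (1 + 3 * z ^ 2)) ^ 3 := by
  have hden : 0 < 1 + 3 * z ^ 2 := by positivity
  have hτ0 : 0 < z ^ 3 / (1 + 3 * z ^ 2) := by positivity
  have hτz : z ^ 3 / (1 + 3 * z ^ 2) < z := by
    rw [div_lt_iff₀ hden]
    have : 0 < z ^ 3 := by positivity
    nlinarith
  have hτ3 : 3 * (z ^ 3 / (1 + 3 * z ^ 2)) ≤ z := by
    rw [mul_div_assoc', div_le_iff₀ hden]
    have : 0 < z ^ 3 := by positivity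
    nlinarith
  have hτc : z ^ 3 / (1 + 3 * z ^ 2) ≤ (z - z ^ 3 / (1 + 3 * z ^ 2)) ^ 3 := by
    have e : z - z ^ 3 / (1 + 3 * z ^ 2) = z * (1 + 2 * z ^ 2) / (1 + 3 * z ^ 2) := by
      field_simp
      ring
    rw [e, div_pow, div_le_div_iff₀ hden (by positivity)]
    have h1 : (1 + 3 * z ^ 2) ^ 2 ≤ (1 + 2 * z ^ 2) ^ 3 := by
      have : 0 ≤ z ^ 2 := by positivity
      nlinarith [pow_nonneg this 2, pow_nonneg this 3]
    have h2 : 0 ≤ z ^ 3 * (1 + 3 * z ^ 2) := by positivity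
    calc z ^ 3 * (1 + 3 * z ^ 2) ^ 3 = z ^ 3 * (1 + 3 * z ^ 2) * (1 + 3 * z ^ 2) ^ 2 := by ring
      _ ≤ z ^ 3 * (1 + 3 * z ^ 2) * (1 + 2 * z ^ 2) ^ 3 := mul_le_mul_of_nonneg_left h1 h2
      _ = (z * (1 + 2 * z ^ 2)) ^ 3 * (1 + 3 * z ^ 2) := by ring
  exact ⟨hτ0, hτz, hτ3, hτc⟩

theorem final4_X (A : Fin 4 → Fin 4 → ℝ) :
    XX A 1 = (rs A 0 - 1) + (-(cs A 0 - 1)) ∧
    XX A 2 = ((rs A 0 - 1) + (rs A 1 - 1)) + (-((cs A 0 - 1) + (cs A 1 - 1))) ∧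
    XX A (4 - 1) = ((rs A 0 - 1) + (rs A 1 - 1) + (rs A 2 - 1)) +
      (-((cs A 0 - 1) + (cs A 1 - 1) + (cs A 2 - 1))) := by
  have X1 : XX A 1 = (rs A 0 - 1) + (-(cs A 0 - 1)) := by
    unfold XX fst
    rw [show (Finset.univ.filter (fun i : Fin 4 => (i : ℕ) < 1)) = {0} by decide]
    simp only [Finset.sum_singleton]; ring
  have X2 : XX A 2 = ((rs A 0 - 1) + (rs A 1 - 1)) + (-((cs A 0 - 1) + (cs A 1 - 1))) := by
    unfold XX fst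
    rw [show (Finset.univ.filter (fun i : Fin 4 => (i : ℕ) < 2)) = {0, 1} by decide]
    rw [Finset.sum_pair (by decide), Finset.sum_pair (by decide)]; ring
  have X3 : XX A (4 - 1) = ((rs A 0 - 1) + (rs A 1 - 1) + (rs A 2 - 1)) +
      (-((cs A 0 - 1) + (cs A 1 - 1) + (cs A 2 - 1))) := by
    unfold XX fst
    rw [show (Finset.univ.filter (fun i : Fin 4 => (i : ℕ) < 4 - 1)) = {0, 1, 2} by decide]
    rw [Finset.sum_insert (by decide), Finset.sum_pair (by decide), Finset.sum_insert (by decide),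
      Finset.sum_pair (by decide)]; ring
  exact ⟨X1, X2, X3⟩

theorem final4_w (s t a0 a1 a2 a3 c0 c1 c2 c3 G0 G1 G2 : ℝ)
    (ha : a0 - 1 + (a1 - 1) + (a2 - 1) + (a3 - 1) = 0)
    (hc : c0 - 1 + (c1 - 1) + (c2 - 1) + (c3 - 1) = 0)
    (h0 : (1 - s) * (a0 - a1) + (1 - t) * (c1 - c0) ≤ G0)
    (h1 : (1 - s) * (a1 - a2) + (1 - t) * (c2 - c1) ≤ G1)
    (h2 : (1 - s) * (a2 - a3) + (1 - t) * (c3 - c2) ≤ G2) :
    (1 - s) * (4 * (a0 - 1) + 10 * ((a0 - 1) + (a1 - 1)) +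
        4 * ((a0 - 1) + (a1 - 1) + (a2 - 1))) +
      (1 - t) * (4 * (-(c0 - 1)) + 10 * (-((c0 - 1) + (c1 - 1))) +
        4 * (-((c0 - 1) + (c1 - 1) + (c2 - 1)))) ≤ 9 * G0 + 14 * G1 + 9 * G2 := by
  have e1 : a3 = 4 - a0 - a1 - a2 := by linarith
  have e2 : c3 = 4 - c0 - c1 - c2 := by linarith
  rw [e1, e2] at h2
  have k : (1 - s) * (4 * (a0 - 1) + 10 * ((a0 - 1) + (a1 - 1)) +
        4 * ((a0 - 1) + (a1 - 1) + (a2 - 1))) +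
      (1 - t) * (4 * (-(c0 - 1)) + 10 * (-((c0 - 1) + (c1 - 1))) +
        4 * (-((c0 - 1) + (c1 - 1) + (c2 - 1)))) =
      9 * ((1 - s) * (a0 - a1) + (1 - t) * (c1 - c0)) +
      14 * ((1 - s) * (a1 - a2) + (1 - t) * (c2 - c1)) +
      9 * ((1 - s) * (a2 - (4 - a0 - a1 - a2)) + (1 - t) * (4 - c0 - c1 - c2 - c2)) := by
    ring
  rw [k]
  linarith

theorem final4_q (P s z : ℝ) (hz : 0 < z)
    (h : 7 * P * (1 + 3 * z ^ 2) < 5 * (1 - s) * z ^ 3) :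
    14 * P / (z ^ 3 / (1 + 3 * z ^ 2)) < 10 * (1 - s) := by
  rw [div_div_eq_mul_div, div_lt_iff₀ (by positivity)]
  linarith

theorem final4_sum (A : Fin 4 → Fin 4 → ℝ) (hA : Crit A) :
    ∑ i, (rs A i - 1) = 0 ∧ ∑ j, (cs A j - 1) = 0 := by
  have htot : ∑ i, rs A i = 4 := by
    have := hA.tot
    unfold rs
    rw [this]; norm_num
  have htot' : ∑ j, cs A j = 4 := by
    rw [← htot]
    unfold rs cs
    exact Finset.sum_comm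
  constructor
  · rw [Finset.sum_sub_distrib, htot]; simp
  · rw [Finset.sum_sub_distrib, htot']; simp

theorem final4_s1 (A : Fin 4 → Fin 4 → ℝ) (hA : Crit A) :
    ∃ s t : ℝ, s = ∑ i, max (rs A i - 1) 0 ∧ t = ∑ j, max (cs A j - 1) 0 ∧ 
      1 / 3 ≤ 1 - s - t ∧ 27 * per A < 4 * (1 - s) * (1 - s - t) ∧
      27 * per A < 4 * (1 - t) * (1 - s - t) ∧
      7 * per A * (1 + 3 * (1 - s - t) ^ 2) < 5 * (1 - s) * (1 - s - t) ^ 3 ∧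
      7 * per A * (1 + 3 * (1 - s - t) ^ 2) < 5 * (1 - t) * (1 - s - t) ^ 3 := by
  obtain ⟨hx, hy⟩ := final4_sum A hA
  have hx1 : ∀ i, -1 < rs A i - 1 := fun i => by linarith [hA.rpos i]
  have hy1 : ∀ j, -1 < cs A j - 1 := fun j => by linarith [hA.cpos j]
  have hRR : ∏ i, (1 + (rs A i - 1)) = RR A := by
    unfold RR
    exact Finset.prod_congr rfl (fun i _ => by ring)
  have hCC : ∏ j, (1 + (cs A j - 1)) = CC A := by
    unfold CC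
    exact Finset.prod_congr rfl (fun i _ => by ring)
  have hR1 : RR A ≤ 1 := by rw [← hRR]; exact final4_le_one _ hx hx1
  have hC1 : CC A ≤ 1 := by rw [← hCC]; exact final4_le_one _ hy hy1
  have hP0 : 0 ≤ per A := pm_nonneg A hA.nn _ _
  have hmm : mm 4 = 3 / 32 := by
    unfold mm
    norm_num [Nat.factorial]
  have hdev := hA.dev
  rw [hmm] at hdev
  obtain ⟨s0, s1, s2⟩ := dev4 (fun i => rs A i - 1) hx hx1 _ rfl (by rw [hRR]; linarith)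
  obtain ⟨t0, t1, t2⟩ := dev4 (fun j => cs A j - 1) hy hy1 _ rfl (by rw [hCC]; linarith)
  rw [hRR] at s2
  rw [hCC] at t2
  refine ⟨∑ i, max (rs A i - 1) 0, ∑ j, max (cs A j - 1) 0, rfl, rfl, ?_⟩
  exact real4 _ _ (per A) _ s0 t0 s1 t1 rfl hP0 (by linarith)

theorem final4_s2 (P z s t τ a0 a1 a2 a3 c0 c1 c2 c3 x0 x1 x2 x3 e0 e1 e2 e3 : ℝ) (hz : 0 < z)
    (hτ : 0 < τ)
    (hx : a0 - 1 + (a1 - 1) + (a2 - 1) + (a3 - 1) = 0)
    (hy : c0 - 1 + (c1 - 1) + (c2 - 1) + (c3 - 1) = 0)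
    (r01 : a1 ≤ a0) (r12 : a2 ≤ a1) (r23 : a3 ≤ a2) (c01 : c0 ≤ c1) (c12 : c1 ≤ c2)
    (c23 : c2 ≤ c3)
    (h1 : 0 < (a0 - 1) + (-(c0 - 1)))
    (g0 : ((x0 - x1) + (e0 - e1)) * (z / 3) ≤ P * ((a0 - 1) + (-(c0 - 1))))
    (g1 : ((x1 - x2) + (e1 - e2)) * τ ≤ P * (((a0 - 1) + (a1 - 1)) + (-((c0 - 1) + (c1 - 1)))))
    (g2 : ((x2 - x3) + (e2 - e3)) * (z / 3) ≤
      P * (((a0 - 1) + (a1 - 1) + (a2 - 1)) + (-((c0 - 1) + (c1 - 1) + (c2 - 1)))))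
    (d0 : (1 - s) * (a0 - a1) ≤ x0 - x1) (d1 : (1 - s) * (a1 - a2) ≤ x1 - x2)
    (d2 : (1 - s) * (a2 - a3) ≤ x2 - x3)
    (f0 : (1 - t) * (c1 - c0) ≤ e0 - e1) (f1 : (1 - t) * (c2 - c1) ≤ e1 - e2)
    (f2 : (1 - t) * (c3 - c2) ≤ e2 - e3)
    (r1 : 27 * P / z < 4 * (1 - s)) (r2 : 27 * P / z < 4 * (1 - t))
    (r3 : 14 * P / τ < 10 * (1 - s)) (r4 : 14 * P / τ < 10 * (1 - t)) : False := by
  refine final4_alg P z s t τ (a0 - 1)
    ((a0 - 1) + (a1 - 1)) ((a0 - 1) + (a1 - 1) + (a2 - 1))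
    (-(c0 - 1)) (-((c0 - 1) + (c1 - 1)))
    (-((c0 - 1) + (c1 - 1) + (c2 - 1)))
    ((x0 - x1) + (e0 - e1)) ((x1 - x2) + (e1 - e2))
    ((x2 - x3) + (e2 - e3)) hz hτ (by linarith) (by linarith) (by linarith)
    (by linarith) (by linarith) (by linarith) h1 g0 g1 g2 ?_ r1 r2 r3 r4
  exact final4_w s t _ _ _ _ _ _ _ _ _ _ _ hx hy (by linarith) (by linarith) (by linarith)

theorem final4 (A : Fin 4 → Fin 4 → ℝ) (hA : Crit A) (hs : Sorted A) :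
    (∀ i, rs A i = 1) ∧ (∀ j, cs A j = 1) := by
  by_contra hne
  obtain ⟨hx, hy⟩ := final4_sum A hA
  obtain ⟨s, t, hs', ht', z1, q1, q2, q3, q4⟩ := final4_s1 A hA
  have hZZ : ZZ A = s + t := by rw [hs', ht']; rfl
  obtain ⟨z, hz⟩ : ∃ z, z = 1 - s - t := ⟨_, rfl⟩
  rw [← hz] at z1 q1 q2 q3 q4
  have hz0 : 0 < z := by linarith
  have hzz : z = 1 - ZZ A := by rw [hZZ, hz]; ring
  have hP : 0 < per A := per_pos A hA hs (by linarith) hne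
  have hz2 : z / 3 ≤ z ^ 2 := by nlinarith
  have g0 := end1 A hA hs hP hne 0 1 rfl rfl z (z / 3) hzz hz0 (by linarith) (by linarith) hz2
  have g2 := endn A hA hs hP hne 2 3 rfl rfl z (z / 3) hzz hz0 (by linarith) (by linarith) hz2
  obtain ⟨hτ0, hτz, hτ3, hτc⟩ := final4_tau z hz0
  have g1 := mid A hA hs hP hne 2 1 2 rfl rfl z _ hzz hz0 hτ0 hτz hτ3 hτc
  obtain ⟨X1, X2, X3⟩ := final4_X A
  have hX1 := XX_pos A hA hs hne 1 (by norm_num) (by norm_num)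
  rw [X1] at g0 hX1
  rw [X2] at g1
  rw [X3] at g2
  rw [Fin.sum_univ_four] at hx hy
  have r01 : rs A 1 ≤ rs A 0 := hs.ra (by decide)
  have r12 : rs A 2 ≤ rs A 1 := hs.ra (by decide)
  have r23 : rs A 3 ≤ rs A 2 := hs.ra (by decide)
  have c01 : cs A 0 ≤ cs A 1 := hs.cm (by decide)
  have c12 : cs A 1 ≤ cs A 2 := hs.cm (by decide)
  have c23 : cs A 2 ≤ cs A 3 := hs.cm (by decide)
  obtain ⟨d01, f01⟩ := xi_diff A hA hs 0 1 (by decide)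
  obtain ⟨d12, f12⟩ := xi_diff A hA hs 1 2 (by decide)
  obtain ⟨d23, f23⟩ := xi_diff A hA hs 2 3 (by decide)
  rw [← hs'] at d01 d12 d23
  rw [← ht'] at f01 f12 f23
  exact final4_s2 (per A) z s t (z ^ 3 / (1 + 3 * z ^ 2)) _ _ _ _ _ _ _ _ _ _ _ _ _ _ _ _
    hz0 hτ0 hx hy r01 r12 r23 c01 c12 c23 hX1 g0 g1 g2 d01 d12 d23 f01 f12 f23
    (by rw [div_lt_iff₀ hz0]; exact q1) (by rw [div_lt_iff₀ hz0]; exact q2)
    (final4_q _ _ _ hz0 q3) (final4_q _ _ _ hz0 q4)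

end Pool.Agent.Helper153.Ditt
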