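import Pool.Agent.Helper153.Ditt.Defs
import Pool.Agent.Helper153.Ditt.J18826
import Pool.Agent.Helper153.Ditt.J19231
import Pool.Agent.Helper153.Ditt.J19234
import Pool.Agent.Helper153.Ditt.J19364
import Pool.Agent.Helper153.Ditt.J19540
import Pool.Agent.Helper153.Ditt.J19572
import Pool.Agent.Helper153.Ditt.J19684
import Pool.Agent.Helper153.Ditt.J19740
import Pool.Agent.Helper153.Ditt.J19750

set_option autoImplicit false

open scoped BigOperators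

namespace Pool.Agent.Helper153.Ditt

variable {n : ℕ}










theorem final5_aux_psum (n : ℕ) (x : ℕ → ℝ) (hx : ∑ i ∈ Finset.range n, x i = 0)
    (ha : ∀ i j, i ≤ j → j < n → x j ≤ x i) (k : ℕ) (hk : k < n) :
    0 ≤ ∑ i ∈ Finset.range k, x i := by
  by_cases h : 0 ≤ x k
  · exact Finset.sum_nonneg fun i hi => h.trans (ha i k (Finset.mem_range.1 hi).le hk)
  · have h1 : ∑ i ∈ Finset.range k, x i + ∑ i ∈ Finset.Ico k n, x i = ∑ i ∈ Finset.range n, x i :=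
      Finset.sum_range_add_sum_Ico _ hk.le
    have h2 : ∑ i ∈ Finset.Ico k n, x i ≤ 0 := by
      refine Finset.sum_nonpos fun i hi => ?_
      rw [Finset.mem_Ico] at hi
      exact (ha k i hi.1 hi.2).trans (not_le.1 h).le
    linarith

theorem final5_aux_fst (n k : ℕ) (hk : k ≤ n) (f : ℕ → ℝ) :
    ∑ i ∈ fst n k, f (i : ℕ) = ∑ i ∈ Finset.range k, f i := by
  unfold fst
  rw [Finset.sum_filter]
  rw [Fin.sum_univ_eq_sum_range (fun i => if i < k then f i else 0) n]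
  rw [← Finset.sum_filter]
  congr 1
  ext i
  simp only [Finset.mem_filter, Finset.mem_range]
  constructor
  · exact fun h => h.2
  · exact fun h => ⟨lt_of_lt_of_le h hk, h⟩

theorem final5_aux_tau (z : ℝ) (hz : 0 < z) : 0 < z ^ 3 / (1 + 3 * z ^ 2) ∧
    z ^ 3 / (1 + 3 * z ^ 2) < z ∧ 3 * (z ^ 3 / (1 + 3 * z ^ 2)) ≤ z ∧
    z ^ 3 / (1 + 3 * z ^ 2) ≤ (z - z ^ 3 / (1 + 3 * z ^ 2)) ^ 3 := by
  have hd : 0 < 1 + 3 * z ^ 2 := by positivity
  refine ⟨by positivity, ?_, ?_, ?_⟩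
  · rw [div_lt_iff₀ hd]
    nlinarith [pow_pos hz 3]
  · rw [← mul_div_assoc, div_le_iff₀ hd]
    nlinarith [pow_pos hz 3]
  · have h1 : z - z ^ 3 / (1 + 3 * z ^ 2) = z * (1 + 2 * z ^ 2) / (1 + 3 * z ^ 2) := by
      field_simp
      ring
    rw [h1, div_pow, div_le_div_iff₀ hd (by positivity)]
    have h2 : (1 + 3 * z ^ 2) ^ 2 ≤ (1 + 2 * z ^ 2) ^ 3 := by
      nlinarith [sq_nonneg z, sq_nonneg (z ^ 2), sq_nonneg (z ^ 3)]
    have h3 : 0 ≤ z ^ 3 * (1 + 3 * z ^ 2) := by positivity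
    nlinarith [mul_le_mul_of_nonneg_left h2 h3]

theorem final5 {n : ℕ} (hn : 5 ≤ n) (A : Fin n → Fin n → ℝ) (hA : Crit A) (hs : Sorted A) :
    (∀ i, rs A i = 1) ∧ (∀ j, cs A j = 1) := by
  by_contra hne
  have hnR : (5 : ℝ) ≤ (n : ℝ) := by exact_mod_cast hn
  -- zero sums
  have hrs : ∑ i, (rs A i - 1) = 0 := by
    rw [Finset.sum_sub_distrib]
    have : ∑ i, rs A i = (n : ℝ) := hA.tot
    rw [this]
    simp
  have hcs : ∑ j, (cs A j - 1) = 0 := by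
    rw [Finset.sum_sub_distrib]
    have : ∑ j, cs A j = (n : ℝ) := by
      have h1 := hA.tot
      rw [Finset.sum_comm] at h1
      exact h1
    rw [this]
    simp
  obtain ⟨s, hsdef⟩ : ∃ s, s = ∑ i, max (rs A i - 1) 0 := ⟨_, rfl⟩
  obtain ⟨t, htdef⟩ : ∃ t, t = ∑ j, max (cs A j - 1) 0 := ⟨_, rfl⟩
  have hZZ : ZZ A = s + t := by
    unfold ZZ
    rw [hsdef, htdef]
  obtain ⟨hs0, hRR⟩ := devn (by omega : 1 ≤ n) (fun i => rs A i - 1) hrs
    (fun i => by have := hA.rpos i; show (-1 : ℝ) < rs A i - 1; linarith) s hsdef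
  obtain ⟨ht0, hCC⟩ := devn (by omega : 1 ≤ n) (fun j => cs A j - 1) hcs
    (fun j => by have := hA.cpos j; show (-1 : ℝ) < cs A j - 1; linarith) t htdef
  have hRR' : RR A ≤ Real.exp (-(2 * s ^ 2 / (n * (1 + s)))) := by
    refine le_trans (le_of_eq ?_) hRR
    unfold RR
    refine Finset.prod_congr rfl fun i _ => ?_
    ring
  have hCC' : CC A ≤ Real.exp (-(2 * t ^ 2 / (n * (1 + t)))) := by
    refine le_trans (le_of_eq ?_) hCC
    unfold CC
    refine Finset.prod_congr rfl fun i _ => ?_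
    ring
  obtain ⟨P, hPdef⟩ : ∃ P, P = per A := ⟨_, rfl⟩
  have hP0 : 0 ≤ P := by
    rw [hPdef]
    exact pm_nonneg A hA.nn _ _
  have hPle : P ≤ mm n - (1 - Real.exp (-(2 * s ^ 2 / (n * (1 + s)))))
      - (1 - Real.exp (-(2 * t ^ 2 / (n * (1 + t))))) := by
    have h1 := hA.dev
    rw [← hPdef] at h1
    linarith
  obtain ⟨z, hz⟩ : ∃ z, z = 1 - s - t := ⟨_, rfl⟩
  have hreal : 0 < z ∧ (n : ℝ) ^ 2 * P * (1 + 3 * z ^ 2) < 8 * (1 - s) * z ^ 3 ∧
      (n : ℝ) ^ 2 * P * (1 + 3 * z ^ 2) < 8 * (1 - t) * z ^ 3 := by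
    rcases Nat.lt_or_ge n 6 with h6 | h6
    · have h5 : n = 5 := by omega
      have h5R : (n : ℝ) = 5 := by rw [h5]; norm_num
      have hmm : mm n = 24 / 625 := by
        unfold mm
        rw [h5]
        norm_num [Nat.factorial]
      have h1 := hPle
      rw [hmm, h5R] at h1
      have h2 := real5 s t P z hs0 ht0 hz hP0 h1
      rw [h5R]
      norm_num at h2 ⊢
      exact h2
    · exact real6 n h6 s t P z hs0 ht0 hz hP0 hPle
  obtain ⟨hz0, hc1, hc2⟩ := hreal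
  have hPpos : 0 < P := by
    rw [hPdef]
    exact per_pos A hA hs (by rw [hZZ]; linarith) hne
  obtain ⟨τ, hτdef⟩ : ∃ τ, τ = z ^ 3 / (1 + 3 * z ^ 2) := ⟨_, rfl⟩
  obtain ⟨hτ0, hτz, hτ3, hτc⟩ := final5_aux_tau z hz0
  rw [← hτdef] at hτ0 hτz hτ3 hτc
  have hd : 0 < 1 + 3 * z ^ 2 := by positivity
  have hzτ : z ^ 3 = τ * (1 + 3 * z ^ 2) := by
    rw [hτdef, div_mul_cancel₀ _ hd.ne']
  have hd1 : (n : ℝ) ^ 2 / 4 * P < 2 * (1 - s) * τ := by
    rw [hzτ] at hc1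
    have h1 : ((n : ℝ) ^ 2 * P) * (1 + 3 * z ^ 2) < (8 * (1 - s) * τ) * (1 + 3 * z ^ 2) := by
      linarith
    have h2 := lt_of_mul_lt_mul_right h1 hd.le
    linarith
  have hd2 : (n : ℝ) ^ 2 / 4 * P < 2 * (1 - t) * τ := by
    rw [hzτ] at hc2
    have h1 : ((n : ℝ) ^ 2 * P) * (1 + 3 * z ^ 2) < (8 * (1 - t) * τ) * (1 + 3 * z ^ 2) := by
      linarith
    have h2 := lt_of_mul_lt_mul_right h1 hd.le
    linarith
  -- sequences on ℕ
  obtain ⟨x, hxdef⟩ : ∃ x : ℕ → ℝ, x = fun i => if h : i < n then rs A ⟨i, h⟩ - 1 else 0 :=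
    ⟨_, rfl⟩
  obtain ⟨y, hydef⟩ : ∃ y : ℕ → ℝ, y = fun i => if h : i < n then 1 - cs A ⟨i, h⟩ else 0 :=
    ⟨_, rfl⟩
  have hxv : ∀ i : Fin n, x (i : ℕ) = rs A i - 1 := by
    intro i
    rw [hxdef]
    simp only [i.2, dif_pos]
  have hyv : ∀ i : Fin n, y (i : ℕ) = 1 - cs A i := by
    intro i
    rw [hydef]
    simp only [i.2, dif_pos]
  have hxs : ∑ i ∈ Finset.range n, x i = 0 := by
    rw [← Fin.sum_univ_eq_sum_range x n, ← hrs]
    exact Finset.sum_congr rfl fun i _ => hxv i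
  have hys : ∑ i ∈ Finset.range n, y i = 0 := by
    rw [← Fin.sum_univ_eq_sum_range y n]
    have h1 : ∑ i : Fin n, y (i : ℕ) = - ∑ j, (cs A j - 1) := by
      rw [← Finset.sum_neg_distrib]
      refine Finset.sum_congr rfl fun i _ => ?_
      rw [hyv i]
      ring
    rw [h1, hcs, neg_zero]
  have hxa : ∀ i j, i ≤ j → j < n → x j ≤ x i := by
    intro i j hij hj
    have h1 := hxv ⟨i, lt_of_le_of_lt hij hj⟩
    have h2 := hxv ⟨j, hj⟩
    have h3 : rs A ⟨j, hj⟩ ≤ rs A ⟨i, lt_of_le_of_lt hij hj⟩ := hs.ra (by simpa using hij)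
    simp only at h1 h2
    rw [h1, h2]
    linarith
  have hya : ∀ i j, i ≤ j → j < n → y j ≤ y i := by
    intro i j hij hj
    have h1 := hyv ⟨i, lt_of_le_of_lt hij hj⟩
    have h2 := hyv ⟨j, hj⟩
    have h3 : cs A ⟨i, lt_of_le_of_lt hij hj⟩ ≤ cs A ⟨j, hj⟩ := hs.cm (by simpa using hij)
    simp only at h1 h2
    rw [h1, h2]
    linarith
  have hXX : ∀ k, k ≤ n → XX A k = ∑ i ∈ Finset.range k, x i + ∑ i ∈ Finset.range k, y i := by
    intro k hk
    rw [← final5_aux_fst n k hk x, ← final5_aux_fst n k hk y]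
    unfold XX
    rw [sub_eq_add_neg, ← Finset.sum_neg_distrib]
    congr 1
    · exact Finset.sum_congr rfl fun i _ => (hxv i).symm
    · refine Finset.sum_congr rfl fun i _ => ?_
      rw [hyv i]
      ring
  -- the termwise inequality
  have hterm : ∀ m ∈ Finset.range (n - 1),
      τ * ((1 - s) * ((((m : ℕ) : ℝ) + 1) * ((n : ℝ) - (m + 1)) * (x m - x (m + 1))) +
        (1 - t) * ((((m : ℕ) : ℝ) + 1) * ((n : ℝ) - (m + 1)) * (y m - y (m + 1)))) ≤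
      (n : ℝ) ^ 2 / 4 * P * (∑ i ∈ Finset.range (m + 1), x i + ∑ i ∈ Finset.range (m + 1), y i) := by
    intro m hm
    rw [Finset.mem_range] at hm
    have hm1 : m + 1 < n := by omega
    have hm0 : m < n := by omega
    have hk := mid A hA hs (hPdef ▸ hPpos) hne (m + 1) ⟨m, hm0⟩ ⟨m + 1, hm1⟩ rfl rfl z τ
      (by rw [hZZ, hz]; ring) hz0 hτ0 hτz hτ3 hτc
    have hxd := xi_diff A hA hs ⟨m, hm0⟩ ⟨m + 1, hm1⟩ (by simp [Fin.lt_def])
    rw [← hsdef, ← htdef] at hxd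
    have hpos := XX_pos A hA hs hne (m + 1) (by omega) hm1
    have hx1 := hxv ⟨m, hm0⟩
    have hx2 := hxv ⟨m + 1, hm1⟩
    have hy1 := hyv ⟨m, hm0⟩
    have hy2 := hyv ⟨m + 1, hm1⟩
    simp only at hx1 hx2 hy1 hy2
    rw [← hPdef] at hk
    rw [hXX (m + 1) hm1.le] at hk hpos
    have e1 : rs A ⟨m, hm0⟩ - rs A ⟨m + 1, hm1⟩ = x m - x (m + 1) := by
      rw [hx1, hx2]; ring
    have e2 : cs A ⟨m + 1, hm1⟩ - cs A ⟨m, hm0⟩ = y m - y (m + 1) := by
      rw [hy1, hy2]; ring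
    rw [e1, e2] at hxd
    obtain ⟨hxd1, hxd2⟩ := hxd
    have hmR : ((m : ℕ) : ℝ) + 1 ≤ (n : ℝ) := by exact_mod_cast hm1.le
    obtain ⟨w, hw⟩ : ∃ w : ℝ, w = (((m : ℕ) : ℝ) + 1) * ((n : ℝ) - (m + 1)) := ⟨_, rfl⟩
    have hw0 : 0 ≤ w := by
      rw [hw]
      exact mul_nonneg (by positivity) (by linarith)
    have hw4 : w ≤ (n : ℝ) ^ 2 / 4 := by
      rw [hw]
      nlinarith [sq_nonneg ((n : ℝ) - 2 * ((m : ℝ) + 1))]
    rw [← hw]
    obtain ⟨S, hS⟩ : ∃ S : ℝ, S = ∑ i ∈ Finset.range (m + 1), x i +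
      ∑ i ∈ Finset.range (m + 1), y i := ⟨_, rfl⟩
    rw [← hS] at hk hpos ⊢
    have h1 : ((1 - s) * (x m - x (m + 1)) + (1 - t) * (y m - y (m + 1))) * τ ≤ P * S :=
      le_trans (mul_le_mul_of_nonneg_right (by linarith) hτ0.le) hk
    have h2 : w * (((1 - s) * (x m - x (m + 1)) + (1 - t) * (y m - y (m + 1))) * τ) ≤
        w * (P * S) := mul_le_mul_of_nonneg_left h1 hw0
    have h3 : w * (P * S) ≤ (n : ℝ) ^ 2 / 4 * (P * S) :=
      mul_le_mul_of_nonneg_right hw4 (mul_nonneg hP0 hpos.le)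
    calc τ * ((1 - s) * (w * (x m - x (m + 1))) + (1 - t) * (w * (y m - y (m + 1))))
        = w * (((1 - s) * (x m - x (m + 1)) + (1 - t) * (y m - y (m + 1))) * τ) := by ring
      _ ≤ w * (P * S) := h2
      _ ≤ (n : ℝ) ^ 2 / 4 * (P * S) := h3
      _ = (n : ℝ) ^ 2 / 4 * P * S := by ring
  have hsum := Finset.sum_le_sum hterm
  rw [← Finset.mul_sum, ← Finset.mul_sum, Finset.sum_add_distrib, ← Finset.mul_sum,
    ← Finset.mul_sum, parts n x hxs, parts n y hys, Finset.sum_add_distrib] at hsum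
  have hSx : 0 ≤ ∑ k ∈ Finset.range (n - 1), ∑ i ∈ Finset.range (k + 1), x i := by
    refine Finset.sum_nonneg fun k hk => ?_
    rw [Finset.mem_range] at hk
    exact final5_aux_psum n x hxs hxa (k + 1) (by omega)
  have hSy : 0 ≤ ∑ k ∈ Finset.range (n - 1), ∑ i ∈ Finset.range (k + 1), y i := by
    refine Finset.sum_nonneg fun k hk => ?_
    rw [Finset.mem_range] at hk
    exact final5_aux_psum n y hys hya (k + 1) (by omega)
  have hSS : 0 < ∑ k ∈ Finset.range (n - 1), ∑ i ∈ Finset.range (k + 1), x i +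
      ∑ k ∈ Finset.range (n - 1), ∑ i ∈ Finset.range (k + 1), y i := by
    rw [← Finset.sum_add_distrib]
    refine Finset.sum_pos (fun k hk => ?_) ⟨0, Finset.mem_range.2 (by omega)⟩
    rw [Finset.mem_range] at hk
    have h1 := XX_pos A hA hs hne (k + 1) (by omega) (by omega)
    rwa [hXX (k + 1) (by omega)] at h1
  obtain ⟨a, ha⟩ : ∃ a, a = ∑ k ∈ Finset.range (n - 1), ∑ i ∈ Finset.range (k + 1), x i :=
    ⟨_, rfl⟩
  obtain ⟨b, hb⟩ : ∃ b, b = ∑ k ∈ Finset.range (n - 1), ∑ i ∈ Finset.range (k + 1), y i :=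
    ⟨_, rfl⟩
  rw [← ha] at hSx hSS hsum
  rw [← hb] at hSy hSS hsum
  rcases eq_or_lt_of_le hSx with ha0 | ha0
  · rw [← ha0] at hsum hSS
    have hb0 : 0 < b := by linarith
    nlinarith [mul_lt_mul_of_pos_right hd2 hb0]
  · nlinarith [mul_lt_mul_of_pos_right hd1 ha0, mul_le_mul_of_nonneg_right hd2.le hSy]

end Pool.Agent.Helper153.Ditt
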