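import Pool.Agent.Helper153.Ditt.J18871
import Pool.Agent.Helper153.Ditt.J19160
import Pool.Agent.Helper153.Ditt.J19170
import Pool.Agent.Helper153.Ditt.J19192
import Pool.Agent.Helper153.Ditt.J19369
import Pool.Agent.Helper153.Ditt.J19765
import Pool.Agent.Helper153.Ditt.J19966
import Pool.Agent.Helper153.Ditt.J19974
import Pool.Agent.Helper153.Ditt.J20007

set_option autoImplicit false

open scoped BigOperators

namespace Pool.Agent.Helper153.Ditt

/-- at a critical matrix (any order `n ≥ 3`) all row and column sums are `1` -/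
theorem crit_sums {n : ℕ} (hn : 3 ≤ n) (A : Fin n → Fin n → ℝ) (hA : Crit A) :
    (∀ i, rs A i = 1) ∧ (∀ j, cs A j = 1) := by
  obtain ⟨s, t, hc, hs⟩ := sort_crit A hA
  have h : (∀ i, rs (fun i j => A (s i) (t j)) i = 1) ∧
      (∀ j, cs (fun i j => A (s i) (t j)) j = 1) := by
    rcases Nat.lt_or_ge n 5 with h5 | h5
    · have h34 : n = 3 ∨ n = 4 := by omega
      rcases h34 with rfl | rfl
      · exact final3 _ hc hs
      · exact final4 _ hc hs
    · exact final5 h5 _ hc hs
  constructor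
  · intro i
    have h1 := h.1 (s.symm i)
    unfold rs at h1 ⊢
    simp only [Equiv.apply_symm_apply] at h1
    rw [← h1]
    exact (Equiv.sum_comp t (fun j => A i j)).symm
  · intro j
    have h1 := h.2 (t.symm j)
    unfold cs at h1 ⊢
    simp only [Equiv.apply_symm_apply] at h1
    rw [← h1]
    exact (Equiv.sum_comp s (fun i => A i j)).symm

theorem max_unique {n : ℕ} (hn : 3 ≤ n) (A : Fin n → Fin n → ℝ) (h0 : ∀ i j, 0 ≤ A i j)
    (ht : ∑ i, ∑ j, A i j = n)
    (hmax : ∀ B : Fin n → Fin n → ℝ, (∀ i j, 0 ≤ B i j) → (∑ i, ∑ j, B i j = n) → phi B ≤ phi A)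
    (hbig : 2 - mm n ≤ phi A) (i j : Fin n) : A i j = 1 / n := by
  have hc := crit_of_max (by omega) A h0 ht hmax hbig
  obtain ⟨hr, hcs⟩ := crit_sums hn A hc
  exact ds_max_eq (by omega) A h0 hmax hbig hr hcs i j

theorem phi_J {n : ℕ} (hn : 0 < n) : phi (fun _ _ : Fin n => (1 : ℝ) / n) = 2 - mm n := by
  have hn' : (n : ℝ) ≠ 0 := by positivity
  have h1 : ∀ i : Fin n, rs (fun _ _ : Fin n => (1 : ℝ) / n) i = 1 := by
    intro i
    unfold rs
    rw [Finset.sum_const, Finset.card_univ, Fintype.card_fin, nsmul_eq_mul]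
    field_simp
  have h2 : ∀ i : Fin n, cs (fun _ _ : Fin n => (1 : ℝ) / n) i = 1 := by
    intro i
    unfold cs
    rw [Finset.sum_const, Finset.card_univ, Fintype.card_fin, nsmul_eq_mul]
    field_simp
  have h3 : per (fun _ _ : Fin n => (1 : ℝ) / n) = mm n := by
    rw [← per_eq_permanent]
    unfold Matrix.permanent mm
    simp only [Matrix.of_apply, Finset.prod_const, Finset.card_univ, Fintype.card_fin,
      Finset.sum_const, Fintype.card_perm, nsmul_eq_mul, one_div, inv_pow]
    rw [div_eq_mul_inv]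
  unfold phi RR CC
  rw [Finset.prod_congr rfl (fun i _ => h1 i), Finset.prod_congr rfl (fun i _ => h2 i), h3]
  simp
  ring

theorem dittert (n : ℕ) (hn : 0 < n) (A : Matrix (Fin n) (Fin n) ℝ) (h0 : ∀ i j, 0 ≤ A i j)
    (ht : (∑ i, ∑ j, A i j) = (n : ℝ))
    (hne : A ≠ Matrix.of (fun _ _ : Fin n => (1 : ℝ) / n)) :
    (∏ i, ∑ j, A i j) + (∏ j, ∑ i, A i j) - A.permanent <
        (∏ _i : Fin n, ∑ _j : Fin n, (1 : ℝ) / n)
          + (∏ _j : Fin n, ∑ _i : Fin n, (1 : ℝ) / n)
          - (Matrix.of (fun _ _ : Fin n => (1 : ℝ) / n)).permanent := by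
  have hn' : (n : ℝ) ≠ 0 := by positivity
  have eA : (∏ i, ∑ j, A i j) + (∏ j, ∑ i, A i j) - A.permanent = phi A := by
    unfold phi RR CC rs cs
    rw [← per_eq_permanent]
    rfl
  have eJ : (∏ _i : Fin n, ∑ _j : Fin n, (1 : ℝ) / n)
          + (∏ _j : Fin n, ∑ _i : Fin n, (1 : ℝ) / n)
          - (Matrix.of (fun _ _ : Fin n => (1 : ℝ) / n)).permanent
        = phi (fun _ _ : Fin n => (1 : ℝ) / n) := by
    unfold phi RR CC rs cs
    rw [← per_eq_permanent]
  rw [eA, eJ]
  have hcase : n = 1 ∨ n = 2 ∨ 3 ≤ n := by omega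
  rcases hcase with rfl | rfl | hn3
  · exfalso
    apply hne
    ext i j
    have hi : i = 0 := Subsingleton.elim _ _
    have hj : j = 0 := Subsingleton.elim _ _
    subst hi hj
    simp at ht ⊢
    exact ht
  · have h1 := phi_two A h0 (by exact_mod_cast ht) (by
      by_contra hcon
      push Not at hcon
      apply hne
      ext i j
      rw [hcon i j]
      norm_num)
    have e2 : (∏ i, ∑ j, A i j) + (∏ j, ∑ i, A i j) - Matrix.permanent (Matrix.of A) = phi A := eA
    rw [e2] at h1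
    rw [phi_J (by norm_num)]
    have h2 : mm 2 = 1 / 2 := by
      unfold mm
      norm_num [Nat.factorial]
    rw [h2]
    linarith
  · by_contra hcon
    push Not at hcon
    obtain ⟨A0, h00, h0t, h0max⟩ := exists_max n hn
    have hJ0 : ∀ i j : Fin n, 0 ≤ (fun _ _ : Fin n => (1 : ℝ) / n) i j := fun i j => by positivity
    have hJt : ∑ i : Fin n, ∑ j : Fin n, (fun _ _ : Fin n => (1 : ℝ) / n) i j = n := by
      simp only [Finset.sum_const, Finset.card_univ, Fintype.card_fin, nsmul_eq_mul]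
      field_simp
    have hb0 : 2 - mm n ≤ phi A0 := by
      rw [← phi_J hn]
      exact h0max _ hJ0 hJt
    have hA0 : A0 = fun _ _ : Fin n => (1 : ℝ) / n := by
      funext i j
      exact max_unique hn3 A0 h00 h0t h0max hb0 i j
    have hmaxA : ∀ B : Fin n → Fin n → ℝ, (∀ i j, 0 ≤ B i j) → (∑ i, ∑ j, B i j = n) →
        phi B ≤ phi A := by
      intro B hB hBt
      have h5 := h0max B hB hBt
      rw [hA0] at h5
      exact h5.trans hcon
    have hbA : 2 - mm n ≤ phi A := by
      rw [← phi_J hn]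
      exact hcon
    apply hne
    ext i j
    rw [Matrix.of_apply]
    exact max_unique hn3 A h0 ht hmaxA hbA i j

end Pool.Agent.Helper153.Ditt
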